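import Pool.Agent.R476.OR.Stm
import Pool.Agent.Y849.RG.One

/-!
# OR-A: the one-dimensional field (`S_FLD`)
-/

set_option autoImplicit false

namespace Pool.Agent.R476.OR.A

open MeasureTheory Set Filter Topology
open Pool.Agent.Y506.RG (ND OB)
open Pool.Agent.Y849.RG (exp_abs refl four_exp one1)
open Pool.Agent.R476.OR

theorem tail_der {φ : ℝ → ℝ} (hc : Continuous φ) (hi : Integrable φ) (x : ℝ) :
    HasDerivAt (fun y => ∫ t in Ioi y, φ t) (-φ x) x := by
  have h1 : (fun y => ∫ t in Ioi y, φ t) = fun y => (∫ t in Ioi x, φ t) - ∫ t in x..y, φ t := by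
    funext y
    have := intervalIntegral.integral_interval_add_Ioi (hi.integrableOn (s := Ioi x))
      (hi.integrableOn (s := Ioi y))
    linarith
  rw [h1]
  exact (intervalIntegral.integral_hasDerivAt_right (hc.intervalIntegrable _ _)
    (hc.stronglyMeasurableAtFilter _ _) hc.continuousAt).const_sub _

variable {V V' : ℝ → ℝ} {C0 m : ℝ}

theorem cV (h : NV V V') : Continuous V :=
  continuous_iff_continuousAt.2 fun t => (h.cv.der t).continuousAt

theorem cE (h : NV V V') : Continuous fun t => Real.exp (-V t) := (cV h).neg.rexp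

theorem dE (h : NV V V') (t : ℝ) :
    HasDerivAt (fun t => Real.exp (-V t)) (-(V' t * Real.exp (-V t))) t := by
  have h1 : HasDerivAt (fun t => -V t) (-V' t) t := (h.cv.der t).neg
  convert h1.exp using 1
  ring

theorem int4 (h : NV V V') (hO : OB C0 fun t => Real.exp (-V t)) :
    Integrable fun t => V t ^ 4 * Real.exp (-V t) := by
  have hC := hO.one_le
  have hC0 : 0 < C0 := by linarith
  have i1 := (exp_abs (1 / (2 * C0)) (by positivity) 0).1
  refine (i1.const_mul (384 * C0 ^ 3)).mono' (((cV h).pow 4).mul (cE h)).aestronglyMeasurable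
    (Eventually.of_forall fun t => ?_)
  have h1 : Real.exp (-V t) ≤ C0 * Real.exp (-|t| / C0) := hO.tail t
  have h2 : Real.exp (-V t / 2) ≤ C0 * Real.exp (-(1 / (2 * C0) * |t - 0|)) := by
    refine le_of_sq_le_sq ?_ (by positivity)
    have e1 : Real.exp (-V t / 2) ^ 2 = Real.exp (-V t) := by
      rw [← Real.exp_nat_mul]
      congr 1
      push_cast
      ring
    have e2 : Real.exp (-(1 / (2 * C0) * |t - 0|)) ^ 2 = Real.exp (-|t| / C0) := by
      rw [← Real.exp_nat_mul, sub_zero]
      congr 1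
      push_cast
      field_simp
    rw [mul_pow, e1, e2]
    refine h1.trans (mul_le_mul_of_nonneg_right ?_ (Real.exp_pos _).le)
    nlinarith
  rw [Real.norm_of_nonneg (by positivity)]
  have h3 : V t ^ 4 * Real.exp (-V t) ≤ 384 * C0 ^ 2 * Real.exp (-V t / 2) := by
    have e3 : Real.exp (-V t) = Real.exp (-V t / 2) * Real.exp (-V t / 2) := by
      rw [← Real.exp_add]
      congr 1
      ring
    rcases le_or_gt 0 (V t) with h4 | h4
    · have h5 := four_exp (x := V t / 2) (by positivity)
      have h6 : V t ^ 4 ≤ 384 * Real.exp (V t / 2) := by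
        have : V t ^ 4 = 16 * (V t / 2) ^ 4 := by ring
        rw [this]
        linarith
      have h7 : Real.exp (V t / 2) * Real.exp (-V t / 2) = 1 := by
        rw [← Real.exp_add, ← Real.exp_zero]
        congr 1
        ring
      calc V t ^ 4 * Real.exp (-V t) ≤ 384 * Real.exp (V t / 2) * Real.exp (-V t) :=
            mul_le_mul_of_nonneg_right h6 (Real.exp_pos _).le
        _ = 384 * (Real.exp (V t / 2) * Real.exp (-V t / 2)) * Real.exp (-V t / 2) := by
            rw [e3]
            ring
        _ = 384 * 1 * Real.exp (-V t / 2) := by rw [h7]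
        _ ≤ 384 * C0 ^ 2 * Real.exp (-V t / 2) := by
            refine mul_le_mul_of_nonneg_right ?_ (Real.exp_pos _).le
            nlinarith
    · have h8 : Real.exp (-V t) ≤ C0 := by
        refine h1.trans ?_
        have : Real.exp (-|t| / C0) ≤ 1 := by
          rw [← Real.exp_zero]
          refine Real.exp_le_exp.2 ?_
          rw [neg_div]
          have : 0 ≤ |t| / C0 := by positivity
          linarith
        nlinarith
      have h9 := four_exp (x := -V t) (by linarith)
      have h10 : V t ^ 4 ≤ 24 * C0 := by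
        have : V t ^ 4 = (-V t) ^ 4 := by ring
        rw [this]
        linarith
      have h11 : Real.exp (-V t / 2) ≤ C0 := by
        refine le_trans (Real.exp_le_exp.2 ?_) h8
        linarith
      have h12 := Real.exp_pos (-V t / 2)
      calc V t ^ 4 * Real.exp (-V t) ≤ 24 * C0 * Real.exp (-V t) :=
            mul_le_mul_of_nonneg_right h10 (Real.exp_pos _).le
        _ = 24 * C0 * Real.exp (-V t / 2) * Real.exp (-V t / 2) := by
            rw [e3]
            ring
        _ ≤ 24 * C0 * C0 * Real.exp (-V t / 2) := by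
            refine mul_le_mul_of_nonneg_right ?_ h12.le
            exact mul_le_mul_of_nonneg_left h11 (by positivity)
        _ ≤ 384 * C0 ^ 2 * Real.exp (-V t / 2) := by
            refine mul_le_mul_of_nonneg_right ?_ h12.le
            nlinarith
  calc V t ^ 4 * Real.exp (-V t) ≤ 384 * C0 ^ 2 * Real.exp (-V t / 2) := h3
    _ ≤ 384 * C0 ^ 2 * (C0 * Real.exp (-(1 / (2 * C0) * |t - 0|))) :=
        mul_le_mul_of_nonneg_left h2 (by positivity)
    _ = 384 * C0 ^ 3 * Real.exp (-(1 / (2 * C0) * |t - 0|)) := by ring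

theorem int2 (h : NV V V') (i4 : Integrable fun t => V t ^ 4 * Real.exp (-V t)) (m : ℝ) :
    Integrable fun t => (V t - m) ^ 2 * Real.exp (-V t) := by
  refine ((h.nd.int0.const_mul (1 + 2 * m ^ 2)).add i4).mono'
    ((((cV h).sub continuous_const).pow 2).mul (cE h)).aestronglyMeasurable
    (Eventually.of_forall fun t => ?_)
  rw [Real.norm_of_nonneg (by positivity)]
  simp only [Pi.add_apply]
  have := Real.exp_pos (-V t)
  have h1 : (V t - m) ^ 2 ≤ (1 + 2 * m ^ 2) + V t ^ 4 := by
    nlinarith [sq_nonneg (V t ^ 2 - 1), sq_nonneg (V t + m)]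
  nlinarith

theorem int1 (h : NV V V') (i4 : Integrable fun t => V t ^ 4 * Real.exp (-V t)) (m : ℝ) :
    Integrable fun t => (V t - m) * Real.exp (-V t) := by
  refine (h.nd.int0.add (int2 h i4 m)).mono'
    (((cV h).sub continuous_const).mul (cE h)).aestronglyMeasurable
    (Eventually.of_forall fun t => ?_)
  rw [Real.norm_eq_abs, abs_mul, abs_of_pos (Real.exp_pos _)]
  simp only [Pi.add_apply]
  have := Real.exp_pos (-V t)
  have h1 : |V t - m| ≤ 1 + (V t - m) ^ 2 := by
    have := sq_abs (V t - m)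
    nlinarith [sq_nonneg (|V t - m| - 1)]
  nlinarith

/-- upper tail of the centred potential -/
noncomputable def Hh (V : ℝ → ℝ) (m x : ℝ) : ℝ := ∫ t in Ioi x, (V t - m) * Real.exp (-V t)

/-- upper tail -/
noncomputable def Rr (V : ℝ → ℝ) (x : ℝ) : ℝ := ∫ t in Ioi x, Real.exp (-V t)

theorem dH (h : NV V V') (i4 : Integrable fun t => V t ^ 4 * Real.exp (-V t)) (m x : ℝ) :
    HasDerivAt (Hh V m) (-((V x - m) * Real.exp (-V x))) x :=
  tail_der (((cV h).sub continuous_const).mul (cE h)) (int1 h i4 m) x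

theorem dR (h : NV V V') (x : ℝ) : HasDerivAt (Rr V) (-Real.exp (-V x)) x :=
  tail_der (cE h) h.nd.int0 x

theorem Rpos (h : NV V V') (x : ℝ) : 0 < Rr V x := by
  have h1 := intervalIntegral.integral_interval_add_Ioi (h.nd.int0.integrableOn (s := Ioi x))
    (h.nd.int0.integrableOn (s := Ioi (x + 1)))
  have h2 : 0 < ∫ t in x..(x + 1), Real.exp (-V t) :=
    intervalIntegral.intervalIntegral_pos_of_pos ((cE h).intervalIntegrable _ _)
      (fun t => Real.exp_pos _) (by linarith)
  have h3 : 0 ≤ ∫ t in Ioi (x + 1), Real.exp (-V t) :=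
    integral_nonneg fun t => (Real.exp_pos _).le
  rw [Rr]
  linarith

theorem cs (h : NV V V') (i4 : Integrable fun t => V t ^ 4 * Real.exp (-V t)) (m T : ℝ) :
    Hh V m T ^ 2 / Rr V T ≤ ∫ t in Ioi T, (V t - m) ^ 2 * Real.exp (-V t) := by
  have hR := Rpos h T
  set q := Hh V m T / Rr V T with hq
  have h1 : 0 ≤ ∫ t in Ioi T, ((V t - m) - q) ^ 2 * Real.exp (-V t) :=
    integral_nonneg fun t => by positivity
  have h2 : (∫ t in Ioi T, ((V t - m) - q) ^ 2 * Real.exp (-V t)) =
      (∫ t in Ioi T, (V t - m) ^ 2 * Real.exp (-V t)) - 2 * q * Hh V m T + q ^ 2 * Rr V T := by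
    have e : (fun t => ((V t - m) - q) ^ 2 * Real.exp (-V t)) = fun t =>
        ((V t - m) ^ 2 * Real.exp (-V t) - 2 * q * ((V t - m) * Real.exp (-V t))) +
          q ^ 2 * Real.exp (-V t) := by
      funext t
      ring
    rw [e, integral_add, integral_sub, integral_const_mul, integral_const_mul, Hh, Rr]
    · exact (int2 h i4 m).integrableOn
    · exact ((int1 h i4 m).const_mul _).integrableOn
    · exact ((int2 h i4 m).integrableOn).sub ((int1 h i4 m).const_mul _).integrableOn
    · exact (h.nd.int0.const_mul _).integrableOn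
  rw [h2] at h1
  have h3 : q * Rr V T = Hh V m T := by
    rw [hq]
    field_simp
  have h4 : Hh V m T ^ 2 / Rr V T = q * Hh V m T := by
    rw [hq]
    ring
  have h5 : q ^ 2 * Rr V T = q * Hh V m T := by
    rw [← h3]
    ring
  rw [h4]
  linarith

theorem hardy (h : NV V V') (i4 : Integrable fun t => V t ^ 4 * Real.exp (-V t)) (m : ℝ) {T : ℝ}
    (hT : 0 ≤ T) : ∫ t in (0 : ℝ)..T, Hh V m t ^ 2 * Real.exp (-V t) / Rr V t ^ 2 ≤
      4 * ∫ t in Ioi 0, (V t - m) ^ 2 * Real.exp (-V t) := by
  have cH : Continuous (Hh V m) :=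
    continuous_iff_continuousAt.2 fun t => (dH h i4 m t).continuousAt
  have cR : Continuous (Rr V) :=
    continuous_iff_continuousAt.2 fun t => (dR h t).continuousAt
  have R0 : ∀ t, Rr V t ≠ 0 := fun t => (Rpos h t).ne'
  have cg : Continuous fun t => (V t - m) * Real.exp (-V t) :=
    ((cV h).sub continuous_const).mul (cE h)
  have cg2 : Continuous fun t => (V t - m) ^ 2 * Real.exp (-V t) :=
    (((cV h).sub continuous_const).pow 2).mul (cE h)
  -- derivative of `H² / R`
  set D : ℝ → ℝ := fun t => (2 * Hh V m t * (-((V t - m) * Real.exp (-V t))) * Rr V t -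
    Hh V m t ^ 2 * (-Real.exp (-V t))) / Rr V t ^ 2 with hD
  have cD : Continuous D := by
    refine Continuous.div ?_ (cR.pow 2) (fun t => pow_ne_zero 2 (R0 t))
    exact (((continuous_const.mul cH).mul cg.neg).mul cR).sub ((cH.pow 2).mul (cE h).neg)
  have hder : ∀ t, HasDerivAt (fun t => Hh V m t ^ 2 / Rr V t) (D t) t := by
    intro t
    have := ((dH h i4 m t).fun_pow 2).fun_div (dR h t) (R0 t)
    refine this.congr_deriv ?_
    simp only [hD]
    norm_num
  have hft : ∫ t in (0 : ℝ)..T, D t = Hh V m T ^ 2 / Rr V T - Hh V m 0 ^ 2 / Rr V 0 :=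
    intervalIntegral.integral_eq_sub_of_hasDerivAt (fun t _ => hder t) (cD.intervalIntegrable _ _)
  have c1 : Continuous fun t => Hh V m t ^ 2 * Real.exp (-V t) / Rr V t ^ 2 :=
    ((cH.pow 2).mul (cE h)).div (cR.pow 2) (fun t => pow_ne_zero 2 (R0 t))
  have hpt : ∫ t in (0 : ℝ)..T, (1 / 2) * (Hh V m t ^ 2 * Real.exp (-V t) / Rr V t ^ 2) ≤
      ∫ t in (0 : ℝ)..T, (D t + 2 * ((V t - m) ^ 2 * Real.exp (-V t))) := by
    refine intervalIntegral.integral_mono_on hT ((continuous_const.mul c1).intervalIntegrable _ _)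
      ((cD.add (continuous_const.mul cg2)).intervalIntegrable _ _) (fun t _ => ?_)
    have hR := Rpos h t
    have hE := Real.exp_pos (-V t)
    set q := Hh V m t / Rr V t with hq
    have hHq : Hh V m t = q * Rr V t := by
      rw [hq]
      field_simp
    have e1 : Hh V m t ^ 2 * Real.exp (-V t) / Rr V t ^ 2 = q ^ 2 * Real.exp (-V t) := by
      rw [hHq]
      field_simp
    have e2 : D t = -2 * q * (V t - m) * Real.exp (-V t) + q ^ 2 * Real.exp (-V t) := by
      simp only [hD]
      rw [hHq]
      field_simp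
      ring
    rw [e1, e2]
    nlinarith [mul_nonneg hE.le (sq_nonneg (q - 2 * (V t - m)))]
  have cg3 : Continuous fun t => 2 * ((V t - m) ^ 2 * Real.exp (-V t)) := continuous_const.mul cg2
  rw [intervalIntegral.integral_const_mul, intervalIntegral.integral_add (cD.intervalIntegrable _ _)
    (cg3.intervalIntegrable _ _), intervalIntegral.integral_const_mul, hft] at hpt
  have h1 := cs h i4 m T
  have h2 : 0 ≤ Hh V m 0 ^ 2 / Rr V 0 := div_nonneg (sq_nonneg _) (Rpos h 0).le
  have h3 := intervalIntegral.integral_interval_add_Ioi ((int2 h i4 m).integrableOn (s := Ioi 0))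
    ((int2 h i4 m).integrableOn (s := Ioi T))
  have h4 : 0 ≤ ∫ t in Ioi T, (V t - m) ^ 2 * Real.exp (-V t) :=
    integral_nonneg fun t => by positivity
  linarith

theorem dRb (h : NV V V') (hO : OB C0 fun t => Real.exp (-V t)) {t : ℝ} (ht : 0 ≤ t) :
    |V' t| * Rr V t ≤ C0 * Real.exp (-V t) := by
  have hC := hO.one_le
  have hE := Real.exp_pos (-V t)
  have hc : Continuous fun s => V' s * Real.exp (-V s) := h.cv.cont.mul (cE h)
  rcases le_or_gt 0 (V' t) with h0 | h0
  · rw [abs_of_nonneg h0]
    have h1 : ∀ T, t ≤ T → V' t * ∫ s in t..T, Real.exp (-V s) ≤ Real.exp (-V t) := by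
      intro T hT
      have h2 : ∫ s in t..T, -(V' s * Real.exp (-V s)) = Real.exp (-V T) - Real.exp (-V t) :=
        intervalIntegral.integral_eq_sub_of_hasDerivAt (fun s _ => dE h s)
          (hc.neg.intervalIntegrable _ _)
      rw [intervalIntegral.integral_neg] at h2
      have h3 : ∫ s in t..T, V' t * Real.exp (-V s) ≤ ∫ s in t..T, V' s * Real.exp (-V s) := by
        refine intervalIntegral.integral_mono_on hT
          ((continuous_const.mul (cE h)).intervalIntegrable _ _) (hc.intervalIntegrable _ _)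
          (fun s hs => mul_le_mul_of_nonneg_right (h.cv.mono hs.1) (Real.exp_pos _).le)
      rw [intervalIntegral.integral_const_mul] at h3
      have := Real.exp_pos (-V T)
      linarith
    have h2 : Tendsto (fun T => V' t * ∫ s in t..T, Real.exp (-V s)) atTop (𝓝 (V' t * Rr V t)) :=
      (intervalIntegral_tendsto_integral_Ioi t h.nd.int0.integrableOn tendsto_id).const_mul _
    have h3 : V' t * Rr V t ≤ Real.exp (-V t) :=
      le_of_tendsto h2 ((eventually_ge_atTop t).mono h1)
    nlinarith
  · rw [abs_of_neg h0]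
    have h1 : ∀ T, T ≤ t → -V' t * ∫ s in T..t, Real.exp (-V s) ≤ Real.exp (-V t) := by
      intro T hT
      have h2 : ∫ s in T..t, -(V' s * Real.exp (-V s)) = Real.exp (-V t) - Real.exp (-V T) :=
        intervalIntegral.integral_eq_sub_of_hasDerivAt (fun s _ => dE h s)
          (hc.neg.intervalIntegrable _ _)
      have h3 : ∫ s in T..t, -V' t * Real.exp (-V s) ≤ ∫ s in T..t, -(V' s * Real.exp (-V s)) := by
        refine intervalIntegral.integral_mono_on hT
          ((continuous_const.mul (cE h)).intervalIntegrable _ _) (hc.neg.intervalIntegrable _ _)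
          (fun s hs => ?_)
        have := h.cv.mono hs.2
        nlinarith [Real.exp_pos (-V s)]
      rw [intervalIntegral.integral_const_mul] at h3
      have := Real.exp_pos (-V T)
      linarith
    have h2 : Tendsto (fun T => -V' t * ∫ s in T..t, Real.exp (-V s)) atBot
        (𝓝 (-V' t * ∫ s in Iic t, Real.exp (-V s))) :=
      (intervalIntegral_tendsto_integral_Iic t h.nd.int0.integrableOn tendsto_id).const_mul _
    have h3 : -V' t * (∫ s in Iic t, Real.exp (-V s)) ≤ Real.exp (-V t) :=
      le_of_tendsto h2 ((eventually_le_atBot t).mono h1)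
    have h4 : 1 / C0 ≤ ∫ s in Iic t, Real.exp (-V s) := by
      refine hO.ml.trans ?_
      exact setIntegral_mono_set h.nd.int0.integrableOn
        (Eventually.of_forall fun s => (Real.exp_pos _).le) (Iic_subset_Iic.2 ht).eventuallyLE
    have h5 : Rr V t ≤ 1 := by
      have : Rr V t ≤ ∫ s, Real.exp (-V s) :=
        setIntegral_le_integral h.nd.int0 (Eventually.of_forall fun s => (Real.exp_pos _).le)
      rw [h.nd.mass] at this
      exact this
    have h6 : 1 ≤ C0 * ∫ s in Iic t, Real.exp (-V s) := by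
      have := mul_le_mul_of_nonneg_left h4 (by linarith : (0:ℝ) ≤ C0)
      rwa [mul_one_div_cancel (by linarith)] at this
    calc -V' t * Rr V t ≤ -V' t * (C0 * ∫ s in Iic t, Real.exp (-V s)) :=
          mul_le_mul_of_nonneg_left (h5.trans h6) (by linarith)
      _ = C0 * (-V' t * ∫ s in Iic t, Real.exp (-V s)) := by ring
      _ ≤ C0 * Real.exp (-V t) := mul_le_mul_of_nonneg_left h3 (by linarith)

theorem am_gm {e : ℝ} (z : ℝ) (he : 0 ≤ e) : |z| * e ≤ z ^ 2 * e + e := by
  have h1 : |z| ≤ z ^ 2 + 1 := by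
    have := sq_abs z
    nlinarith [sq_nonneg (|z| - 1)]
  nlinarith

/-- comparison on the half line -/
theorem cmp (h : NV V V') (i4 : Integrable fun t => V t ^ 4 * Real.exp (-V t)) (m : ℝ)
    {w : ℝ → ℝ} (cw : Continuous w) (w0 : ∀ t, 0 ≤ w t)
    (hw : ∀ t, 0 ≤ t → w t ≤ C0 ^ 2 * (Hh V m t ^ 2 * Real.exp (-V t) / Rr V t ^ 2)) :
    IntegrableOn w (Ioi 0) ∧
      ∫ t in Ioi 0, w t ≤ 4 * C0 ^ 2 * ∫ t in Ioi 0, (V t - m) ^ 2 * Real.exp (-V t) := by
  have cH : Continuous (Hh V m) :=
    continuous_iff_continuousAt.2 fun t => (dH h i4 m t).continuousAt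
  have cR : Continuous (Rr V) :=
    continuous_iff_continuousAt.2 fun t => (dR h t).continuousAt
  have R0 : ∀ t, Rr V t ≠ 0 := fun t => (Rpos h t).ne'
  have c1 : Continuous fun t => Hh V m t ^ 2 * Real.exp (-V t) / Rr V t ^ 2 :=
    ((cH.pow 2).mul (cE h)).div (cR.pow 2) (fun t => pow_ne_zero 2 (R0 t))
  have h1 : ∀ T : ℝ, 0 ≤ T → ∫ t in (0 : ℝ)..T, w t ≤
      4 * C0 ^ 2 * ∫ t in Ioi 0, (V t - m) ^ 2 * Real.exp (-V t) := by
    intro T hT
    have h2 : ∫ t in (0 : ℝ)..T, w t ≤
        ∫ t in (0 : ℝ)..T, C0 ^ 2 * (Hh V m t ^ 2 * Real.exp (-V t) / Rr V t ^ 2) :=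
      intervalIntegral.integral_mono_on hT (cw.intervalIntegrable _ _)
        ((continuous_const.mul c1).intervalIntegrable _ _) (fun t ht => hw t ht.1)
    rw [intervalIntegral.integral_const_mul] at h2
    have h3 := mul_le_mul_of_nonneg_left (hardy h i4 m hT) (sq_nonneg C0)
    linarith
  have h2 : IntegrableOn w (Ioi 0) := by
    refine integrableOn_Ioi_of_intervalIntegral_norm_bounded
      (4 * C0 ^ 2 * ∫ t in Ioi 0, (V t - m) ^ 2 * Real.exp (-V t)) 0 (b := fun T : ℝ => T)
      (l := atTop) (fun T => (cw.integrableOn_Ioc)) tendsto_id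
      ((eventually_ge_atTop 0).mono fun T hT => ?_)
    simp only [Real.norm_of_nonneg (w0 _)]
    exact h1 T hT
  refine ⟨h2, ?_⟩
  have h3 := intervalIntegral_tendsto_integral_Ioi 0 h2 tendsto_id
  exact le_of_tendsto h3 ((eventually_ge_atTop 0).mono h1)

/-- both bounds on the half line -/
theorem half (h : NV V V') (hO : OB C0 fun t => Real.exp (-V t))
    (i4 : Integrable fun t => V t ^ 4 * Real.exp (-V t)) (m : ℝ) :
    (IntegrableOn (fun t => (Hh V m t * Real.exp (V t)) ^ 2 * Real.exp (-V t)) (Ioi 0) ∧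
      ∫ t in Ioi 0, (Hh V m t * Real.exp (V t)) ^ 2 * Real.exp (-V t) ≤
        4 * C0 ^ 2 * ∫ t in Ioi 0, (V t - m) ^ 2 * Real.exp (-V t)) ∧
    (IntegrableOn (fun t => (V' t * (Hh V m t * Real.exp (V t))) ^ 2 * Real.exp (-V t)) (Ioi 0) ∧
      ∫ t in Ioi 0, (V' t * (Hh V m t * Real.exp (V t))) ^ 2 * Real.exp (-V t) ≤
        4 * C0 ^ 2 * ∫ t in Ioi 0, (V t - m) ^ 2 * Real.exp (-V t)) := by
  have cH : Continuous (Hh V m) :=
    continuous_iff_continuousAt.2 fun t => (dH h i4 m t).continuousAt
  have hC := hO.one_le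
  have key : ∀ t, 0 ≤ t → ∀ a : ℝ, 0 ≤ a → a * Rr V t ≤ C0 * Real.exp (-V t) →
      (a * (Hh V m t * Real.exp (V t))) ^ 2 * Real.exp (-V t) ≤
        C0 ^ 2 * (Hh V m t ^ 2 * Real.exp (-V t) / Rr V t ^ 2) := by
    intro t _ a ha hab
    have hR := Rpos h t
    have hE := Real.exp_pos (-V t)
    have hEE : Real.exp (V t) * Real.exp (-V t) = 1 := by
      rw [← Real.exp_add, add_neg_cancel, Real.exp_zero]
    have h1 : a ≤ C0 * Real.exp (-V t) / Rr V t := by
      rw [le_div_iff₀ hR]
      exact hab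
    have h2 : a ^ 2 ≤ (C0 * Real.exp (-V t) / Rr V t) ^ 2 := pow_le_pow_left₀ ha h1 2
    calc (a * (Hh V m t * Real.exp (V t))) ^ 2 * Real.exp (-V t)
        = a ^ 2 * ((Hh V m t * Real.exp (V t)) ^ 2 * Real.exp (-V t)) := by ring
      _ ≤ (C0 * Real.exp (-V t) / Rr V t) ^ 2 *
          ((Hh V m t * Real.exp (V t)) ^ 2 * Real.exp (-V t)) :=
          mul_le_mul_of_nonneg_right h2 (by positivity)
      _ = C0 ^ 2 * (Hh V m t ^ 2 * Real.exp (-V t) / Rr V t ^ 2) *
          (Real.exp (V t) * Real.exp (-V t)) ^ 2 := by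
          field_simp
      _ = C0 ^ 2 * (Hh V m t ^ 2 * Real.exp (-V t) / Rr V t ^ 2) := by
          rw [hEE]
          ring
  have ceV : Continuous fun t => Real.exp (V t) := (cV h).rexp
  constructor
  · refine cmp h i4 m (((cH.mul ceV).pow 2).mul (cE h)) (fun t => by positivity) fun t ht => ?_
    have := key t ht 1 zero_le_one (by rw [one_mul]; exact hO.right t ht)
    rwa [one_mul] at this
  · refine cmp h i4 m (((h.cv.cont.mul (cH.mul ceV)).pow 2).mul (cE h)) (fun t => by positivity)
      fun t ht => ?_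
    have := key t ht |V' t| (abs_nonneg _) (dRb h hO ht)
    have e : (|V' t| * (Hh V m t * Real.exp (V t))) ^ 2 =
        (V' t * (Hh V m t * Real.exp (V t))) ^ 2 := by
      rw [mul_pow |V' t|, sq_abs, ← mul_pow]
    rwa [e] at this

theorem rfl' (h : NV V V') : NV (fun t => V (-t)) fun t => -V' (-t) where
  cv := by
    refine ⟨fun t => ?_, fun x y hxy => ?_, (h.cv.cont.comp continuous_neg).neg⟩
    · have := (h.cv.der (-t)).scomp t (hasDerivAt_neg t)
      simp only [smul_eq_mul, neg_mul, one_mul] at this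
      exact this
    · exact neg_le_neg (h.cv.mono (neg_le_neg hxy))
  nd := refl h.nd

theorem fld : S_FLD := by
  obtain ⟨C0, hC0, hob⟩ := one1
  refine ⟨4 * C0 ^ 2, by nlinarith, fun V V' h => ?_⟩
  have hO : OB C0 fun t => Real.exp (-V t) := hob _ h.nd
  have i4 := int4 h hO
  have h' := rfl' h
  have hO' : OB C0 fun t => Real.exp (-V (-t)) := hob _ h'.nd
  have i4' : Integrable fun t => V (-t) ^ 4 * Real.exp (-V (-t)) := int4 h' hO'
  refine ⟨i4, fun t => Hh V (mV V) t * Real.exp (V t), ?_⟩
  set m := mV V with hm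
  have hEE : ∀ t, Real.exp (V t) * Real.exp (-V t) = 1 := by
    intro t
    rw [← Real.exp_add, add_neg_cancel, Real.exp_zero]
  have cH : Continuous (Hh V m) :=
    continuous_iff_continuousAt.2 fun t => (dH h i4 m t).continuousAt
  have ceV : Continuous fun t => Real.exp (V t) := (cV h).rexp
  -- total integral of the centred potential
  have iV : Integrable fun t => V t * Real.exp (-V t) := by
    have := int1 h i4 0
    simpa using this
  have tot : ∫ t, (V t - m) * Real.exp (-V t) = 0 := by
    have e : (fun t => (V t - m) * Real.exp (-V t)) = fun t =>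
        V t * Real.exp (-V t) - m * Real.exp (-V t) := by
      funext t
      ring
    have hmass := h.nd.mass
    rw [e, integral_sub iV (h.nd.int0.const_mul _), integral_const_mul, hmass, hm, mV]
    ring
  -- reflection of `H`
  have hHr : ∀ t, Hh (fun t => V (-t)) m t = -Hh V m (-t) := by
    intro t
    have h1 : Hh (fun t => V (-t)) m t = ∫ s in Iic (-t), (V s - m) * Real.exp (-V s) := by
      rw [Hh]
      have := integral_comp_neg_Ioi t fun s => (V s - m) * Real.exp (-V s)
      exact this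
    have h2 := integral_add_compl (measurableSet_Iic (a := -t)) (int1 h i4 m)
    rw [compl_Iic, tot] at h2
    rw [h1, Hh]
    linarith
  -- gluing the two halves
  have glue : ∀ w : ℝ → ℝ, IntegrableOn w (Ioi 0) → IntegrableOn (fun t => w (-t)) (Ioi 0) →
      Integrable w ∧ ∫ t, w t = (∫ t in Ioi 0, w t) + ∫ t in Ioi 0, w (-t) := by
    intro w h1 h2
    have h3 : IntegrableOn w (Iic 0) := by
      have h4 := ((integrableOn_Ici_iff_integrableOn_Ioi (μ := volume)).2 h2).comp_neg
      rw [Set.neg_Ici, neg_zero] at h4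
      simpa using h4
    have h5 : Integrable w := by
      rw [← integrableOn_univ, ← Iic_union_Ioi (a := (0:ℝ))]
      exact h3.union h1
    refine ⟨h5, ?_⟩
    have h6 := integral_add_compl (measurableSet_Iic (a := (0:ℝ))) h5
    rw [compl_Iic] at h6
    have h7 := integral_comp_neg_Ioi 0 w
    rw [neg_zero] at h7
    rw [h7, ← h6]
    ring
  obtain ⟨⟨a1, a2⟩, ⟨a3, a4⟩⟩ := half h hO i4 m
  obtain ⟨⟨b1, b2⟩, ⟨b3, b4⟩⟩ := half h' hO' i4' m
  simp only [hHr] at b1 b2 b3 b4
  have e1 : (fun t => (-Hh V m (-t) * Real.exp (V (-t))) ^ 2 * Real.exp (-V (-t))) = fun t =>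
      (fun t => (Hh V m t * Real.exp (V t)) ^ 2 * Real.exp (-V t)) (-t) := by
    funext t
    ring
  have e2 : (fun t => (-V' (-t) * (-Hh V m (-t) * Real.exp (V (-t)))) ^ 2 * Real.exp (-V (-t))) =
      fun t => (fun t => (V' t * (Hh V m t * Real.exp (V t))) ^ 2 * Real.exp (-V t)) (-t) := by
    funext t
    ring
  rw [e1] at b1 b2
  rw [e2] at b3 b4
  obtain ⟨g1, g2⟩ := glue _ a1 b1
  obtain ⟨g3, g4⟩ := glue _ a3 b3
  have i2 := int2 h i4 m
  obtain ⟨_, g6⟩ := glue (fun t => (V t - m) ^ 2 * Real.exp (-V t)) i2.integrableOn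
    i2.comp_neg.integrableOn
  have hr : rV V = ∫ t, (V t - m) ^ 2 * Real.exp (-V t) := rfl
  refine ⟨cH.mul ceV, ?_, g1, ?_, g3, ?_, ?_⟩
  · intro t
    have e : (fun t => Hh V m t * Real.exp (V t) * Real.exp (-V t)) = Hh V m := by
      funext s
      rw [mul_assoc, hEE, mul_one]
    rw [e]
    exact dH h i4 m t
  · rw [g2, hr, g6]
    linarith
  · rw [g4, hr, g6]
    linarith
  · -- the mean, by parts
    have eH : ∀ t, Hh V m t = Hh V m t * Real.exp (V t) * Real.exp (-V t) := by
      intro t
      rw [mul_assoc, hEE, mul_one]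
    have j1 : Integrable (V * fun t => -((V t - m) * Real.exp (-V t))) := by
      have e : (V * fun t => -((V t - m) * Real.exp (-V t))) = fun t =>
          -((V t - m) ^ 2 * Real.exp (-V t)) - m * ((V t - m) * Real.exp (-V t)) := by
        funext t
        simp only [Pi.mul_apply]
        ring
      rw [e]
      exact i2.neg.sub ((int1 h i4 m).const_mul m)
    have j2 : Integrable (V' * Hh V m) := by
      refine (g3.add h.nd.int0).mono' (h.cv.cont.mul cH).aestronglyMeasurable
        (Eventually.of_forall fun t => ?_)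
      simp only [Pi.add_apply, Pi.mul_apply]
      have hE := Real.exp_pos (-V t)
      have e : V' t * Hh V m t = (V' t * (Hh V m t * Real.exp (V t))) * Real.exp (-V t) := by
        rw [mul_assoc, ← eH t]
      rw [e, Real.norm_eq_abs, abs_mul, abs_of_pos hE]
      exact am_gm _ hE.le
    have j3 : Integrable (V * Hh V m) := by
      have j4 : Integrable fun t => V t ^ 2 * Real.exp (-V t) := by
        have := int2 h i4 0
        simpa using this
      refine (g1.add j4).mono' ((cV h).mul cH).aestronglyMeasurable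
        (Eventually.of_forall fun t => ?_)
      simp only [Pi.add_apply, Pi.mul_apply]
      have hE := Real.exp_pos (-V t)
      have e : V t * Hh V m t = (V t * (Hh V m t * Real.exp (V t))) * Real.exp (-V t) := by
        rw [mul_assoc, ← eH t]
      rw [e, Real.norm_eq_abs, abs_mul, abs_of_pos hE]
      have h5 : |V t * (Hh V m t * Real.exp (V t))| ≤
          (Hh V m t * Real.exp (V t)) ^ 2 + V t ^ 2 := by
        rw [abs_le]
        constructor <;> nlinarith [sq_nonneg (V t - Hh V m t * Real.exp (V t)),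
          sq_nonneg (V t + Hh V m t * Real.exp (V t)), sq_nonneg (V t),
          sq_nonneg (Hh V m t * Real.exp (V t))]
      nlinarith
    have h1 := integral_mul_deriv_eq_deriv_mul_of_integrable (u := V) (v := Hh V m) (u' := V')
      (v' := fun t => -((V t - m) * Real.exp (-V t))) (fun t _ => h.cv.der t)
      (fun t _ => dH h i4 m t) j1 j2 j3
    have h2 : (fun t => V' t * (Hh V m t * Real.exp (V t)) * Real.exp (-V t)) = fun t =>
        V' t * Hh V m t := by
      funext t
      rw [mul_assoc, ← eH t]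
    have h3 : (fun t => V t * -((V t - m) * Real.exp (-V t))) = fun t =>
        -((V t - m) ^ 2 * Real.exp (-V t)) - m * ((V t - m) * Real.exp (-V t)) := by
      funext t
      ring
    have i2n : Integrable fun t => -((V t - m) ^ 2 * Real.exp (-V t)) := i2.neg
    rw [h3, integral_sub i2n ((int1 h i4 m).const_mul m), integral_neg, integral_const_mul,
      tot] at h1
    rw [h2, hr]
    linarith

end Pool.Agent.R476.OR.A

namespace Pool.Agent.R476.OR

theorem fld : S_FLD := A.fld

end Pool.Agent.R476.OR
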