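import Pool.Agent.R476.OR.Stm

/-!
# OR-B: second moments of sums of functions of single coordinates under product densities
-/

set_option autoImplicit false

namespace Pool.Agent.R476.OR

open MeasureTheory Set Filter Topology
open scoped ENNReal InnerProductSpace
open Pool.Agent.W695.KH (Eu)

theorem prod_int {n : ℕ} (g : Fin n → ℝ → ℝ) (hg : ∀ k, Integrable (g k)) :
    Integrable (fun x : Eu (Fin n) => ∏ k, g k (x k)) := by
  have h1 : Integrable (fun x : Fin n → ℝ => ∏ k, g k (x k)) := Integrable.fintype_prod hg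
  exact (PiLp.volume_preserving_ofLp (Fin n)).integrable_comp_of_integrable h1

theorem prod_val {n : ℕ} (g : Fin n → ℝ → ℝ) :
    ∫ x : Eu (Fin n), ∏ k, g k (x k) = ∏ k, ∫ s, g k s := by
  have h1 := (EuclideanSpace.volume_preserving_symm_measurableEquiv_toLp (Fin n)).integral_comp'
    (g := fun y : Fin n → ℝ => ∏ k, g k (y k))
  rw [← integral_fintype_prod_volume_eq_prod, ← h1]
  rfl

/-- the factors of `φ i (x i) * φ j (x j) * ∏ f` -/
noncomputable def gg {n : ℕ} (f φ : Fin n → ℝ → ℝ) (i j k : Fin n) (s : ℝ) : ℝ :=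
  (if k = i then φ k s else 1) * (if k = j then φ k s else 1) * f k s

theorem gg_prod {n : ℕ} (f φ : Fin n → ℝ → ℝ) (i j : Fin n) (x : Fin n → ℝ) :
    ∏ k, gg f φ i j k (x k) = φ i (x i) * φ j (x j) * ∏ k, f k (x k) := by
  unfold gg
  rw [Finset.prod_mul_distrib, Finset.prod_mul_distrib]
  congr 2
  · rw [Finset.prod_ite_eq' Finset.univ i (fun k => φ k (x k))]
    simp
  · rw [Finset.prod_ite_eq' Finset.univ j (fun k => φ k (x k))]
    simp

theorem int_one {f φ : ℝ → ℝ} (hf : Continuous f) (h0 : ∀ s, 0 ≤ f s) (hi : Integrable f)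
    (hφ : Continuous φ) (h2 : Integrable fun s => φ s ^ 2 * f s) :
    Integrable fun s => φ s * f s := by
  refine Integrable.mono' (hi.add h2) (hφ.mul hf).aestronglyMeasurable ?_
  filter_upwards with s
  rw [Real.norm_eq_abs, abs_mul, abs_of_nonneg (h0 s)]
  have h1 : |φ s| ≤ 1 + φ s ^ 2 := by
    have := sq_nonneg (|φ s| - 1)
    nlinarith [sq_abs (φ s), abs_nonneg (φ s)]
  have := mul_le_mul_of_nonneg_right h1 (h0 s)
  simp only [Pi.add_apply]
  linarith

theorem gg_int {n : ℕ} {f φ : Fin n → ℝ → ℝ} (hf : ∀ i, Continuous (f i))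
    (h0 : ∀ i s, 0 ≤ f i s) (hi : ∀ i, Integrable (f i))
    (hφ : ∀ i, Continuous (φ i)) (h2 : ∀ i, Integrable fun s => φ i s ^ 2 * f i s)
    (i j k : Fin n) : Integrable (gg f φ i j k) := by
  unfold gg
  by_cases hki : k = i
  · by_cases hkj : k = j
    · simp only [hki, if_true]
      rw [hkj] at hki
      subst hki
      simp only [if_true]
      refine (h2 j).congr ?_
      filter_upwards with s
      ring
    · simp only [hki, if_true]
      have : ¬ i = j := by rw [← hki]; exact hkj
      simp only [this, if_false, mul_one]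
      exact int_one (hf i) (h0 i) (hi i) (hφ i) (h2 i)
  · simp only [hki, if_false, one_mul]
    by_cases hkj : k = j
    · simp only [hkj, if_true]
      exact int_one (hf j) (h0 j) (hi j) (hφ j) (h2 j)
    · simp only [hkj, if_false, one_mul]
      exact hi k

theorem term_int {n : ℕ} {f φ : Fin n → ℝ → ℝ} (hf : ∀ i, Continuous (f i))
    (h0 : ∀ i s, 0 ≤ f i s) (hi : ∀ i, Integrable (f i))
    (hφ : ∀ i, Continuous (φ i)) (h2 : ∀ i, Integrable fun s => φ i s ^ 2 * f i s)
    (i j : Fin n) :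
    Integrable (fun x : Eu (Fin n) => φ i (x i) * φ j (x j) * ∏ k, f k (x k)) := by
  refine (prod_int (gg f φ i j) (gg_int hf h0 hi hφ h2 i j)).congr ?_
  filter_upwards with x
  exact gg_prod f φ i j (fun k => x k)

theorem term_diag {n : ℕ} {f φ : Fin n → ℝ → ℝ} (h1 : ∀ i, ∫ s, f i s = 1) (i : Fin n) :
    ∫ x : Eu (Fin n), φ i (x i) * φ i (x i) * ∏ k, f k (x k) = ∫ s, φ i s ^ 2 * f i s := by
  have e : (fun x : Eu (Fin n) => φ i (x i) * φ i (x i) * ∏ k, f k (x k)) =
      fun x : Eu (Fin n) => ∏ k, gg f φ i i k (x k) := by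
    funext x
    exact (gg_prod f φ i i (fun k => x k)).symm
  rw [e, prod_val, Finset.prod_eq_single i]
  · unfold gg
    simp only [if_true]
    congr 1
    funext s
    ring
  · intro k _ hk
    unfold gg
    simp only [hk, if_false, one_mul]
    exact h1 k
  · intro h
    exact absurd (Finset.mem_univ i) h

theorem term_off {n : ℕ} {f φ : Fin n → ℝ → ℝ} (hz : ∀ i, ∫ s, φ i s * f i s = 0) (i j : Fin n)
    (hij : i ≠ j) : ∫ x : Eu (Fin n), φ i (x i) * φ j (x j) * ∏ k, f k (x k) = 0 := by
  have e : (fun x : Eu (Fin n) => φ i (x i) * φ j (x j) * ∏ k, f k (x k)) =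
      fun x : Eu (Fin n) => ∏ k, gg f φ i j k (x k) := by
    funext x
    exact (gg_prod f φ i j (fun k => x k)).symm
  rw [e, prod_val]
  apply Finset.prod_eq_zero (Finset.mem_univ i)
  unfold gg
  simp only [if_true, hij, if_false, mul_one]
  exact hz i

theorem two : S_TWO := by
  intro n f φ hfc h0 hfi h1 hφ h2
  have ht := term_int hfc h0 hfi hφ h2
  have e1 : (fun x : Eu (Fin n) => (∑ i, φ i (x i)) ^ 2 * ∏ i, f i (x i)) =
      fun x : Eu (Fin n) => ∑ i, ∑ j, φ i (x i) * φ j (x j) * ∏ k, f k (x k) := by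
    funext x
    rw [sq, Finset.sum_mul_sum, Finset.sum_mul]
    refine Finset.sum_congr rfl fun i _ => ?_
    rw [Finset.sum_mul]
  have e2 : (fun x : Eu (Fin n) => (∑ i, φ i (x i) ^ 2) * ∏ i, f i (x i)) =
      fun x : Eu (Fin n) => ∑ i, φ i (x i) * φ i (x i) * ∏ k, f k (x k) := by
    funext x
    rw [Finset.sum_mul]
    refine Finset.sum_congr rfl fun i _ => ?_
    rw [sq]
  refine ⟨?_, ?_, ?_, ?_⟩
  · rw [e1]
    exact integrable_finsetSum _ fun i _ => integrable_finsetSum _ fun j _ => ht i j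
  · rw [e2]
    exact integrable_finsetSum _ fun i _ => ht i i
  · rw [e2, integral_finsetSum _ fun i _ => ht i i]
    exact Finset.sum_congr rfl fun i _ => term_diag h1 i
  · intro hz
    rw [e1, integral_finsetSum _ fun i _ => integrable_finsetSum _ fun j _ => ht i j]
    refine Finset.sum_congr rfl fun i _ => ?_
    rw [integral_finsetSum _ fun j _ => ht i j, Finset.sum_eq_single i]
    · exact term_diag h1 i
    · intro j _ hj
      exact term_off hz i j (Ne.symm hj)
    · intro h
      exact absurd (Finset.mem_univ i) h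

end Pool.Agent.R476.OR
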