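import Pool.Agent.R476.OR.Stm

/-!
# OR-D: lower bound for the volume of the optimal sublevel set (helper628)

Chebyshev's inequality for `S = ∑ V_i(x_i)` under the product measure, and a covering of the interval
`(M - 2 s₀, M + 2 s₀)` by unit slices.
-/

set_option autoImplicit false

namespace Pool.Agent.R476.OR

open MeasureTheory Set Filter Topology
open scoped ENNReal InnerProductSpace
open Pool.Agent.W695.KH (Eu)
open Pool.Agent.Y506.RG (ND OB EW VW)

namespace PD

theorem cont_V {V V' : ℝ → ℝ} (h : NV V V') : Continuous V :=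
  continuous_iff_continuousAt.2 fun t => (h.cv.der t).continuousAt

theorem cont_SV {n : ℕ} {V V' : Fin n → ℝ → ℝ} (h : ∀ i, NV (V i) (V' i)) : Continuous (SV V) := by
  unfold SV
  refine continuous_finsetSum _ fun i _ => ?_
  have h1 : Continuous fun x : Eu (Fin n) => x i := by fun_prop
  exact (cont_V (h i)).comp h1

theorem prod_exp {n : ℕ} (V : Fin n → ℝ → ℝ) (x : Eu (Fin n)) :
    ∏ i, Real.exp (-V i (x i)) = Real.exp (-SV V x) := by
  rw [← Real.exp_sum, SV, Finset.sum_neg_distrib]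

theorem int_prod {n : ℕ} (f : Fin n → ℝ → ℝ) (hi : ∀ i, Integrable (f i)) :
    Integrable (fun x : Eu (Fin n) => ∏ i, f i (x i)) ∧
    ∫ x : Eu (Fin n), ∏ i, f i (x i) = ∏ i, ∫ s, f i s := by
  have hmp := PiLp.volume_preserving_ofLp (Fin n)
  have h1 : Integrable (fun y : Fin n → ℝ => ∏ i, f i (y i)) :=
    Integrable.fintype_prod hi
  have he : MeasurableEmbedding (@WithLp.ofLp 2 (Fin n → ℝ)) :=
    (MeasurableEquiv.toLp 2 (Fin n → ℝ)).symm.measurableEmbedding
  constructor
  · exact (hmp.integrable_comp_emb he).2 h1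
  · rw [← integral_fintype_prod_volume_eq_prod]
    exact hmp.integral_comp he (fun y : Fin n → ℝ => ∏ i, f i (y i))

theorem V_int {V V' : ℝ → ℝ} (h : NV V V') (h4 : Integrable fun t => V t ^ 4 * Real.exp (-V t)) :
    (Integrable fun t => V t * Real.exp (-V t)) ∧
    (Integrable fun t => (V t - mV V) ^ 2 * Real.exp (-V t)) ∧
    ∫ t, (V t - mV V) * Real.exp (-V t) = 0 := by
  have hc := cont_V h
  have h0 : Integrable fun t => Real.exp (-V t) := h.nd.int0
  have h1 : Integrable fun t => V t * Real.exp (-V t) := by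
    refine (h4.add h0).mono' (by fun_prop) (Eventually.of_forall fun t => ?_)
    rw [Real.norm_eq_abs, abs_mul, abs_of_pos (Real.exp_pos _), Pi.add_apply]
    have : |V t| ≤ V t ^ 4 + 1 := by
      rcases le_total |V t| 1 with hh | hh
      · nlinarith [sq_nonneg (V t ^ 2)]
      · have e4 : V t ^ 4 = |V t| ^ 4 := by
          rw [← abs_pow, abs_of_nonneg (by positivity)]
        rw [e4]
        nlinarith [mul_self_nonneg (|V t|), pow_le_pow_right₀ hh (show 1 ≤ 4 by norm_num)]
    nlinarith [Real.exp_pos (-V t)]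
  refine ⟨h1, ?_, ?_⟩
  · refine ((h4.const_mul 2).add (h0.const_mul (2 + 2 * mV V ^ 2))).mono' (by fun_prop)
      (Eventually.of_forall fun t => ?_)
    rw [Real.norm_eq_abs, abs_mul, abs_of_pos (Real.exp_pos _), Pi.add_apply,
      abs_of_nonneg (by positivity)]
    have : (V t - mV V) ^ 2 ≤ 2 * V t ^ 4 + (2 + 2 * mV V ^ 2) := by
      nlinarith [sq_nonneg (V t + mV V), sq_nonneg (V t ^ 2 - 1), sq_nonneg (V t ^ 2)]
    nlinarith [Real.exp_pos (-V t)]
  · have e : (fun t => (V t - mV V) * Real.exp (-V t)) =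
        fun t => V t * Real.exp (-V t) - mV V * Real.exp (-V t) := by
      funext t; ring
    rw [e, integral_sub h1 (h0.const_mul _), integral_const_mul, h.nd.mass]
    simp [mV]

end PD

open PD

theorem plw (h : S_TWO) : S_PLW := by
  refine ⟨1 / 20, by norm_num, ?_⟩
  intro n V V' hV h4 E hE
  set f : Fin n → ℝ → ℝ := fun i t => Real.exp (-V i t) with hf
  set φ : Fin n → ℝ → ℝ := fun i t => V i t - mV (V i) with hφ
  have hSc : Continuous (SV V) := cont_SV hV
  obtain ⟨hI, -, -, hM⟩ := h n f φ (fun i => (hV i).nd.cont) (fun i s => (Real.exp_pos _).le)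
    (fun i => (hV i).nd.int0) (fun i => (hV i).nd.mass)
    (fun i => (cont_V (hV i)).sub continuous_const) (fun i => (V_int (hV i) (h4 i)).2.1)
  have hM := hM fun i => (V_int (hV i) (h4 i)).2.2
  obtain ⟨hJ, hJ1⟩ := int_prod f fun i => (hV i).nd.int0
  have hmass : ∀ i, ∫ s, f i s = 1 := fun i => (hV i).nd.mass
  simp only [hmass, Finset.prod_const_one] at hJ1
  set M : ℝ := ∑ i, mV (V i) with hMdef
  have e1 : ∀ x : Eu (Fin n), ∏ i, f i (x i) = Real.exp (-SV V x) := fun x => prod_exp V x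
  have e2 : ∀ x : Eu (Fin n), ∑ i, φ i (x i) = SV V x - M := by
    intro x
    simp only [hφ, Finset.sum_sub_distrib, SV, hMdef]
  simp only [e1, e2] at hI hM hJ hJ1
  have hM' : ∫ x : Eu (Fin n), (SV V x - M) ^ 2 * Real.exp (-SV V x) = ∑ i, rV (V i) := hM
  set s0 : ℝ := Real.sqrt (sg V) with hs0
  have hr0 : 0 ≤ ∑ i, rV (V i) := by
    rw [← hM']; exact integral_nonneg fun x => by positivity
  have hsg : 1 ≤ sg V := by unfold sg; linarith
  have hs1 : 1 ≤ s0 := by
    rw [hs0]; exact Real.one_le_sqrt.2 hsg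
  have hs2 : s0 ^ 2 = sg V := Real.sq_sqrt (by linarith)
  -- Chebyshev
  set A : Set (Eu (Fin n)) := {x | |SV V x - M| < 2 * s0} with hA
  have hAm : MeasurableSet A := by
    have : IsOpen A := isOpen_lt (by fun_prop) continuous_const
    exact this.measurableSet
  have hsplit := integral_add_compl hAm hJ
  rw [hJ1] at hsplit
  have hcheb : ∫ x in Aᶜ, Real.exp (-SV V x) ≤ 1 / 4 := by
    have h1 : ∫ x in Aᶜ, Real.exp (-SV V x) ≤
        ∫ x in Aᶜ, (1 / (4 * sg V)) * ((SV V x - M) ^ 2 * Real.exp (-SV V x)) := by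
      refine setIntegral_mono_on hJ.integrableOn (hI.const_mul _).integrableOn hAm.compl ?_
      intro x hx
      have hx' : 2 * s0 ≤ |SV V x - M| := by
        by_contra hc
        exact hx (lt_of_not_ge hc)
      have h3 : 4 * sg V ≤ (SV V x - M) ^ 2 := by
        rw [← sq_abs (SV V x - M), ← hs2]
        nlinarith
      rw [← mul_assoc]
      have h4 : 1 ≤ 1 / (4 * sg V) * (SV V x - M) ^ 2 := by
        rw [div_mul_eq_mul_div, one_mul, le_div_iff₀ (by linarith)]
        linarith
      nlinarith [Real.exp_pos (-SV V x)]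
    have h2 : ∫ x in Aᶜ, (1 / (4 * sg V)) * ((SV V x - M) ^ 2 * Real.exp (-SV V x)) ≤
        ∫ x, (1 / (4 * sg V)) * ((SV V x - M) ^ 2 * Real.exp (-SV V x)) := by
      refine setIntegral_le_integral (hI.const_mul _) (Eventually.of_forall fun x => ?_)
      have : 0 < sg V := by linarith
      positivity
    rw [show (∫ x : Eu (Fin n), (1 / (4 * sg V)) * ((SV V x - M) ^ 2 * Real.exp (-SV V x))) =
      1 / (4 * sg V) * ∑ i, rV (V i) by rw [integral_const_mul, hM']] at h2
    have h5 : 1 / (4 * sg V) * ∑ i, rV (V i) ≤ 1 / 4 := by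
      have : 0 < 4 * sg V := by linarith
      rw [div_mul_eq_mul_div, one_mul, div_le_iff₀ this]
      unfold sg
      linarith
    linarith
  have hA34 : 3 / 4 ≤ ∫ x in A, Real.exp (-SV V x) := by linarith
  -- slices
  have hvE : volume (KV V E) ≠ ⊤ := (hE.bdd.measure_lt_top).ne
  set P : ℝ := (volume (KV V E)).toReal * Real.exp (-E) with hP
  have hP0 : 0 ≤ P := by positivity
  have hPe : volume (KV V E) * ENNReal.ofReal (Real.exp (-E)) = ENNReal.ofReal P := by
    rw [hP, ENNReal.ofReal_mul ENNReal.toReal_nonneg, ENNReal.ofReal_toReal hvE]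
  have hslice : ∀ a : ℝ, ∫⁻ x in {x : Eu (Fin n) | a < SV V x ∧ SV V x ≤ a + 1},
      ENNReal.ofReal (Real.exp (-SV V x)) ≤ ENNReal.ofReal (Real.exp 1 * P) := by
    intro a
    have hms : MeasurableSet {x : Eu (Fin n) | a < SV V x ∧ SV V x ≤ a + 1} :=
      (measurableSet_lt measurable_const hSc.measurable).inter
        (measurableSet_le hSc.measurable measurable_const)
    calc ∫⁻ x in {x : Eu (Fin n) | a < SV V x ∧ SV V x ≤ a + 1},
        ENNReal.ofReal (Real.exp (-SV V x))
        ≤ ∫⁻ x in {x : Eu (Fin n) | a < SV V x ∧ SV V x ≤ a + 1}, ENNReal.ofReal (Real.exp (-a)) := by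
          refine setLIntegral_mono' hms fun x hx => ?_
          exact ENNReal.ofReal_le_ofReal (Real.exp_le_exp.2 (by linarith [hx.1]))
      _ = ENNReal.ofReal (Real.exp (-a)) *
          volume {x : Eu (Fin n) | a < SV V x ∧ SV V x ≤ a + 1} := by
          rw [setLIntegral_const]
      _ ≤ ENNReal.ofReal (Real.exp (-a)) * volume (KV V (a + 1)) := by
          gcongr
          intro x hx
          exact hx.2
      _ = ENNReal.ofReal (Real.exp 1) *
          (volume (KV V (a + 1)) * ENNReal.ofReal (Real.exp (-(a + 1)))) := by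
          rw [show (-a : ℝ) = 1 + -(a + 1) by ring, Real.exp_add,
            ENNReal.ofReal_mul (Real.exp_pos _).le]
          ring
      _ ≤ ENNReal.ofReal (Real.exp 1) * (volume (KV V E) * ENNReal.ofReal (Real.exp (-E))) := by
          exact mul_le_mul_right (hE.opt (a + 1)) _
      _ = ENNReal.ofReal (Real.exp 1 * P) := by
          rw [hPe, ENNReal.ofReal_mul (Real.exp_pos _).le]
  set N : ℕ := ⌈4 * s0⌉₊ with hN
  have hN1 : (N : ℝ) ≤ 5 * s0 := by
    have := (Nat.ceil_lt_add_one (show 0 ≤ 4 * s0 by linarith)).le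
    linarith
  have hN2 : 4 * s0 ≤ N := Nat.le_ceil _
  have hcov : A ⊆ ⋃ k ∈ Finset.range N,
      {x : Eu (Fin n) | (M - 2 * s0 + k) < SV V x ∧ SV V x ≤ (M - 2 * s0 + k) + 1} := by
    intro x hx
    have hx' : |SV V x - M| < 2 * s0 := hx
    rw [abs_lt] at hx'
    obtain ⟨hx1, hx2⟩ := hx'
    set y : ℝ := SV V x - (M - 2 * s0) with hy
    have hy0 : 0 < y := by rw [hy]; linarith
    have hyN : y < N := by rw [hy]; linarith
    -- k = ⌈y⌉ - 1
    have hc1 : 0 < ⌈y⌉₊ := Nat.ceil_pos.2 hy0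
    have hc2 : ⌈y⌉₊ ≤ N := Nat.ceil_le.2 hyN.le
    have hc3 : y ≤ ⌈y⌉₊ := Nat.le_ceil y
    have hc4 : (⌈y⌉₊ : ℝ) < y + 1 := Nat.ceil_lt_add_one hy0.le
    have hc5 : ((⌈y⌉₊ - 1 : ℕ) : ℝ) = (⌈y⌉₊ : ℝ) - 1 := by
      rw [Nat.cast_sub hc1]; simp
    refine mem_iUnion₂.2 ⟨⌈y⌉₊ - 1, Finset.mem_range.2 (by omega), ?_, ?_⟩
    · rw [hc5]
      have : SV V x = y + (M - 2 * s0) := by rw [hy]; ring
      rw [this]; linarith
    · rw [hc5]
      have : SV V x = y + (M - 2 * s0) := by rw [hy]; ring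
      rw [this]; linarith
  have hfin : ENNReal.ofReal (3 / 4) ≤ ENNReal.ofReal (N * (Real.exp 1 * P)) := by
    calc ENNReal.ofReal (3 / 4) ≤ ENNReal.ofReal (∫ x in A, Real.exp (-SV V x)) :=
          ENNReal.ofReal_le_ofReal hA34
      _ = ∫⁻ x in A, ENNReal.ofReal (Real.exp (-SV V x)) := by
          rw [ofReal_integral_eq_lintegral_ofReal hJ.integrableOn
            (Eventually.of_forall fun x => (Real.exp_pos _).le)]
      _ ≤ ∫⁻ x in ⋃ k ∈ Finset.range N,
          {x : Eu (Fin n) | (M - 2 * s0 + k) < SV V x ∧ SV V x ≤ (M - 2 * s0 + k) + 1},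
          ENNReal.ofReal (Real.exp (-SV V x)) := lintegral_mono_set hcov
      _ ≤ ∑ k ∈ Finset.range N, ∫⁻ x in
          {x : Eu (Fin n) | (M - 2 * s0 + k) < SV V x ∧ SV V x ≤ (M - 2 * s0 + k) + 1},
          ENNReal.ofReal (Real.exp (-SV V x)) := by
          have := measure_biUnion_finset_le
            (μ := volume.withDensity fun x : Eu (Fin n) => ENNReal.ofReal (Real.exp (-SV V x)))
            (Finset.range N) fun k : ℕ =>
            {x : Eu (Fin n) | (M - 2 * s0 + k) < SV V x ∧ SV V x ≤ (M - 2 * s0 + k) + 1}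
          have hms : ∀ k : ℕ, MeasurableSet {x : Eu (Fin n) |
              (M - 2 * s0 + k) < SV V x ∧ SV V x ≤ (M - 2 * s0 + k) + 1} := fun k =>
            (measurableSet_lt measurable_const hSc.measurable).inter
              (measurableSet_le hSc.measurable measurable_const)
          rw [withDensity_apply _ (Finset.measurableSet_biUnion _ fun k _ => hms k)] at this
          refine this.trans (le_of_eq ?_)
          refine Finset.sum_congr rfl fun k _ => ?_
          rw [withDensity_apply _ (hms k)]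
      _ ≤ ∑ k ∈ Finset.range N, ENNReal.ofReal (Real.exp 1 * P) :=
          Finset.sum_le_sum fun k _ => hslice _
      _ = ENNReal.ofReal (N * (Real.exp 1 * P)) := by
          rw [Finset.sum_const, Finset.card_range, nsmul_eq_mul,
            ENNReal.ofReal_mul (Nat.cast_nonneg _), ENNReal.ofReal_natCast]
  have hNP : 0 ≤ N * (Real.exp 1 * P) := by positivity
  have hfin2 : 3 / 4 ≤ N * (Real.exp 1 * P) := (ENNReal.ofReal_le_ofReal_iff hNP).1 hfin
  have he : Real.exp 1 < 2.7182818286 := Real.exp_one_lt_d9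
  have h6 : (N : ℝ) * (Real.exp 1 * P) ≤ 5 * s0 * (2.7182818286 * P) := by
    have : Real.exp 1 * P ≤ 2.7182818286 * P := mul_le_mul_of_nonneg_right he.le hP0
    have h0 : 0 ≤ Real.exp 1 * P := by positivity
    nlinarith
  have h7 : 0 ≤ s0 * P := by positivity
  change 1 / 20 ≤ s0 * P
  nlinarith

end Pool.Agent.R476.OR
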