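import Pool.Agent.R476.OR.E1c

/-!
# OR-E1: the two-dimensional marginal
-/

set_option autoImplicit false

namespace Pool.Agent.R476.OR.E1

open MeasureTheory Set Filter Topology
open scoped ENNReal InnerProductSpace
open Pool.Agent.W695.KH (Eu)
open Pool.Agent.Y506.FF (Pair)
open Pool.Agent.Y506.RG (ND OB EW VW ILK)
open Pool.Agent.R476.OR

variable {n : ℕ}

theorem sv_cont (V V' : Fin n → ℝ → ℝ) (hV : ∀ i, NV (V i) (V' i)) : Continuous (SV V) := by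
  unfold SV
  refine continuous_finsetSum _ fun i _ => ?_
  have := NV.cont (hV i)
  fun_prop

theorem v_conv {V V' : ℝ → ℝ} (h : NV V V') (x y t : ℝ) (h0 : 0 < t) (h1 : t < 1) :
    V ((1 - t) * x + t * y) ≤ (1 - t) * V x + t * V y := by
  have h2 := h.nd.lc x y t h0 h1
  simp only [← Real.exp_mul, ← Real.exp_add, Real.exp_le_exp] at h2
  linarith

theorem sv_conv (V V' : Fin n → ℝ → ℝ) (hV : ∀ i, NV (V i) (V' i)) (x y : Eu (Fin n)) (t : ℝ)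
    (h0 : 0 < t) (h1 : t < 1) :
    SV V ((1 - t) • x + t • y) ≤ (1 - t) * SV V x + t * SV V y := by
  unfold SV
  rw [Finset.mul_sum, Finset.mul_sum, ← Finset.sum_add_distrib]
  refine Finset.sum_le_sum fun i _ => ?_
  have := v_conv (hV i) (x i) (y i) t h0 h1
  simpa using this

/-- the joint weight -/
noncomputable def Kx (V : Fin n → ℝ → ℝ) (x : Eu (Fin n)) (s : ℝ) : ℝ≥0∞ :=
  if SV V x ≤ s then ENNReal.ofReal (Real.exp (-s)) else 0

theorem kx_meas (V V' : Fin n → ℝ → ℝ) (hV : ∀ i, NV (V i) (V' i)) :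
    Measurable fun p : Eu (Fin n) × ℝ => Kx V p.1 p.2 := by
  unfold Kx
  have hc := sv_cont V V' hV
  refine Measurable.ite (measurableSet_le (hc.measurable.comp measurable_fst) measurable_snd)
    (ENNReal.measurable_ofReal.comp (Real.measurable_exp.comp measurable_snd.neg))
    measurable_const

theorem kx_lc (V V' : Fin n → ℝ → ℝ) (hV : ∀ i, NV (V i) (V' i)) (x y : Eu (Fin n)) (s r t : ℝ)
    (h0 : 0 < t) (h1 : t < 1) :
    Kx V x s ^ (1 - t) * Kx V y r ^ t ≤ Kx V ((1 - t) • x + t • y) ((1 - t) * s + t * r) := by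
  have h2 : 0 < 1 - t := by linarith
  unfold Kx
  by_cases hx : SV V x ≤ s
  · by_cases hy : SV V y ≤ r
    · have h3 := sv_conv V V' hV x y t h0 h1
      have h4 : SV V ((1 - t) • x + t • y) ≤ (1 - t) * s + t * r := by nlinarith
      rw [if_pos hx, if_pos hy, if_pos h4, ENNReal.ofReal_rpow_of_nonneg (Real.exp_pos _).le h2.le,
        ENNReal.ofReal_rpow_of_nonneg (Real.exp_pos _).le h0.le, ← ENNReal.ofReal_mul (by positivity),
        ← Real.exp_mul, ← Real.exp_mul, ← Real.exp_add]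
      refine ENNReal.ofReal_le_ofReal (Real.exp_le_exp.2 (le_of_eq ?_))
      ring
    · rw [if_neg hy, ENNReal.zero_rpow_of_pos h0, mul_zero]
      exact zero_le
  · rw [if_neg hx, ENNReal.zero_rpow_of_pos h2, zero_mul]
    exact zero_le

/-- the density of `(⟪θ, x⟫, s)` -/
noncomputable def GG (V : Fin (n + 1) → ℝ → ℝ) (L : Eu (Fin n) →ₗᵢ[ℝ] Eu (Fin (n + 1)))
    (θ : Eu (Fin (n + 1))) (u s : ℝ) : ℝ≥0∞ := ∫⁻ y, Kx V (L y + u • θ) s

variable (V V' : Fin (n + 1) → ℝ → ℝ) (hV : ∀ i, NV (V i) (V' i))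
  (L : Eu (Fin n) →ₗᵢ[ℝ] Eu (Fin (n + 1))) (θ : Eu (Fin (n + 1)))

include hV

theorem gg_meas : Measurable fun p : ℝ × ℝ => GG V L θ p.1 p.2 := by
  unfold GG
  refine Measurable.lintegral_prod_left' (f := fun q : Eu (Fin n) × (ℝ × ℝ) =>
    Kx V (L q.1 + q.2.1 • θ) q.2.2) ?_
  have h1 : Continuous fun q : Eu (Fin n) × (ℝ × ℝ) => L q.1 + q.2.1 • θ :=
    (L.continuous.comp continuous_fst).add
      ((continuous_fst.comp continuous_snd).smul continuous_const)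
  exact (kx_meas V V' hV).comp (h1.measurable.prodMk (measurable_snd.comp measurable_snd))

theorem gg_lc (u v s r t : ℝ) (h0 : 0 < t) (h1 : t < 1) :
    GG V L θ u s ^ (1 - t) * GG V L θ v r ^ t ≤
      GG V L θ ((1 - t) * u + t * v) ((1 - t) * s + t * r) := by
  have hm : ∀ (u s : ℝ), Measurable fun y => Kx V (L y + u • θ) s := by
    intro u s
    have h1 : Continuous fun y : Eu (Fin n) => L y + u • θ := L.continuous.add continuous_const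
    exact (kx_meas V V' hV).comp (h1.measurable.prodMk measurable_const)
  refine Pool.Agent.H212R2.KLS.PL volume t h0 h1 _ _ _ (hm _ _) (hm _ _) (hm _ _) fun a b => ?_
  refine (kx_lc V V' hV _ _ s r t h0 h1).trans (le_of_eq ?_)
  congr 1
  rw [map_add, map_smul, map_smul]
  module

omit hV in
theorem spl (hθ : ‖θ‖ = 1) : ∃ L : Eu (Fin n) →ₗᵢ[ℝ] Eu (Fin (n + 1)),
    ∀ (φ : ℝ → ℝ≥0∞) (G : Eu (Fin (n + 1)) → ℝ≥0∞), Measurable φ → Measurable G →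
    ∫⁻ x, φ ⟪θ, x⟫_ℝ * G x = ∫⁻ u : ℝ, φ u * ∫⁻ y, G (L y + u • θ) := by
  let M : Eu (Fin 0) →ₗᵢ[ℝ] Eu (Fin (n + 1)) := ⟨0, fun x => by
    rw [Subsingleton.elim x 0]
    simp⟩
  have hP : Pair (LinearIsometry.id : Eu (Fin (n + 1)) →ₗᵢ[ℝ] Eu (Fin (n + 1))) M :=
    ⟨fun x z => by
      rw [Subsingleton.elim z 0, map_zero, inner_zero_right], by simp⟩
  obtain ⟨L', M', e, -, -, he, -, H⟩ := Pool.Agent.Y429.RG.spl2 (Fin (n + 1)) n 0 _ M hP θ hθ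
  refine ⟨L', fun φ G hφ hG => ?_⟩
  have h := H φ G hφ hG
  simp only [LinearIsometry.id_apply] at h he
  rw [h]
  simp only [map_smul, he]

omit hV in
theorem eu2 (F : Eu (Fin 2) → ℝ≥0∞) (hF : Measurable F) :
    ∫⁻ z, F z = ∫⁻ b : ℝ, ∫⁻ a : ℝ, F (WithLp.toLp 2 ![a, b]) := by
  have hto : Measurable fun w : Fin 2 → ℝ => F (WithLp.toLp 2 w) :=
    hF.comp (PiLp.volume_preserving_toLp (Fin 2)).measurable
  have hem : MeasurePreserving (MeasurableEquiv.finTwoArrow (α := ℝ)).symm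
      (volume : Measure (ℝ × ℝ)) volume := (volume_preserving_finTwoArrow ℝ).symm _
  rw [← (PiLp.volume_preserving_toLp (Fin 2)).lintegral_comp hF, ← hem.lintegral_comp hto,
    Measure.volume_eq_prod]
  have h0 : Measurable fun p : ℝ × ℝ => F (WithLp.toLp 2
      ((MeasurableEquiv.finTwoArrow (α := ℝ)).symm p)) := hto.comp hem.measurable
  rw [lintegral_prod_symm _ h0.aemeasurable]
  rfl

/-- the density in isotropic coordinates -/
noncomputable def gg (V : Fin (n + 1) → ℝ → ℝ) (L : Eu (Fin n) →ₗᵢ[ℝ] Eu (Fin (n + 1)))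
    (θ : Eu (Fin (n + 1))) (τ σ κ m : ℝ) (z : Eu (Fin 2)) : ℝ≥0∞ :=
  ENNReal.ofReal (σ * τ) * GG V L θ (τ * z 0 + κ * z 1) (σ * z 1 + m)

theorem g_meas (τ σ κ m : ℝ) : Measurable (gg V L θ τ σ κ m) := by
  have h1 : Continuous fun z : Eu (Fin 2) => ((τ * z 0 + κ * z 1, σ * z 1 + m) : ℝ × ℝ) := by
    fun_prop
  have h2 : Measurable fun z : Eu (Fin 2) => GG V L θ (τ * z 0 + κ * z 1) (σ * z 1 + m) :=
    Measurable.comp (g := fun p : ℝ × ℝ => GG V L θ p.1 p.2)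
      (f := fun z : Eu (Fin 2) => ((τ * z 0 + κ * z 1, σ * z 1 + m) : ℝ × ℝ))
      (gg_meas V V' hV L θ) h1.measurable
  exact h2.const_mul _

omit hV in
theorem pull (a A B : ℝ≥0∞) (t : ℝ) (h0 : 0 ≤ t) (h2 : 0 ≤ 1 - t) :
    (a * A) ^ (1 - t) * (a * B) ^ t = a * (A ^ (1 - t) * B ^ t) := by
  rw [ENNReal.mul_rpow_of_nonneg _ _ h2, ENNReal.mul_rpow_of_nonneg _ _ h0,
    mul_mul_mul_comm, ← ENNReal.rpow_add_of_nonneg _ _ h2 h0, sub_add_cancel,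
    ENNReal.rpow_one]

theorem g_lc (τ σ κ m : ℝ) (x y : Eu (Fin 2)) (t : ℝ) (h0 : 0 < t) (h1 : t < 1) :
    gg V L θ τ σ κ m x ^ (1 - t) * gg V L θ τ σ κ m y ^ t ≤
      gg V L θ τ σ κ m ((1 - t) • x + t • y) := by
  have h2 : 0 < 1 - t := by linarith
  have h3 := gg_lc V V' hV L θ (τ * x 0 + κ * x 1) (τ * y 0 + κ * y 1) (σ * x 1 + m)
    (σ * y 1 + m) t h0 h1
  have e1 : (1 - t) * (τ * x 0 + κ * x 1) + t * (τ * y 0 + κ * y 1) =
      τ * ((1 - t) • x + t • y : Eu (Fin 2)) 0 + κ * ((1 - t) • x + t • y : Eu (Fin 2)) 1 := by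
    simp only [PiLp.add_apply, PiLp.smul_apply, smul_eq_mul]
    ring
  have e2 : (1 - t) * (σ * x 1 + m) + t * (σ * y 1 + m) =
      σ * ((1 - t) • x + t • y : Eu (Fin 2)) 1 + m := by
    simp only [PiLp.add_apply, PiLp.smul_apply, smul_eq_mul]
    ring
  rw [e1, e2] at h3
  unfold gg
  refine (pull _ _ _ t h0.le h2.le).le.trans ?_
  exact mul_le_mul_right h3 _

theorem gen (hL : ∀ (φ : ℝ → ℝ≥0∞) (G : Eu (Fin (n + 1)) → ℝ≥0∞), Measurable φ → Measurable G →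
    ∫⁻ x, φ ⟪θ, x⟫_ℝ * G x = ∫⁻ u : ℝ, φ u * ∫⁻ y, G (L y + u • θ)) (τ σ κ m : ℝ) (hτ : 0 < τ)
    (hσ : 0 < σ) (Ψ : ℝ → ℝ → ℝ≥0∞) (hΨ : Measurable fun p : ℝ × ℝ => Ψ p.1 p.2) :
    ∫⁻ z : Eu (Fin 2), Ψ (τ * z 0 + κ * z 1) (σ * z 1 + m) * gg V L θ τ σ κ m z =
      ∫⁻ x : Eu (Fin (n + 1)), ∫⁻ s : ℝ, Ψ ⟪θ, x⟫_ℝ s * Kx V x s := by
  have hK := kx_meas V V' hV
  have hG := gg_meas V V' hV L θ
  have hθc : Continuous fun x : Eu (Fin (n + 1)) => ⟪θ, x⟫_ℝ := by fun_prop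
  have e1 : ∫⁻ x : Eu (Fin (n + 1)), ∫⁻ s : ℝ, Ψ ⟪θ, x⟫_ℝ s * Kx V x s =
      ∫⁻ s : ℝ, ∫⁻ x : Eu (Fin (n + 1)), Ψ ⟪θ, x⟫_ℝ s * Kx V x s := by
    refine lintegral_lintegral_swap ?_
    refine Measurable.aemeasurable ?_
    refine Measurable.mul ?_ hK
    exact hΨ.comp ((hθc.measurable.comp measurable_fst).prodMk measurable_snd)
  have e2 : ∀ s : ℝ, ∫⁻ x : Eu (Fin (n + 1)), Ψ ⟪θ, x⟫_ℝ s * Kx V x s =
      ∫⁻ u : ℝ, Ψ u s * GG V L θ u s := by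
    intro s
    exact hL (fun u => Ψ u s) (fun x => Kx V x s) (hΨ.comp (measurable_id.prodMk measurable_const))
      (hK.comp (measurable_id.prodMk measurable_const))
  have e3 : ∀ s : ℝ, ∀ c : ℝ, ∫⁻ u : ℝ, Ψ u s * GG V L θ u s =
      ENNReal.ofReal τ * ∫⁻ a : ℝ, Ψ (τ * a + c) s * GG V L θ (τ * a + c) s := by
    intro s c
    refine lin τ c hτ (fun u => Ψ u s * GG V L θ u s) ?_
    exact (hΨ.mul hG).comp (measurable_id.prodMk measurable_const)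
  have hM2 : Measurable fun s : ℝ => ∫⁻ u : ℝ, Ψ u s * GG V L θ u s :=
    Measurable.lintegral_prod_left' (f := fun p : ℝ × ℝ => Ψ p.1 p.2 * GG V L θ p.1 p.2)
      (hΨ.mul hG)
  rw [e1]
  simp only [e2]
  rw [lin σ m hσ _ hM2, eu2]
  · rw [← lintegral_const_mul' _ _ ENNReal.ofReal_ne_top]
    refine lintegral_congr fun b => ?_
    rw [e3 (σ * b + m) (κ * b), ← mul_assoc, ← ENNReal.ofReal_mul hσ.le,
      ← lintegral_const_mul' _ _ ENNReal.ofReal_ne_top]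
    refine lintegral_congr fun a => ?_
    simp only [gg, Matrix.cons_val_zero, Matrix.cons_val_one]
    rw [← mul_assoc, mul_comm (Ψ _ _) (ENNReal.ofReal _), mul_assoc]
  · have h1 : Continuous fun z : Eu (Fin 2) => ((τ * z 0 + κ * z 1, σ * z 1 + m) : ℝ × ℝ) := by
      fun_prop
    exact (hΨ.comp h1.measurable).mul (g_meas V V' hV L θ τ σ κ m)

/-- the fibre formula -/
theorem fibre (hL : ∀ (φ : ℝ → ℝ≥0∞) (G : Eu (Fin (n + 1)) → ℝ≥0∞), Measurable φ → Measurable G →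
    ∫⁻ x, φ ⟪θ, x⟫_ℝ * G x = ∫⁻ u : ℝ, φ u * ∫⁻ y, G (L y + u • θ)) (τ σ κ m : ℝ) (hτ : 0 < τ)
    (hσ : 0 < σ) (E : ℝ) (φ : ℝ → ℝ≥0∞) (hφ : Measurable φ) :
    ∫⁻ x in KV V E, φ ⟪θ, x⟫_ℝ = ENNReal.ofReal (Real.exp E / σ) *
      ∫⁻ z : ℝ, φ (τ * z + κ * ((E - m) / σ)) *
        gg V L θ τ σ κ m (WithLp.toLp 2 ![z, (E - m) / σ]) := by
  have hc := sv_cont V V' hV
  have hKm : MeasurableSet (KV V E) := measurableSet_le hc.measurable measurable_const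
  have hi : Measurable fun x : Eu (Fin (n + 1)) => (if SV V x ≤ E then (1 : ℝ≥0∞) else 0) :=
    Measurable.ite hKm measurable_const measurable_const
  have e1 : ∫⁻ x in KV V E, φ ⟪θ, x⟫_ℝ =
      ∫⁻ x, φ ⟪θ, x⟫_ℝ * (if SV V x ≤ E then (1 : ℝ≥0∞) else 0) := by
    rw [← lintegral_indicator hKm]
    refine lintegral_congr fun x => ?_
    by_cases hx : SV V x ≤ E
    · rw [if_pos hx, mul_one, indicator_of_mem]
      exact hx
    · rw [if_neg hx, mul_zero, indicator_of_notMem]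
      exact hx
  have e2 : ∀ u : ℝ, ∫⁻ y, (if SV V (L y + u • θ) ≤ E then (1 : ℝ≥0∞) else 0) =
      ENNReal.ofReal (Real.exp E) * GG V L θ u E := by
    intro u
    unfold GG
    rw [← lintegral_const_mul' _ _ ENNReal.ofReal_ne_top]
    refine lintegral_congr fun y => ?_
    unfold Kx
    split_ifs
    · rw [← ENNReal.ofReal_mul (Real.exp_pos _).le, ← Real.exp_add]
      simp
    · simp
  have hG := gg_meas V V' hV L θ
  rw [e1, hL φ _ hφ hi]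
  simp only [e2]
  have hGE : Measurable fun u : ℝ => GG V L θ u E := hG.comp (measurable_id.prodMk measurable_const)
  have hF : Measurable fun u : ℝ => φ u * (ENNReal.ofReal (Real.exp E) * GG V L θ u E) :=
    hφ.mul (hGE.const_mul _)
  rw [lin τ (κ * ((E - m) / σ)) hτ _ hF,
    ← lintegral_const_mul' _ _ ENNReal.ofReal_ne_top,
    ← lintegral_const_mul' _ _ ENNReal.ofReal_ne_top]
  refine lintegral_congr fun z => ?_
  have e3 : σ * ((E - m) / σ) + m = E := by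
    field_simp
    ring
  simp only [gg, Matrix.cons_val_zero, Matrix.cons_val_one]
  rw [e3]
  have e4 : ENNReal.ofReal τ * ENNReal.ofReal (Real.exp E) =
      ENNReal.ofReal (Real.exp E / σ) * ENNReal.ofReal (σ * τ) := by
    rw [← ENNReal.ofReal_mul hτ.le, ← ENNReal.ofReal_mul (by positivity)]
    congr 1
    field_simp
  calc ENNReal.ofReal τ * (φ (τ * z + κ * ((E - m) / σ)) * (ENNReal.ofReal (Real.exp E) *
        GG V L θ (τ * z + κ * ((E - m) / σ)) E)) =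
      (ENNReal.ofReal τ * ENNReal.ofReal (Real.exp E)) * (φ (τ * z + κ * ((E - m) / σ)) *
        GG V L θ (τ * z + κ * ((E - m) / σ)) E) := by ring
    _ = _ := by
      rw [e4]
      ring

/-- second moments in isotropic coordinates -/
theorem sqg (h2 : S_TWO) (h4 : ∀ i, Integrable fun t => V i t ^ 4 * Real.exp (-V i t))
    (hθ : ‖θ‖ = 1)
    (hL : ∀ (φ : ℝ → ℝ≥0∞) (G : Eu (Fin (n + 1)) → ℝ≥0∞), Measurable φ → Measurable G →
    ∫⁻ x, φ ⟪θ, x⟫_ℝ * G x = ∫⁻ u : ℝ, φ u * ∫⁻ y, G (L y + u • θ)) (τ σ : ℝ) (hτ : 0 < τ)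
    (hσ : 0 < σ) (hσ2 : σ ^ 2 = sg V) (hτ2 : τ ^ 2 = 1 - ⟪bb V, θ⟫_ℝ ^ 2 / sg V)
    (w : Eu (Fin 2)) (k : ℝ) :
    ∫⁻ z, ENNReal.ofReal ((⟪w, z⟫_ℝ + k) ^ 2) *
      gg V L θ τ σ (⟪bb V, θ⟫_ℝ / σ) (mm V) z = ENNReal.ofReal (‖w‖ ^ 2 + k ^ 2) := by
  set β : ℝ := ⟪bb V, θ⟫_ℝ with hβ
  have hτ0 := hτ.ne'
  have hσ0 := hσ.ne'
  set a : ℝ := w 0 / τ with ha
  set c : ℝ := w 1 / σ - w 0 * β / (σ ^ 2 * τ) with hc
  have e1 := gen V V' hV L θ hL τ σ (β / σ) (mm V) hτ hσ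
    (fun u s => ENNReal.ofReal ((a * u + c * (s - mm V) + k) ^ 2)) (by
      refine ENNReal.measurable_ofReal.comp ?_
      have : Continuous fun p : ℝ × ℝ => (a * p.1 + c * (p.2 - mm V) + k) ^ 2 := by fun_prop
      exact this.measurable)
  have e2 : ∀ z : Eu (Fin 2), a * (τ * z 0 + β / σ * z 1) + c * (σ * z 1 + mm V - mm V) + k =
      ⟪w, z⟫_ℝ + k := by
    intro z
    have : ⟪w, z⟫_ℝ = w 0 * z 0 + w 1 * z 1 := by
      rw [PiLp.inner_apply, Fin.sum_univ_two]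
      simp
      ring
    rw [this]
    simp only [ha, hc]
    field_simp
    ring
  simp only [e2] at e1
  rw [e1]
  have e3 : ∀ x : Eu (Fin (n + 1)), ∫⁻ s : ℝ,
      ENNReal.ofReal ((a * ⟪θ, x⟫_ℝ + c * (s - mm V) + k) ^ 2) * Kx V x s =
      ENNReal.ofReal (Real.exp (-SV V x) *
        ((a * ⟪θ, x⟫_ℝ + c * (SV V x - ∑ i, mV (V i)) + k) ^ 2 + c ^ 2)) := by
    intro x
    rw [← expo (a * ⟪θ, x⟫_ℝ + c * (SV V x - ∑ i, mV (V i)) + k) c (SV V x)]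
    refine lintegral_congr fun s => ?_
    unfold Kx mm
    congr 2
    ring
  simp only [e3]
  rw [squares h2 V V' hV h4 θ hθ a c k]
  congr 1
  have hn : ‖w‖ ^ 2 = w 0 ^ 2 + w 1 ^ 2 := by
    rw [EuclideanSpace.norm_sq_eq, Fin.sum_univ_two]
    simp only [Real.norm_eq_abs, sq_abs]
  rw [hn, ← hσ2, ← hβ]
  have h6 : β ^ 2 = σ ^ 2 * (1 - τ ^ 2) := by
    rw [hτ2, ← hσ2]
    field_simp
    ring
  simp only [ha, hc]
  field_simp
  have : w 0 ^ 2 * β ^ 2 = w 0 ^ 2 * (σ ^ 2 * (1 - τ ^ 2)) := by rw [h6]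
  nlinarith [this]

end Pool.Agent.R476.OR.E1

namespace Pool.Agent.R476.OR

open MeasureTheory Set Filter Topology
open scoped ENNReal InnerProductSpace
open Pool.Agent.W695.KH (Eu)
open Pool.Agent.Y506.RG (ND OB EW VW ILK)

/-- **OR-E1** -/
theorem gtw (h2 : S_TWO) (h4 : S_M4R) : S_GTW := by
  obtain ⟨C, hC1, hC⟩ := h4
  refine ⟨C, hC1, fun n V V' hV hi θ hθ => ?_⟩
  have hsgpos : 0 < sg V := by
    unfold sg
    have : 0 ≤ ∑ i, rV (V i) := Finset.sum_nonneg fun i _ => by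
      unfold rV
      exact integral_nonneg fun t => by positivity
    linarith
  have hβ : ⟪bb V, θ⟫_ℝ ^ 2 < sg V := by
    have h5 := E1.squares h2 V V' hV hi θ hθ (-⟪bb V, θ⟫_ℝ) 1 0
    have h6 : ENNReal.ofReal ((1 : ℝ) ^ 2) ≤ ENNReal.ofReal ((-⟪bb V, θ⟫_ℝ) ^ 2 +
        2 * (-⟪bb V, θ⟫_ℝ) * 1 * ⟪bb V, θ⟫_ℝ + 1 ^ 2 * sg V + 0 ^ 2) := by
      rw [← h5]
      have h7 := E1.squares h2 V V' hV hi θ hθ 0 0 1
      simp only [zero_mul, mul_zero, zero_add, ne_eq, OfNat.ofNat_ne_zero, not_false_eq_true,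
        zero_pow, add_zero] at h7
      rw [← h7]
      refine lintegral_mono fun x => ENNReal.ofReal_le_ofReal ?_
      have := Real.exp_pos (-SV V x)
      nlinarith [sq_nonneg (-⟪bb V, θ⟫_ℝ * ⟪θ, x⟫_ℝ + 1 * (SV V x - ∑ i, mV (V i)) + 0)]
    rw [one_pow, ENNReal.ofReal_one, ENNReal.one_le_ofReal] at h6
    nlinarith
  refine ⟨hβ, ?_⟩
  set σ : ℝ := Real.sqrt (sg V) with hσ
  have hσpos : 0 < σ := Real.sqrt_pos.2 hsgpos
  have hσ2 : σ ^ 2 = sg V := Real.sq_sqrt hsgpos.le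
  have hr : 0 < 1 - ⟪bb V, θ⟫_ℝ ^ 2 / sg V := by
    rw [sub_pos, div_lt_one hsgpos]
    exact hβ
  have hτpos : 0 < tau V θ := Real.sqrt_pos.2 hr
  have hτ2 : tau V θ ^ 2 = 1 - ⟪bb V, θ⟫_ℝ ^ 2 / sg V := Real.sq_sqrt hr.le
  obtain ⟨L, hL⟩ := E1.spl θ hθ
  refine ⟨E1.gg V L θ (tau V θ) σ (⟪bb V, θ⟫_ℝ / σ) (mm V), ?_, ?_⟩
  · exact E1.ilk_of _ (E1.g_meas V V' hV L θ _ _ _ _) (E1.g_lc V V' hV L θ _ _ _ _)
      (E1.sqg V V' hV L θ h2 hi hθ hL (tau V θ) σ hτpos hσpos hσ2 hτ2) C (hC 2)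
  · intro E φ hφ
    exact E1.fibre V V' hV L θ hL (tau V θ) σ (⟪bb V, θ⟫_ℝ / σ) (mm V) hτpos hσpos E φ hφ

end Pool.Agent.R476.OR
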