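import Pool.Agent.R476.OR.Stm2
import Pool.Agent.Y429.RG.SPL2
import Pool.Agent.H212R2.KLS.T1

/-!
# OR-E1, part a: one-dimensional lemmas, moments of sums
-/

set_option autoImplicit false

namespace Pool.Agent.R476.OR.E1

open MeasureTheory Set Filter Topology
open scoped ENNReal InnerProductSpace
open Pool.Agent.W695.KH (Eu)
open Pool.Agent.Y506.RG (ND OB EW VW ILK)
open Pool.Agent.R476.OR

/-- linear change of variables on the line -/
theorem lin (a b : ℝ) (ha : 0 < a) (F : ℝ → ℝ≥0∞) (hF : Measurable F) :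
    ∫⁻ u, F u = ENNReal.ofReal a * ∫⁻ z, F (a * z + b) := by
  have h1 : ∫⁻ u, F u = ∫⁻ u, F (u + b) := (lintegral_add_right_eq_self F b).symm
  rw [h1]
  have h2 : (volume : Measure ℝ) = ENNReal.ofReal |a| • Measure.map (a * ·) volume :=
    (Real.smul_map_volume_mul_left ha.ne').symm
  have hm : Measurable fun u : ℝ => F (u + b) := hF.comp (measurable_id.add_const b)
  calc ∫⁻ u, F (u + b) = ∫⁻ u, F (u + b) ∂(ENNReal.ofReal |a| • Measure.map (a * ·) volume) := by
        rw [← h2]
    _ = ENNReal.ofReal a * ∫⁻ z, F (a * z + b) := by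
        rw [lintegral_smul_measure, lintegral_map hm (measurable_const_mul a), abs_of_pos ha]
        rfl

/-- the exponential variable -/
theorem expo (A c S : ℝ) :
    ∫⁻ s, ENNReal.ofReal ((A + c * (s - S - 1)) ^ 2) *
      (if S ≤ s then ENNReal.ofReal (Real.exp (-s)) else 0) =
    ENNReal.ofReal (Real.exp (-S) * (A ^ 2 + c ^ 2)) := by
  set q : ℝ → ℝ := fun s => (A + c * (s - S - 1)) ^ 2 + 2 * c * (A + c * (s - S - 1)) + 2 * c ^ 2
    with hq
  set F : ℝ → ℝ := fun s => -(Real.exp (-s) * q s) with hF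
  set F' : ℝ → ℝ := fun s => (A + c * (s - S - 1)) ^ 2 * Real.exp (-s) with hF'
  have hd : ∀ s, HasDerivAt F (F' s) s := by
    intro s
    have e1 : HasDerivAt (fun s : ℝ => A + c * (s - S - 1)) c s := by
      have := ((((hasDerivAt_id s).sub_const S).sub_const 1).const_mul c).const_add A
      simpa using this
    have e2 : HasDerivAt q (2 * (A + c * (s - S - 1)) * c + 2 * c * c) s := by
      have := ((e1.pow 2).add (e1.const_mul (2 * c))).add_const (2 * c ^ 2)
      refine this.congr_deriv ?_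
      norm_num
    have e3 : HasDerivAt (fun s : ℝ => Real.exp (-s)) (-Real.exp (-s)) s := by
      have := (hasDerivAt_neg s).exp
      simpa using this
    refine (e3.mul e2).neg.congr_deriv ?_
    show -(-Real.exp (-s) * q s + Real.exp (-s) * (2 * (A + c * (s - S - 1)) * c + 2 * c * c)) =
      F' s
    simp only [hF', hq]
    ring
  have ht : Tendsto F atTop (𝓝 0) := by
    have t0 := Real.tendsto_pow_mul_exp_neg_atTop_nhds_zero 0
    have t1 := Real.tendsto_pow_mul_exp_neg_atTop_nhds_zero 1
    have t2 := Real.tendsto_pow_mul_exp_neg_atTop_nhds_zero 2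
    have t3 := (((t2.const_mul (c ^ 2)).add
      (t1.const_mul (2 * c * (A - c * (S + 1)) + 2 * c ^ 2))).add
      (t0.const_mul ((A - c * (S + 1)) ^ 2 + 2 * c * (A - c * (S + 1)) + 2 * c ^ 2))).neg
    simp only [mul_zero, add_zero, neg_zero] at t3
    refine t3.congr fun s => ?_
    simp only [hF, hq]
    ring
  have hp : ∀ s ∈ Ioi S, 0 ≤ F' s := fun s _ => by simp only [hF']; positivity
  have h1 := integral_Ioi_of_hasDerivAt_of_nonneg' (a := S) (fun s _ => hd s) hp ht
  have h2 := integrableOn_Ioi_deriv_of_nonneg' (a := S) (fun s _ => hd s) hp ht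
  have h3 : ∫⁻ s, ENNReal.ofReal ((A + c * (s - S - 1)) ^ 2) *
      (if S ≤ s then ENNReal.ofReal (Real.exp (-s)) else 0) =
      ∫⁻ s in Ioi S, ENNReal.ofReal (F' s) := by
    rw [← lintegral_indicator measurableSet_Ioi]
    refine lintegral_congr_ae ?_
    have h4 : ∀ᵐ s : ℝ, s ≠ S := by
      rw [ae_iff]
      simp
    filter_upwards [h4] with s hs
    by_cases h : S ≤ s
    · have h' : s ∈ Ioi S := lt_of_le_of_ne h (Ne.symm hs)
      rw [if_pos h, indicator_of_mem h', ← ENNReal.ofReal_mul (by positivity)]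
    · have h' : s ∉ Ioi S := fun h5 => h (le_of_lt h5)
      rw [if_neg h, indicator_of_notMem h', mul_zero]
  rw [h3, ← ofReal_integral_eq_lintegral_ofReal h2 ((ae_restrict_iff' measurableSet_Ioi).2
    (Eventually.of_forall hp)), h1]
  congr 1
  simp only [hF, hq]
  ring

end Pool.Agent.R476.OR.E1
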