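import Pool.Agent.R476.OR.E1a

/-!
# OR-E1, part b: moments of sums of functions of single coordinates
-/

set_option autoImplicit false

namespace Pool.Agent.R476.OR.E1

open MeasureTheory Set Filter Topology
open scoped ENNReal InnerProductSpace
open Pool.Agent.W695.KH (Eu)
open Pool.Agent.Y506.RG (ND OB EW VW ILK)
open Pool.Agent.R476.OR

/-- integrable functions in one dimension -/
structure I1 (V : ℝ → ℝ) : Prop where
  f : Integrable fun t => Real.exp (-V t)
  t : Integrable fun t => t * Real.exp (-V t)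
  t2 : Integrable fun t => t ^ 2 * Real.exp (-V t)
  v : Integrable fun t => V t * Real.exp (-V t)
  v2 : Integrable fun t => V t ^ 2 * Real.exp (-V t)
  tv : Integrable fun t => t * V t * Real.exp (-V t)

theorem NV.cont {V V' : ℝ → ℝ} (h : NV V V') : Continuous V :=
  continuous_iff_continuousAt.2 fun t => (h.cv.der t).continuousAt

theorem i1 {V V' : ℝ → ℝ} (h : NV V V') (h4 : Integrable fun t => V t ^ 4 * Real.exp (-V t)) :
    I1 V := by
  have hc : Continuous V := NV.cont h
  have e0 : Integrable fun t => Real.exp (-V t) := h.nd.int0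
  have e2 : Integrable fun t => t ^ 2 * Real.exp (-V t) := h.nd.int2
  have e4 : Integrable fun t => (1 + V t ^ 4) * Real.exp (-V t) := by
    refine (e0.add h4).congr (Eventually.of_forall fun t => ?_)
    simp only [Pi.add_apply]
    ring
  have ev2 : Integrable fun t => V t ^ 2 * Real.exp (-V t) := by
    refine e4.mono' (by fun_prop) (Eventually.of_forall fun t => ?_)
    rw [Real.norm_eq_abs, abs_of_nonneg (by positivity)]
    refine mul_le_mul_of_nonneg_right ?_ (Real.exp_pos _).le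
    nlinarith [sq_nonneg (V t ^ 2 - 1)]
  refine ⟨e0, ?_, e2, ?_, ev2, ?_⟩
  · refine (e0.add e2).mono' (by fun_prop) (Eventually.of_forall fun t => ?_)
    rw [Real.norm_eq_abs, abs_mul, Real.abs_exp]
    simp only [Pi.add_apply]
    have := Real.exp_pos (-V t)
    nlinarith [sq_abs t, sq_nonneg (|t| - 1), abs_nonneg t]
  · refine (e0.add ev2).mono' (by fun_prop) (Eventually.of_forall fun t => ?_)
    rw [Real.norm_eq_abs, abs_mul, Real.abs_exp]
    simp only [Pi.add_apply]
    have := Real.exp_pos (-V t)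
    nlinarith [sq_abs (V t), sq_nonneg (|V t| - 1), abs_nonneg (V t)]
  · refine (e2.add ev2).mono' (by fun_prop) (Eventually.of_forall fun t => ?_)
    rw [Real.norm_eq_abs, abs_mul, Real.abs_exp, abs_mul]
    simp only [Pi.add_apply]
    have := Real.exp_pos (-V t)
    nlinarith [sq_abs (V t), sq_abs t, sq_nonneg (|V t| - |t|), abs_nonneg (V t), abs_nonneg t]

theorem quad {V V' : ℝ → ℝ} (h : NV V V') (h4 : Integrable fun t => V t ^ 4 * Real.exp (-V t))
    (a c : ℝ) :
    (Integrable fun t => (a * t + c * (V t - mV V)) ^ 2 * Real.exp (-V t)) ∧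
    (∫ t, (a * t + c * (V t - mV V)) ^ 2 * Real.exp (-V t) =
      a ^ 2 + 2 * a * c * bV V + c ^ 2 * rV V) ∧
    ∫ t, (a * t + c * (V t - mV V)) * Real.exp (-V t) = 0 := by
  have I := i1 h h4
  have g1 : Integrable fun t => a ^ 2 * (t ^ 2 * Real.exp (-V t)) := I.t2.const_mul _
  have g2 : Integrable fun t => 2 * a * c * (t * V t * Real.exp (-V t)) := I.tv.const_mul _
  have g3 : Integrable fun t => 2 * a * c * mV V * (t * Real.exp (-V t)) := I.t.const_mul _
  have g40 : Integrable fun t => (V t - mV V) ^ 2 * Real.exp (-V t) := by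
    refine ((I.v2.sub (I.v.const_mul (2 * mV V))).add (I.f.const_mul (mV V ^ 2))).congr
      (Eventually.of_forall fun t => ?_)
    simp only [Pi.add_apply, Pi.sub_apply]
    ring
  have g4 : Integrable fun t => c ^ 2 * ((V t - mV V) ^ 2 * Real.exp (-V t)) := g40.const_mul _
  have key : ∀ t, (a * t + c * (V t - mV V)) ^ 2 * Real.exp (-V t) =
      a ^ 2 * (t ^ 2 * Real.exp (-V t)) + 2 * a * c * (t * V t * Real.exp (-V t)) -
      2 * a * c * mV V * (t * Real.exp (-V t)) + c ^ 2 * ((V t - mV V) ^ 2 * Real.exp (-V t)) := by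
    intro t
    ring
  have m1 : ∫ t, t * Real.exp (-V t) = 0 := h.nd.mean
  have m2 : ∫ t, t ^ 2 * Real.exp (-V t) = 1 := h.nd.var
  have m0 : ∫ t, Real.exp (-V t) = 1 := h.nd.mass
  refine ⟨?_, ?_, ?_⟩
  · refine (((g1.add g2).sub g3).add g4).congr (Eventually.of_forall fun t => ?_)
    simp only [Pi.add_apply, Pi.sub_apply]
    rw [key]
  · simp only [key]
    have g12 : Integrable fun t => a ^ 2 * (t ^ 2 * Real.exp (-V t)) +
        2 * a * c * (t * V t * Real.exp (-V t)) := g1.add g2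
    have g123 : Integrable fun t => a ^ 2 * (t ^ 2 * Real.exp (-V t)) +
        2 * a * c * (t * V t * Real.exp (-V t)) -
        2 * a * c * mV V * (t * Real.exp (-V t)) := g12.sub g3
    rw [integral_add g123 g4, integral_sub g12 g3, integral_add g1 g2,
      integral_const_mul, integral_const_mul, integral_const_mul, integral_const_mul, m1, m2]
    unfold bV rV
    ring
  · have k2 : ∀ t, (a * t + c * (V t - mV V)) * Real.exp (-V t) =
        a * (t * Real.exp (-V t)) + c * (V t * Real.exp (-V t)) -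
        c * mV V * Real.exp (-V t) := by
      intro t
      ring
    simp only [k2]
    have g12 : Integrable fun t => a * (t * Real.exp (-V t)) + c * (V t * Real.exp (-V t)) :=
      (I.t.const_mul a).add (I.v.const_mul c)
    rw [integral_sub g12 (I.f.const_mul _),
      integral_add (I.t.const_mul a) (I.v.const_mul c), integral_const_mul, integral_const_mul,
      integral_const_mul, m1, m0]
    unfold mV
    ring

variable {n : ℕ}

theorem prod_exp (V : Fin n → ℝ → ℝ) (x : Eu (Fin n)) :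
    ∏ i, Real.exp (-V i (x i)) = Real.exp (-SV V x) := by
  rw [← Real.exp_sum, Finset.sum_neg_distrib]
  rfl

/-- moments of sums -/
theorem sums (h2 : S_TWO) (V V' : Fin (n + 1) → ℝ → ℝ) (hV : ∀ i, NV (V i) (V' i))
    (φ : Fin (n + 1) → ℝ → ℝ) (hφ : ∀ i, Continuous (φ i))
    (hi : ∀ i, Integrable fun s => φ i s ^ 2 * Real.exp (-V i s))
    (hz : ∀ i, ∫ s, φ i s * Real.exp (-V i s) = 0) :
    Integrable (fun x : Eu (Fin (n + 1)) => Real.exp (-SV V x)) ∧
    (∫ x : Eu (Fin (n + 1)), Real.exp (-SV V x) = 1) ∧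
    Integrable (fun x : Eu (Fin (n + 1)) => (∑ i, φ i (x i)) * Real.exp (-SV V x)) ∧
    (∫ x : Eu (Fin (n + 1)), (∑ i, φ i (x i)) * Real.exp (-SV V x) = 0) ∧
    Integrable (fun x : Eu (Fin (n + 1)) => (∑ i, φ i (x i)) ^ 2 * Real.exp (-SV V x)) ∧
    (∫ x : Eu (Fin (n + 1)), (∑ i, φ i (x i)) ^ 2 * Real.exp (-SV V x) =
      ∑ i, ∫ s, φ i s ^ 2 * Real.exp (-V i s)) := by
  have hc : ∀ i, Continuous fun s => Real.exp (-V i s) := fun i => (NV.cont (hV i)).neg.rexp
  have i0 : ∀ i, Integrable fun s => Real.exp (-V i s) := fun i => (hV i).nd.int0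
  have m0 : ∀ i, ∫ s, Real.exp (-V i s) = 1 := fun i => (hV i).nd.mass
  have hn : ∀ i, ∀ s, 0 ≤ Real.exp (-V i s) := fun i s => (Real.exp_pos _).le
  have iφ : ∀ i, Integrable fun s => φ i s * Real.exp (-V i s) := by
    intro i
    have h3 := hφ i
    have h4 := NV.cont (hV i)
    refine ((i0 i).add (hi i)).mono' (by fun_prop) (Eventually.of_forall fun t => ?_)
    rw [Real.norm_eq_abs, abs_mul, Real.abs_exp]
    simp only [Pi.add_apply]
    have := Real.exp_pos (-V i t)
    nlinarith [sq_abs (φ i t), sq_nonneg (|φ i t| - 1), abs_nonneg (φ i t)]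
  have iφ1 : ∀ i, Integrable fun s => (φ i s + 1) ^ 2 * Real.exp (-V i s) := by
    intro i
    refine (((hi i).add ((iφ i).const_mul 2)).add (i0 i)).congr (Eventually.of_forall fun t => ?_)
    simp only [Pi.add_apply]
    ring
  obtain ⟨a1, a2, a3, a4⟩ := h2 (n + 1) (fun i s => Real.exp (-V i s)) φ hc hn i0 m0 hφ hi
  obtain ⟨b1, b2, b3, b4⟩ := h2 (n + 1) (fun i s => Real.exp (-V i s)) (fun i s => φ i s + 1)
    hc hn i0 m0 (fun i => (hφ i).add continuous_const) iφ1
  obtain ⟨c1, c2, c3, c4⟩ := h2 (n + 1) (fun i s => Real.exp (-V i s)) (fun i s => 1)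
    hc hn i0 m0 (fun i => continuous_const) (fun i => by simpa using i0 i)
  have a4' := a4 hz
  simp only [prod_exp] at a1 a2 a3 a4' b1 b2 b3 c1 c2 c3
  have hn1 : (0 : ℝ) < (n : ℝ) + 1 := by positivity
  have r0 : Integrable (fun x : Eu (Fin (n + 1)) => Real.exp (-SV V x)) := by
    refine (c2.const_mul (1 / ((n : ℝ) + 1))).congr (Eventually.of_forall fun x => ?_)
    simp
    field_simp
  have r1 : ∫ x : Eu (Fin (n + 1)), Real.exp (-SV V x) = 1 := by
    simp only [one_pow, Finset.sum_const, Finset.card_univ, Fintype.card_fin, nsmul_eq_mul,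
      mul_one, one_mul, Nat.cast_add, Nat.cast_one, m0] at c3
    rw [integral_const_mul] at c3
    have : ((n : ℝ) + 1) * ((∫ x : Eu (Fin (n + 1)), Real.exp (-SV V x)) - 1) = 0 := by
      linarith
    have h5 := (mul_eq_zero.1 this).resolve_left hn1.ne'
    linarith
  have key : ∀ x : Eu (Fin (n + 1)), (∑ i, φ i (x i)) * Real.exp (-SV V x) =
      1 / 2 * ((∑ i, (φ i (x i) + 1) ^ 2) * Real.exp (-SV V x) -
        (∑ i, φ i (x i) ^ 2) * Real.exp (-SV V x) -
        (∑ i : Fin (n + 1), (1 : ℝ) ^ 2) * Real.exp (-SV V x)) := by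
    intro x
    have : ∑ i, (φ i (x i) + 1) ^ 2 = ∑ i, φ i (x i) ^ 2 + 2 * ∑ i, φ i (x i) +
        ∑ i : Fin (n + 1), (1 : ℝ) ^ 2 := by
      rw [Finset.mul_sum, ← Finset.sum_add_distrib, ← Finset.sum_add_distrib]
      refine Finset.sum_congr rfl fun i _ => ?_
      ring
    rw [this]
    ring
  have r2 : Integrable (fun x : Eu (Fin (n + 1)) => (∑ i, φ i (x i)) * Real.exp (-SV V x)) := by
    simp only [key]
    exact ((b2.sub a2).sub c2).const_mul _
  have r3 : ∫ x : Eu (Fin (n + 1)), (∑ i, φ i (x i)) * Real.exp (-SV V x) = 0 := by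
    simp only [key]
    have b12 : Integrable fun x : Eu (Fin (n + 1)) =>
        (∑ i, (φ i (x i) + 1) ^ 2) * Real.exp (-SV V x) -
        (∑ i, φ i (x i) ^ 2) * Real.exp (-SV V x) := b2.sub a2
    rw [integral_const_mul, integral_sub b12 c2, integral_sub b2 a2, a3, b3, c3]
    have h6 : ∀ i, ∫ s, (φ i s + 1) ^ 2 * Real.exp (-V i s) =
        (∫ s, φ i s ^ 2 * Real.exp (-V i s)) + ∫ s, (1 : ℝ) ^ 2 * Real.exp (-V i s) := by
      intro i
      have h7 : ∀ s, (φ i s + 1) ^ 2 * Real.exp (-V i s) = φ i s ^ 2 * Real.exp (-V i s) +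
          2 * (φ i s * Real.exp (-V i s)) + 1 ^ 2 * Real.exp (-V i s) := by
        intro s
        ring
      simp only [h7]
      have k1 : Integrable fun s => φ i s ^ 2 * Real.exp (-V i s) +
          2 * (φ i s * Real.exp (-V i s)) := (hi i).add ((iφ i).const_mul 2)
      rw [integral_add k1 (by simpa using i0 i),
        integral_add (hi i) ((iφ i).const_mul 2), integral_const_mul, hz i]
      ring
    simp only [h6, Finset.sum_add_distrib]
    ring
  exact ⟨r0, r1, r2, r3, a1, a4'⟩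

/-- the quadratic form -/
theorem squares (h2 : S_TWO) (V V' : Fin (n + 1) → ℝ → ℝ) (hV : ∀ i, NV (V i) (V' i))
    (h4 : ∀ i, Integrable fun t => V i t ^ 4 * Real.exp (-V i t))
    (θ : Eu (Fin (n + 1))) (hθ : ‖θ‖ = 1) (a c k : ℝ) :
    ∫⁻ x : Eu (Fin (n + 1)), ENNReal.ofReal (Real.exp (-SV V x) *
      ((a * ⟪θ, x⟫_ℝ + c * (SV V x - ∑ i, mV (V i)) + k) ^ 2 + c ^ 2)) =
    ENNReal.ofReal (a ^ 2 + 2 * a * c * ⟪bb V, θ⟫_ℝ + c ^ 2 * sg V + k ^ 2) := by
  have hq := fun i => quad (hV i) (h4 i) (a * θ i) c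
  obtain ⟨r0, r1, r2, r3, r4, r5⟩ := sums h2 V V' hV
    (fun i t => a * θ i * t + c * (V i t - mV (V i)))
    (fun i => by
      have := NV.cont (hV i)
      fun_prop) (fun i => (hq i).1) (fun i => (hq i).2.2)
  have hsum : ∀ x : Eu (Fin (n + 1)), ∑ i, (a * θ i * x i + c * (V i (x i) - mV (V i))) =
      a * ⟪θ, x⟫_ℝ + c * (SV V x - ∑ i, mV (V i)) := by
    intro x
    rw [Finset.sum_add_distrib, ← Finset.mul_sum (Finset.univ) _ c, Finset.sum_sub_distrib]
    congr 1
    rw [PiLp.inner_apply, Finset.mul_sum]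
    refine Finset.sum_congr rfl fun i _ => ?_
    simp
    ring
  simp only [hsum] at r2 r3 r4 r5
  have key : ∀ x : Eu (Fin (n + 1)), Real.exp (-SV V x) *
      ((a * ⟪θ, x⟫_ℝ + c * (SV V x - ∑ i, mV (V i)) + k) ^ 2 + c ^ 2) =
      (a * ⟪θ, x⟫_ℝ + c * (SV V x - ∑ i, mV (V i))) ^ 2 * Real.exp (-SV V x) +
      2 * k * ((a * ⟪θ, x⟫_ℝ + c * (SV V x - ∑ i, mV (V i))) * Real.exp (-SV V x)) +
      (k ^ 2 + c ^ 2) * Real.exp (-SV V x) := by
    intro x
    ring
  have i2 : Integrable fun x : Eu (Fin (n + 1)) =>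
      2 * k * ((a * ⟪θ, x⟫_ℝ + c * (SV V x - ∑ i, mV (V i))) * Real.exp (-SV V x)) :=
    r2.const_mul _
  have i3 : Integrable fun x : Eu (Fin (n + 1)) => (k ^ 2 + c ^ 2) * Real.exp (-SV V x) :=
    r0.const_mul _
  rw [← ofReal_integral_eq_lintegral_ofReal]
  · congr 1
    simp only [key]
    have i42 : Integrable fun x : Eu (Fin (n + 1)) =>
        (a * ⟪θ, x⟫_ℝ + c * (SV V x - ∑ i, mV (V i))) ^ 2 * Real.exp (-SV V x) +
        2 * k * ((a * ⟪θ, x⟫_ℝ + c * (SV V x - ∑ i, mV (V i))) * Real.exp (-SV V x)) := r4.add i2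
    rw [integral_add i42 i3, integral_add r4 i2, integral_const_mul, integral_const_mul,
      r1, r3, r5]
    have h5 : ∀ i, ∫ s, (a * θ i * s + c * (V i s - mV (V i))) ^ 2 * Real.exp (-V i s) =
        a ^ 2 * θ i ^ 2 + 2 * a * c * (θ i * bV (V i)) + c ^ 2 * rV (V i) := by
      intro i
      rw [(hq i).2.1]
      ring
    simp only [h5]
    rw [Finset.sum_add_distrib, Finset.sum_add_distrib, ← Finset.mul_sum, ← Finset.mul_sum,
      ← Finset.mul_sum]
    have h6 : ∑ i, θ i ^ 2 = 1 := by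
      have := EuclideanSpace.norm_sq_eq θ
      rw [hθ] at this
      simp only [Real.norm_eq_abs, sq_abs] at this
      linarith
    have h7 : ∑ i, θ i * bV (V i) = ⟪bb V, θ⟫_ℝ := by
      rw [PiLp.inner_apply]
      refine Finset.sum_congr rfl fun i _ => ?_
      simp [bb]
    rw [h6, h7]
    unfold sg
    ring
  · refine ((r4.add i2).add i3).congr (Eventually.of_forall fun x => ?_)
    simp only [Pi.add_apply]
    rw [key]
  · exact Eventually.of_forall fun x => by
      simp only [Pi.zero_apply]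
      positivity

end Pool.Agent.R476.OR.E1
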