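import Pool.Agent.R476.OR.E1b

/-!
# OR-E1, part c: two-dimensional weights with given second moments are `ILK`
-/

set_option autoImplicit false

namespace Pool.Agent.R476.OR.E1

open MeasureTheory Set Filter Topology
open scoped ENNReal InnerProductSpace
open Pool.Agent.W695.KH (Eu)
open Pool.Agent.Y506.RG (ND OB EW VW ILK)
open Pool.Agent.R476.OR

section

variable (g : Eu (Fin 2) → ℝ≥0∞) (hm : Measurable g)
  (hlc : ∀ x y, ∀ t : ℝ, 0 < t → t < 1 → g x ^ (1 - t) * g y ^ t ≤ g ((1 - t) • x + t • y))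
  (hsq : ∀ (w : Eu (Fin 2)) (k : ℝ), ∫⁻ z, ENNReal.ofReal ((⟪w, z⟫_ℝ + k) ^ 2) * g z =
    ENNReal.ofReal (‖w‖ ^ 2 + k ^ 2))

include hsq in
theorem mass1 : ∫⁻ z, g z = 1 := by
  have := hsq 0 1
  simpa using this

include hm hlc hsq in
theorem fin_g (z0 : Eu (Fin 2)) : g z0 ≠ ∞ := by
  intro h0
  have h1 := mass1 g hsq
  have h2 : ∀ᵐ z, g z < ∞ := ae_lt_top hm (by rw [h1]; simp)
  have h3 : volume {z | g z = ∞} = 0 := by
    have : volume {z | ¬ g z < ∞} = 0 := h2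
    simpa using this
  have h4 : volume {z : Eu (Fin 2) | g ((1 - (1 / 2 : ℝ)) • z0 + (1 / 2 : ℝ) • z) = ∞} = 0 := by
    have e1 : {z : Eu (Fin 2) | g ((1 - (1 / 2 : ℝ)) • z0 + (1 / 2 : ℝ) • z) = ∞} =
        (fun z => (1 / 2 : ℝ) • z) ⁻¹' ((fun z => (1 - (1 / 2 : ℝ)) • z0 + z) ⁻¹' {z | g z = ∞}) := by
      ext z
      simp
    rw [e1, Measure.addHaar_preimage_smul _ (by norm_num), measure_preimage_add, h3, mul_zero]
  have h5 : ∀ᵐ z, g z = 0 := by
    have h6 : ∀ᵐ z : Eu (Fin 2), ¬ g ((1 - (1 / 2 : ℝ)) • z0 + (1 / 2 : ℝ) • z) = ∞ := by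
      rw [ae_iff]
      simpa using h4
    filter_upwards [h6] with z hz
    by_contra h7
    apply hz
    have h8 := hlc z0 z (1 / 2) (by norm_num) (by norm_num)
    rw [h0, ENNReal.top_rpow_of_pos (by norm_num), ENNReal.top_mul] at h8
    · exact top_le_iff.1 h8
    · intro h9
      rw [ENNReal.rpow_eq_zero_iff] at h9
      rcases h9 with h9 | h9
      · exact h7 h9.1
      · norm_num at h9
  have h6 : ∫⁻ z, g z = 0 := by
    rw [lintegral_congr_ae h5]
    simp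
  rw [h1] at h6
  exact one_ne_zero h6

include hm hlc hsq in
theorem real_sq (w : Eu (Fin 2)) (k : ℝ) :
    Integrable (fun z => (⟪w, z⟫_ℝ + k) ^ 2 * (g z).toReal) ∧
    ∫ z, (⟪w, z⟫_ℝ + k) ^ 2 * (g z).toReal = ‖w‖ ^ 2 + k ^ 2 := by
  have hf := fin_g g hm hlc hsq
  have hme : AEStronglyMeasurable (fun z => (⟪w, z⟫_ℝ + k) ^ 2 * (g z).toReal) volume := by
    have h1 : Measurable fun z : Eu (Fin 2) => (⟪w, z⟫_ℝ + k) ^ 2 := by
      have : Continuous fun z : Eu (Fin 2) => (⟪w, z⟫_ℝ + k) ^ 2 := by fun_prop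
      exact this.measurable
    exact (h1.mul hm.ennreal_toReal).aestronglyMeasurable
  have hp : 0 ≤ᵐ[volume] fun z => (⟪w, z⟫_ℝ + k) ^ 2 * (g z).toReal :=
    Eventually.of_forall fun z => by positivity
  have e : ∫⁻ z, ENNReal.ofReal ((⟪w, z⟫_ℝ + k) ^ 2 * (g z).toReal) =
      ENNReal.ofReal (‖w‖ ^ 2 + k ^ 2) := by
    rw [← hsq w k]
    refine lintegral_congr fun z => ?_
    rw [ENNReal.ofReal_mul (by positivity), ENNReal.ofReal_toReal (hf z)]
  refine ⟨?_, ?_⟩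
  · rw [← lintegral_ofReal_ne_top_iff_integrable hme hp, e]
    exact ENNReal.ofReal_ne_top
  · rw [integral_eq_lintegral_of_nonneg_ae hp hme, e, ENNReal.toReal_ofReal (by positivity)]

include hm hlc hsq in
theorem real_lin (w : Eu (Fin 2)) :
    Integrable (fun z => ⟪w, z⟫_ℝ * (g z).toReal) ∧ ∫ z, ⟪w, z⟫_ℝ * (g z).toReal = 0 := by
  obtain ⟨a1, a2⟩ := real_sq g hm hlc hsq w 1
  obtain ⟨b1, b2⟩ := real_sq g hm hlc hsq w (-1)
  have key : ∀ z, ⟪w, z⟫_ℝ * (g z).toReal = 1 / 4 * ((⟪w, z⟫_ℝ + 1) ^ 2 * (g z).toReal -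
      (⟪w, z⟫_ℝ + -1) ^ 2 * (g z).toReal) := by
    intro z
    ring
  refine ⟨?_, ?_⟩
  · simp only [key]
    exact (a1.sub b1).const_mul _
  · simp only [key]
    rw [integral_const_mul, integral_sub a1 b1, a2, b2]
    ring

include hm hlc hsq in
theorem ilk_of (C : ℝ)
    (h4 : ∀ (w : Eu (Fin 2) → ℝ), (∀ x, 0 ≤ w x) →
      Measurable w → Integrable (fun x => (1 + ‖x‖ ^ 2) * w x) → 0 < ∫ x, w x →
      (∀ x y, ∀ t : ℝ, 0 < t → t < 1 → w x ^ (1 - t) * w y ^ t ≤ w ((1 - t) • x + t • y)) →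
      ∀ θ : Eu (Fin 2), Integrable (fun x => (⟪x, θ⟫_ℝ - EW w fun x => ⟪x, θ⟫_ℝ) ^ 4 * w x) ∧
      EW w (fun x => (⟪x, θ⟫_ℝ - EW w fun x => ⟪x, θ⟫_ℝ) ^ 4) ≤
        C * (VW w fun x => ⟪x, θ⟫_ℝ) ^ 2) : ILK C g := by
  have hf := fin_g g hm hlc hsq
  have h1 := mass1 g hsq
  have hR : Measurable fun z => (g z).toReal := hm.ennreal_toReal
  obtain ⟨m1, m2⟩ := real_sq g hm hlc hsq 0 1
  have m1' : Integrable fun z => (g z).toReal := by
    refine m1.congr (Eventually.of_forall fun z => ?_)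
    simp
  have m2' : ∫ z, (g z).toReal = 1 := by
    have : ∀ z, (⟪(0 : Eu (Fin 2)), z⟫_ℝ + 1) ^ 2 * (g z).toReal = (g z).toReal := by
      intro z
      simp
    simp only [this] at m2
    rw [m2]
    simp
  have hq : ∀ (w : Eu (Fin 2)), Integrable (fun z => ⟪w, z⟫_ℝ ^ 2 * (g z).toReal) ∧
      ∫ z, ⟪w, z⟫_ℝ ^ 2 * (g z).toReal = ‖w‖ ^ 2 := by
    intro w
    have := real_sq g hm hlc hsq w 0
    simpa using this
  refine ⟨hm, hlc, h1, fun w => ?_, fun w => ?_, fun w => ?_⟩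
  · obtain ⟨l1, l2⟩ := real_lin g hm hlc hsq w
    have e1 : ∫⁻ z, ENNReal.ofReal ⟪w, z⟫_ℝ * g z =
        ∫⁻ z, ENNReal.ofReal (⟪w, z⟫_ℝ * (g z).toReal) := by
      refine lintegral_congr fun z => ?_
      rw [ENNReal.ofReal_mul' ENNReal.toReal_nonneg, ENNReal.ofReal_toReal (hf z)]
    have e2 : ∫⁻ z, ENNReal.ofReal (-⟪w, z⟫_ℝ) * g z =
        ∫⁻ z, ENNReal.ofReal (-(⟪w, z⟫_ℝ * (g z).toReal)) := by
      refine lintegral_congr fun z => ?_
      rw [← neg_mul, ENNReal.ofReal_mul' ENNReal.toReal_nonneg, ENNReal.ofReal_toReal (hf z)]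
    rw [e1, e2]
    have e3 := integral_eq_lintegral_pos_part_sub_lintegral_neg_part l1
    rw [l2] at e3
    have f1 : ∫⁻ z, ENNReal.ofReal (⟪w, z⟫_ℝ * (g z).toReal) ≠ ∞ := l1.lintegral_lt_top.ne
    have f2 : ∫⁻ z, ENNReal.ofReal (-(⟪w, z⟫_ℝ * (g z).toReal)) ≠ ∞ := l1.neg.lintegral_lt_top.ne
    rw [← ENNReal.toReal_eq_toReal_iff' f1 f2]
    linarith
  · have := hsq w 0
    simpa using this
  · have hint : Integrable fun x : Eu (Fin 2) => (1 + ‖x‖ ^ 2) * (g x).toReal := by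
      have i0 := (hq (EuclideanSpace.single 0 1)).1
      have i1 := (hq (EuclideanSpace.single 1 1)).1
      refine ((m1'.add i0).add i1).congr (Eventually.of_forall fun z => ?_)
      simp only [Pi.add_apply]
      rw [EuclideanSpace.norm_sq_eq, Fin.sum_univ_two, EuclideanSpace.inner_single_left,
        EuclideanSpace.inner_single_left]
      simp only [Real.norm_eq_abs, sq_abs, map_one, one_mul]
      ring
    have hrlc : ∀ x y, ∀ t : ℝ, 0 < t → t < 1 →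
        (g x).toReal ^ (1 - t) * (g y).toReal ^ t ≤ (g ((1 - t) • x + t • y)).toReal := by
      intro x y t t0 t1
      have h := ENNReal.toReal_mono (hf _) (hlc x y t t0 t1)
      rwa [ENNReal.toReal_mul, ← ENNReal.toReal_rpow, ← ENNReal.toReal_rpow] at h
    obtain ⟨k1, k2⟩ := h4 (fun z => (g z).toReal) (fun z => ENNReal.toReal_nonneg) hR hint
      (by rw [m2']; norm_num) hrlc w
    obtain ⟨l1, l2⟩ := real_lin g hm hlc hsq w
    have hE : EW (fun z => (g z).toReal) (fun x => ⟪x, w⟫_ℝ) = 0 := by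
      unfold EW
      rw [m2', div_one]
      simp only [real_inner_comm w] at l2 ⊢
      exact l2
    have hV : VW (fun z => (g z).toReal) (fun x => ⟪x, w⟫_ℝ) = ‖w‖ ^ 2 := by
      unfold VW
      rw [hE]
      unfold EW
      rw [m2', div_one]
      have := (hq w).2
      simp only [real_inner_comm w] at this ⊢
      rw [this]
      ring
    rw [hE, hV] at k2
    rw [hE] at k1
    simp only [sub_zero] at k1 k2
    unfold EW at k2
    rw [m2', div_one] at k2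
    have e1 : ∫⁻ z, ENNReal.ofReal (⟪w, z⟫_ℝ ^ 4) * g z =
        ∫⁻ z, ENNReal.ofReal (⟪z, w⟫_ℝ ^ 4 * (g z).toReal) := by
      refine lintegral_congr fun z => ?_
      rw [ENNReal.ofReal_mul' ENNReal.toReal_nonneg, ENNReal.ofReal_toReal (hf z),
        real_inner_comm]
    rw [e1, ← ofReal_integral_eq_lintegral_ofReal k1 (Eventually.of_forall fun z => by
      simp only [Pi.zero_apply]
      positivity)]
    refine ENNReal.ofReal_le_ofReal (k2.trans (le_of_eq ?_))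
    ring

end

end Pool.Agent.R476.OR.E1
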