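import Pool.Agent.R938.ORF.Main

/-!
# Project OR, piece OR-F
-/

set_option autoImplicit false

namespace Pool.Agent.R476.OR

theorem nrm : S_NRM := Pool.Agent.R938.ORF.nrm

end Pool.Agent.R476.OR
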