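import Pool.Agent.R476.OR.Stm

/-!
# Project OR, piece OR-G (helper165): from `C¹` convex functions to convex functions
-/

set_option autoImplicit false

namespace Pool.Agent.R476.OR

namespace G

open MeasureTheory Set Filter Topology
open scoped ENNReal InnerProductSpace
open Pool.Agent.W695.KH (Eu)

/-- forward average of `V` -/
noncomputable def sm (V : ℝ → ℝ) (ε t : ℝ) : ℝ := ∫ u in (0 : ℝ)..1, V (t + ε * u)

lemma cont_of_convex {V : ℝ → ℝ} (h : ConvexOn ℝ univ V) : Continuous V :=
  continuousOn_univ.1 (h.continuousOn isOpen_univ)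

lemma sm_cont {V : ℝ → ℝ} (hV : Continuous V) (t : ℝ) : Continuous (fun ε => sm V ε t) := by
  unfold sm
  exact intervalIntegral.continuous_parametric_intervalIntegral_of_continuous'
    (f := fun ε u => V (t + ε * u)) (by fun_prop) 0 1

lemma sm_zero (V : ℝ → ℝ) (t : ℝ) : sm V 0 t = V t := by
  simp [sm]

lemma sm_eq (V : ℝ → ℝ) {ε : ℝ} (hε : ε ≠ 0) (t : ℝ) :
    sm V ε t = ε⁻¹ * ∫ s in t..(t + ε), V s := by
  unfold sm
  rw [intervalIntegral.integral_comp_add_mul V hε t]
  simp

lemma sm_deriv {V : ℝ → ℝ} (hV : Continuous V) {ε : ℝ} (hε : ε ≠ 0) (t : ℝ) :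
    HasDerivAt (sm V ε) (ε⁻¹ * (V (t + ε) - V t)) t := by
  have e : sm V ε = fun t => ε⁻¹ * ((∫ s in (0 : ℝ)..(t + ε), V s) - ∫ s in (0 : ℝ)..t, V s) := by
    funext t
    rw [sm_eq V hε, intervalIntegral.integral_interval_sub_left]
    · exact hV.intervalIntegrable _ _
    · exact hV.intervalIntegrable _ _
  rw [e]
  have h1 : HasDerivAt (fun t => ∫ s in (0 : ℝ)..(t + ε), V s) (V (t + ε)) t :=
    HasDerivAt.comp_add_const t ε (hV.integral_hasStrictDerivAt 0 (t + ε)).hasDerivAt
  have h2 : HasDerivAt (fun t => ∫ s in (0 : ℝ)..t, V s) (V t) t :=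
    (hV.integral_hasStrictDerivAt 0 t).hasDerivAt
  exact (h1.sub h2).const_mul ε⁻¹

lemma shift_le {V : ℝ → ℝ} (h : ConvexOn ℝ univ V) {ε : ℝ} (hε : 0 < ε) {s t : ℝ} (hst : s ≤ t) :
    V (s + ε) - V s ≤ V (t + ε) - V t := by
  have hd : 0 < t + ε - s := by linarith
  set a : ℝ := ε / (t + ε - s) with ha
  have ha0 : 0 ≤ a := by positivity
  have ha1 : a ≤ 1 := by
    rw [ha, div_le_one hd]
    linarith
  have h1 := h.2 (mem_univ s) (mem_univ (t + ε)) (sub_nonneg.2 ha1) ha0 (by ring)
  have h2 := h.2 (mem_univ s) (mem_univ (t + ε)) ha0 (sub_nonneg.2 ha1) (by ring)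
  have e1 : (1 - a) • s + a • (t + ε) = s + ε := by
    simp only [smul_eq_mul]
    have : a * (t + ε - s) = ε := by
      rw [ha]
      field_simp
    linarith
  have e2 : a • s + (1 - a) • (t + ε) = t := by
    simp only [smul_eq_mul]
    have : a * (t + ε - s) = ε := by
      rw [ha]
      field_simp
    linarith
  rw [e1] at h1
  rw [e2] at h2
  simp only [smul_eq_mul] at h1 h2
  linarith

lemma sm_cv {V : ℝ → ℝ} (h : ConvexOn ℝ univ V) {ε : ℝ} (hε : 0 < ε) :
    CV (sm V ε) (fun t => ε⁻¹ * (V (t + ε) - V t)) where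
  der := fun t => sm_deriv (cont_of_convex h) hε.ne' t
  mono := fun s t hst => mul_le_mul_of_nonneg_left (shift_le h hε hst) (inv_nonneg.2 hε.le)
  cont := by
    have := cont_of_convex h
    fun_prop

/-- the vector of ones -/
noncomputable def one (n : ℕ) : Eu (Fin n) := WithLp.toLp 2 fun _ => 1

lemma SV_cont {n : ℕ} {V : Fin n → ℝ → ℝ} (hV : ∀ i, Continuous (V i)) : Continuous (SV V) := by
  unfold SV
  apply continuous_finsetSum
  intro i _
  have := hV i
  fun_prop

lemma SV_sm {n : ℕ} {V : Fin n → ℝ → ℝ} (hV : ∀ i, Continuous (V i)) (ε : ℝ) (x : Eu (Fin n)) :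
    SV (fun i => sm (V i) ε) x = ∫ u in (0 : ℝ)..1, SV V (x + (ε * u) • one n) := by
  unfold SV sm
  rw [intervalIntegral.integral_finsetSum]
  · refine Finset.sum_congr rfl fun i _ => ?_
    apply intervalIntegral.integral_congr
    intro u _
    simp [one]
  · intro i _
    apply Continuous.intervalIntegrable
    have := hV i
    fun_prop

lemma exists_u {n : ℕ} {V : Fin n → ℝ → ℝ} (hV : ∀ i, Continuous (V i)) {ε E : ℝ}
    {x : Eu (Fin n)} (h : SV (fun i => sm (V i) ε) x ≤ E) :
    ∃ u ∈ Icc (0 : ℝ) 1, SV V (x + (ε * u) • one n) ≤ E := by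
  by_contra hc
  push Not at hc
  have hg : Continuous (fun u : ℝ => SV V (x + (ε * u) • one n)) := by
    have := SV_cont hV
    fun_prop
  obtain ⟨u0, hu0, hmin⟩ := isCompact_Icc.exists_isMinOn (s := Icc (0 : ℝ) 1)
    (nonempty_Icc.2 zero_le_one) hg.continuousOn
  have h1 : ∫ u in (0 : ℝ)..1, (SV V (x + (ε * u0) • one n)) ≤
      ∫ u in (0 : ℝ)..1, SV V (x + (ε * u) • one n) := by
    apply intervalIntegral.integral_mono_on zero_le_one
    · exact intervalIntegrable_const
    · exact hg.intervalIntegrable _ _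
    · intro u hu
      exact hmin hu
  rw [SV_sm hV] at h
  have h2 := hc u0 hu0
  simp at h1
  linarith

lemma bdd_sm {n : ℕ} {V : Fin n → ℝ → ℝ} (hV : ∀ i, Continuous (V i)) {E R : ℝ}
    (hR : KV V E ⊆ Metric.closedBall 0 R) {ε : ℝ} (h0 : 0 ≤ ε) (h1 : ε ≤ 1) :
    KV (fun i => sm (V i) ε) E ⊆ Metric.closedBall 0 (R + ‖one n‖) := by
  intro x hx
  obtain ⟨u, hu, h⟩ := exists_u hV hx
  have h2 := hR (show x + (ε * u) • one n ∈ KV V E from h)
  rw [mem_closedBall_zero_iff] at h2 ⊢
  have h3 : x = (x + (ε * u) • one n) - (ε * u) • one n := by simp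
  rw [h3]
  refine (norm_sub_le _ _).trans (add_le_add h2 ?_)
  rw [norm_smul, Real.norm_eq_abs, abs_of_nonneg (mul_nonneg h0 hu.1)]
  have h4 : ε * u ≤ 1 := by
    have := mul_le_mul h1 hu.2 hu.1 zero_le_one
    simpa using this
  calc ε * u * ‖one n‖ ≤ 1 * ‖one n‖ := mul_le_mul_of_nonneg_right h4 (norm_nonneg _)
    _ = ‖one n‖ := one_mul _

lemma SV_conv {n : ℕ} {V : Fin n → ℝ → ℝ} (hV : ∀ i, ConvexOn ℝ univ (V i)) (x y : Eu (Fin n))
    (a b : ℝ) (ha : 0 ≤ a) (hb : 0 ≤ b) (hab : a + b = 1) :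
    SV V (a • x + b • y) ≤ a * SV V x + b * SV V y := by
  unfold SV
  rw [Finset.mul_sum, Finset.mul_sum, ← Finset.sum_add_distrib]
  apply Finset.sum_le_sum
  intro i _
  have := (hV i).2 (mem_univ (x i)) (mem_univ (y i)) ha hb hab
  simpa using this

lemma KV_convex {n : ℕ} {V : Fin n → ℝ → ℝ} (hV : ∀ i, ConvexOn ℝ univ (V i)) (E : ℝ) :
    Convex ℝ (KV V E) := by
  intro x hx y hy a b ha hb hab
  have h := SV_conv hV x y a b ha hb hab
  have h1 : a * SV V x ≤ a * E := mul_le_mul_of_nonneg_left hx ha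
  have h2 : b * SV V y ≤ b * E := mul_le_mul_of_nonneg_left hy hb
  have h3 : a * E + b * E = E := by rw [← add_mul, hab, one_mul]
  show SV V (a • x + b • y) ≤ E
  linarith

lemma level_null {n : ℕ} {V : Fin n → ℝ → ℝ} (hV : ∀ i, ConvexOn ℝ univ (V i)) {E : ℝ}
    {x0 : Eu (Fin n)} (hx0 : SV V x0 < E) : volume {x : Eu (Fin n) | SV V x = E} = 0 := by
  have hfr := (KV_convex hV E).addHaar_frontier (volume : Measure (Eu (Fin n)))
  refine measure_mono_null ?_ hfr
  intro x hx
  refine ⟨subset_closure (show SV V x ≤ E from hx.le), ?_⟩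
  intro hint
  -- a point beyond `x` on the ray from `x0`
  have hc : Continuous (fun τ : ℝ => x + τ • (x - x0)) := by fun_prop
  have h0 : (fun τ : ℝ => x + τ • (x - x0)) 0 ∈ interior (KV V E) := by
    simpa using hint
  have hn : (fun τ : ℝ => x + τ • (x - x0)) ⁻¹' interior (KV V E) ∈ 𝓝 (0 : ℝ) :=
    (isOpen_interior.preimage hc).mem_nhds h0
  obtain ⟨r, hr, hball⟩ := Metric.mem_nhds_iff.1 hn
  have hτ : (r / 2) ∈ Metric.ball (0 : ℝ) r := by
    rw [Metric.mem_ball, dist_zero_right, Real.norm_eq_abs, abs_of_pos (by linarith)]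
    linarith
  have hy := interior_subset (hball hτ)
  simp only at hy
  set τ : ℝ := r / 2 with hτd
  have hτp : 0 < τ := by positivity
  have hyE : SV V (x + τ • (x - x0)) ≤ E := hy
  have h1 := SV_conv hV (x + τ • (x - x0)) x0 (1 / (1 + τ)) (τ / (1 + τ)) (by positivity)
    (by positivity) (by field_simp)
  have e : (1 / (1 + τ)) • (x + τ • (x - x0)) + (τ / (1 + τ)) • x0 = x := by
    have h2 : (1 + τ) ≠ 0 := by positivity
    have h3 : (1 / (1 + τ)) • (x + τ • (x - x0)) + (τ / (1 + τ)) • x0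
        = ((1 / (1 + τ)) * (1 + τ)) • x := by
      rw [smul_add, smul_smul, smul_sub, mul_add, add_smul]
      have : τ / (1 + τ) = 1 / (1 + τ) * τ := by ring
      rw [this, mul_one]
      abel
    rw [h3, one_div, inv_mul_cancel₀ h2, one_smul]
  rw [e] at h1
  have hx' : SV V x = E := hx
  rw [hx'] at h1
  have h4 : 1 / (1 + τ) * SV V (x + τ • (x - x0)) ≤ 1 / (1 + τ) * E :=
    mul_le_mul_of_nonneg_left hyE (by positivity)
  have h5 : τ / (1 + τ) * SV V x0 < τ / (1 + τ) * E :=
    mul_lt_mul_of_pos_left hx0 (by positivity)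
  have h6 : 1 / (1 + τ) * E + τ / (1 + τ) * E = E := by
    field_simp
  linarith

lemma KV_closed {n : ℕ} {V : Fin n → ℝ → ℝ} (hV : ∀ i, Continuous (V i)) (E : ℝ) :
    IsClosed (KV V E) :=
  isClosed_le (SV_cont hV) continuous_const

lemma ind_int {n : ℕ} {V : Fin n → ℝ → ℝ} (hV : ∀ i, Continuous (V i)) {E R : ℝ}
    (hR : KV V E ⊆ Metric.closedBall 0 R) :
    Integrable (fun x => (1 + ‖x‖ ^ 2) * ind (KV V E) x) := by
  have e : (fun x : Eu (Fin n) => (1 + ‖x‖ ^ 2) * ind (KV V E) x)
      = (KV V E).indicator (fun x => 1 + ‖x‖ ^ 2) := by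
    funext x
    unfold ind
    by_cases h : x ∈ KV V E
    · simp [h]
    · simp [h]
  rw [e, integrable_indicator_iff (KV_closed hV E).measurableSet]
  apply IntegrableOn.mono_set _ hR
  apply ContinuousOn.integrableOn_compact (isCompact_closedBall _ _)
  fun_prop

end G

open MeasureTheory Set Filter Topology in
open Pool.Agent.W695.KH (Eu) in
open G in
theorem apx (h : S_LIMC) : S_APX := by
  intro κ δ hκ H n V hn hV E hb hx
  obtain ⟨x0, hx0⟩ := hx
  have hVc : ∀ i, Continuous (V i) := fun i => cont_of_convex (hV i)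
  obtain ⟨R, hR⟩ := hb.subset_closedBall 0
  set R' : ℝ := R + ‖one n‖ with hR'
  have hRR : KV V E ⊆ Metric.closedBall 0 R' :=
    hR.trans (Metric.closedBall_subset_closedBall (by have := norm_nonneg (one n); linarith))
  let ε : ℕ → ℝ := fun j => 1 / ((j : ℝ) + 1)
  have hε0 : ∀ j, 0 < ε j := fun j => by
    simp only [ε]
    positivity
  have hε1 : ∀ j, ε j ≤ 1 := fun j => by
    simp only [ε]
    rw [div_le_one (by positivity)]
    have : (0 : ℝ) ≤ (j : ℝ) := Nat.cast_nonneg j
    linarith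
  have hεt : Tendsto ε atTop (𝓝 0) := tendsto_one_div_add_atTop_nhds_zero_nat
  let W : ℕ → Fin n → ℝ → ℝ := fun j i => sm (V i) (ε j)
  have hWc : ∀ j i, Continuous (W j i) := fun j i =>
    continuous_iff_continuousAt.2 fun t =>
      ((sm_cv (hV i) (hε0 j)).der t).continuousAt
  have hWb : ∀ j, KV (W j) E ⊆ Metric.closedBall 0 R' := fun j =>
    bdd_sm hVc hR (hε0 j).le (hε1 j)
  have hlim : ∀ x, Tendsto (fun j => SV (W j) x) atTop (𝓝 (SV V x)) := by
    intro x
    unfold SV
    apply tendsto_finsetSum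
    intro i _
    have h1 := ((sm_cont (hVc i) (x i)).tendsto 0).comp hεt
    rw [sm_zero] at h1
    exact h1
  have hSVc := SV_cont hVc
  refine h n κ δ (ind (KV V E)) (fun j => ind (KV (W j) E)) hκ (ind_int hVc hR) ?_
    (fun j => ind_int (hWc j) (hWb j)) ?_ ?_
  · -- positive mass
    have e : ∫ x, ind (KV V E) x = (volume (KV V E)).toReal := by
      unfold ind
      rw [integral_indicator (KV_closed hVc E).measurableSet]
      simp [Measure.real]
    rw [e]
    apply ENNReal.toReal_pos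
    · have hopen : IsOpen {x : Eu (Fin n) | SV V x < E} := isOpen_lt hSVc continuous_const
      have hpos : 0 < volume {x : Eu (Fin n) | SV V x < E} := hopen.measure_pos volume ⟨x0, hx0⟩
      have : volume {x : Eu (Fin n) | SV V x < E} ≤ volume (KV V E) :=
        measure_mono fun x (hx : SV V x < E) => show SV V x ≤ E from hx.le
      exact (lt_of_lt_of_le hpos this).ne'
    · exact (lt_of_le_of_lt (measure_mono hR) measure_closedBall_lt_top).ne
  · -- dominated convergence
    have key := tendsto_integral_of_dominated_convergence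
      (μ := (volume : Measure (Eu (Fin n))))
      (F := fun j x => (1 + ‖x‖ ^ 2) * |ind (KV (W j) E) x - ind (KV V E) x|)
      (f := fun _ => (0 : ℝ))
      (bound := (Metric.closedBall (0 : Eu (Fin n)) R').indicator (fun x => 1 + ‖x‖ ^ 2))
      ?_ ?_ ?_ ?_
    · simpa using key
    · intro j
      have m1 : Measurable (ind (KV (W j) E)) :=
        measurable_const.indicator (KV_closed (hWc j) E).measurableSet
      have m2 : Measurable (ind (KV V E)) :=
        measurable_const.indicator (KV_closed hVc E).measurableSet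
      have m3 : Measurable (fun x : Eu (Fin n) => 1 + ‖x‖ ^ 2) := by fun_prop
      exact (m3.mul (m1.sub m2).abs).aestronglyMeasurable
    · rw [integrable_indicator_iff measurableSet_closedBall]
      apply ContinuousOn.integrableOn_compact (isCompact_closedBall _ _)
      fun_prop
    · intro j
      refine Eventually.of_forall fun x => ?_
      have hp : 0 ≤ 1 + ‖x‖ ^ 2 := by positivity
      rw [Real.norm_eq_abs, abs_of_nonneg (mul_nonneg hp (abs_nonneg _))]
      by_cases hxb : x ∈ Metric.closedBall (0 : Eu (Fin n)) R'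
      · rw [indicator_of_mem hxb]
        have h1 : |ind (KV (W j) E) x - ind (KV V E) x| ≤ 1 := by
          unfold ind
          by_cases h1 : x ∈ KV (W j) E <;> by_cases h2 : x ∈ KV V E <;> simp [h1, h2]
        calc (1 + ‖x‖ ^ 2) * |ind (KV (W j) E) x - ind (KV V E) x| ≤ (1 + ‖x‖ ^ 2) * 1 :=
              mul_le_mul_of_nonneg_left h1 hp
          _ = 1 + ‖x‖ ^ 2 := mul_one _
      · have h1 : x ∉ KV (W j) E := fun hh => hxb (hWb j hh)
        have h2 : x ∉ KV V E := fun hh => hxb (hRR hh)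
        simp [ind, h1, h2, hxb]
    · have hnull := level_null hV hx0
      have hae : ∀ᵐ x : Eu (Fin n), SV V x ≠ E := by
        rw [ae_iff]
        simpa using hnull
      filter_upwards [hae] with x hxE
      rcases lt_or_gt_of_ne hxE with hlt | hgt
      · have hev : ∀ᶠ j in atTop, SV (W j) x < E := (hlim x).eventually_lt_const hlt
        refine tendsto_const_nhds.congr' ?_
        filter_upwards [hev] with j hj
        have h1 : x ∈ KV (W j) E := le_of_lt hj
        have h2 : x ∈ KV V E := le_of_lt hlt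
        simp [ind, h1, h2]
      · have hev : ∀ᶠ j in atTop, E < SV (W j) x := (hlim x).eventually_const_lt hgt
        refine tendsto_const_nhds.congr' ?_
        filter_upwards [hev] with j hj
        have h1 : x ∉ KV (W j) E := fun hh => absurd (show SV (W j) x ≤ E from hh) (not_le.2 hj)
        have h2 : x ∉ KV V E := fun hh => absurd (show SV V x ≤ E from hh) (not_le.2 hgt)
        simp [ind, h1, h2]
  · -- concentration for the approximations
    have hev : ∀ᶠ j in atTop, SV (W j) x0 < E := (hlim x0).eventually_lt_const hx0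
    filter_upwards [hev] with j hj
    exact H n (W j) _ hn (fun i => sm_cv (hV i) (hε0 j)) E
      (Metric.isBounded_closedBall.subset (hWb j)) ⟨x0, hj⟩

end Pool.Agent.R476.OR
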