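import Pool.Agent.R476.OR.J
import Pool.Agent.Y506.PV.Cc

/-!
# Project OR: from normalised sums to all `C¹` sums
-/

set_option autoImplicit false

namespace Pool.Agent.R476.OR

open MeasureTheory Set Filter Topology
open scoped ENNReal InnerProductSpace
open Pool.Agent.W695.KH (Eu)
open Pool.Agent.Y506.RG (Adm)

variable {n : ℕ}

/-- diagonal linear bijection -/
noncomputable def dg (d : Fin n → ℝ) (hd : ∀ i, 0 < d i) : Eu (Fin n) ≃ₗ[ℝ] Eu (Fin n) where
  toFun x := WithLp.toLp 2 fun i => d i * x i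
  invFun x := WithLp.toLp 2 fun i => (d i)⁻¹ * x i
  map_add' x y := by ext i; simp [mul_add]
  map_smul' c x := by ext i; simp; ring
  left_inv x := by
    ext i
    have := (hd i).ne'
    simp [← mul_assoc, inv_mul_cancel₀ this]
  right_inv x := by
    ext i
    have := (hd i).ne'
    simp [← mul_assoc, mul_inv_cancel₀ this]

/-- affine changes of variables -/
theorem cc_set {κ δ : ℝ} (A : Eu (Fin n) ≃ₗ[ℝ] Eu (Fin n)) (a : Eu (Fin n))
    (K K' : Set (Eu (Fin n))) (hK : ∀ x, x ∈ K' ↔ A x + a ∈ K) (hA : Adm (ind K'))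
    (h : Cc κ δ (ind K')) : Cc κ δ (ind K) := by
  refine Pool.Agent.Y506.PV.cc_aff A.symm.toContinuousLinearEquiv a 1 one_pos (ind K) (ind K') ?_
    hA h
  intro x
  rw [one_mul]
  have h1 := hK (A.symm (x - a))
  rw [LinearEquiv.apply_symm_apply, sub_add_cancel] at h1
  unfold ind
  show K.indicator (fun _ => (1 : ℝ)) x = K'.indicator (fun _ => (1 : ℝ)) (A.symm (x - a))
  by_cases hx : x ∈ K
  · rw [indicator_of_mem hx, indicator_of_mem (h1.2 hx)]
  · rw [indicator_of_notMem hx, indicator_of_notMem fun h2 => hx (h1.1 h2)]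

theorem ccg (hn : S_NRM) (hc : S_CCN)
    (hadm : ∀ (n : ℕ) (V V' : Fin n → ℝ → ℝ), (∀ i, NV (V i) (V' i)) → ∀ E, LVL V E →
      Adm (ind (KV V E))) : S_CCG := by
  intro δ hδ
  obtain ⟨κ, hκ, H⟩ := hc δ hδ
  refine ⟨κ, hκ, fun n V V' hn1 hV E hb hS => ?_⟩
  obtain ⟨W, W', E', a, d, hW, hE', hd, hx⟩ := hn n V V' hn1 hV E hb hS
  refine cc_set (dg d hd) (WithLp.toLp 2 a) (KV V E) (KV W E') (fun x => ?_) (hadm n W W' hW E' hE')
    (H n W W' hW E' hE')
  rw [hx x]
  have : (WithLp.toLp 2 fun i => a i + d i * x i : Eu (Fin n)) = dg d hd x + WithLp.toLp 2 a := by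
    ext i
    simp [dg, add_comm]
  rw [this]

end Pool.Agent.R476.OR
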