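import Pool.Agent.R476.OR.Stm

/-!
# Project OR: the two-dimensional marginal, statement
-/

set_option autoImplicit false

namespace Pool.Agent.R476.OR

open MeasureTheory Set Filter Topology
open scoped ENNReal InnerProductSpace
open Pool.Agent.W695.KH (Eu)
open Pool.Agent.Y506.RG (ND OB EW VW ILK)

/-- `∑ m_i + 1`, the mean of the level variable -/
noncomputable def mm {n : ℕ} (V : Fin n → ℝ → ℝ) : ℝ := (∑ i, mV (V i)) + 1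

/-- `1 - ⟪b, θ⟫² / sg` -/
noncomputable def tau {n : ℕ} (V : Fin n → ℝ → ℝ) (θ : Eu (Fin n)) : ℝ :=
  Real.sqrt (1 - ⟪bb V, θ⟫_ℝ ^ 2 / sg V)

/-- OR-E1: the joint law of `⟪θ, x⟫` and of the level variable `s`, density `1[S(x) ≤ s] exp (-s)`,
in isotropic coordinates `z_0 = (⟪θ, x⟫ - (⟪b, θ⟫ / sg) (s - m)) / τ`, `z_1 = (s - m) / √sg` -/
def S_GTW : Prop := ∃ K : ℝ, 1 ≤ K ∧ ∀ (n : ℕ) (V V' : Fin (n + 1) → ℝ → ℝ),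
  (∀ i, NV (V i) (V' i)) → (∀ i, Integrable fun t => V i t ^ 4 * Real.exp (-V i t)) →
  ∀ θ : Eu (Fin (n + 1)), ‖θ‖ = 1 → ⟪bb V, θ⟫_ℝ ^ 2 < sg V ∧
  ∃ g : Eu (Fin 2) → ℝ≥0∞, ILK K g ∧ ∀ (E : ℝ) (φ : ℝ → ℝ≥0∞), Measurable φ →
    ∫⁻ x in KV V E, φ ⟪θ, x⟫_ℝ = ENNReal.ofReal (Real.exp E / Real.sqrt (sg V)) *
      ∫⁻ z : ℝ, φ (tau V θ * z + ⟪bb V, θ⟫_ℝ / Real.sqrt (sg V) * ((E - mm V) / Real.sqrt (sg V))) *
        g (WithLp.toLp 2 ![z, (E - mm V) / Real.sqrt (sg V)])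

end Pool.Agent.R476.OR
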