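import Pool.Agent.R476.OR.Stm

/-!
# Project OR: functions with values in `[0, ∞]`, statements
-/

set_option autoImplicit false

namespace Pool.Agent.R476.OR

open MeasureTheory Set Filter Topology
open scoped ENNReal InnerProductSpace
open Pool.Agent.W695.KH (Eu)

/-- convex lower semicontinuous function on the line with values in `[0, ∞]` -/
structure XV (V : ℝ → ℝ≥0∞) : Prop where
  lsc : LowerSemicontinuous V
  conv : ∀ x y t : ℝ, 0 < t → t < 1 →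
    V ((1 - t) * x + t * y) ≤ ENNReal.ofReal (1 - t) * V x + ENNReal.ofReal t * V y

/-- `{∑ V_i(x_i) ≤ E}` -/
def KX {n : ℕ} (V : Fin n → ℝ → ℝ≥0∞) (E : ℝ≥0∞) : Set (Eu (Fin n)) := {x | ∑ i, V i (x i) ≤ E}

/-- OR-Z1: from finite convex functions to convex functions with values in `[0, ∞]` -/
def S_APZ : Prop := ∀ (κ δ : ℝ), 0 < κ →
  (∀ (n : ℕ) (V : Fin n → ℝ → ℝ), 1 ≤ n → (∀ i, ConvexOn ℝ univ (V i)) → ∀ E : ℝ,
    Bornology.IsBounded (KV V E) → (∃ x, SV V x < E) → Cc κ δ (ind (KV V E))) →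
  ∀ (n : ℕ) (V : Fin n → ℝ → ℝ≥0∞) (E : ℝ≥0∞), 1 ≤ n → (∀ i, XV (V i)) → E ≠ ⊤ →
    Bornology.IsBounded (KX V E) → (∃ x ∈ interior (KX V E), ∑ i, V i (x i) < E) →
    Cc (κ / 2) δ (ind (KX V E))

/-- OR-Z2: basic properties, and the degenerate case -/
def S_BOX : Prop := ∀ (n : ℕ) (V : Fin n → ℝ → ℝ≥0∞) (E : ℝ≥0∞), (∀ i, XV (V i)) →
  IsClosed (KX V E) ∧ Convex ℝ (KX V E) ∧
  (E ≠ ⊤ → (interior (KX V E)).Nonempty → (∀ x ∈ interior (KX V E), E ≤ ∑ i, V i (x i)) →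
    ∃ I : Fin n → Set ℝ, (∀ i, IsClosed (I i)) ∧ (∀ i, (I i).OrdConnected) ∧
      KX V E = {x | ∀ i, x i ∈ I i})

end Pool.Agent.R476.OR
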