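import Pool.Agent.R476.OR.H
import Pool.Agent.R476.OR.Stm3

/-!
# OR-Z1: from finite convex functions to convex functions with values in `[0, ∞]`

Lipschitz regularisation `V^j(t) = inf_s (V(s) + j |t - s|)`.
-/

set_option autoImplicit false

namespace Pool.Agent.R476.OR

open MeasureTheory Set Filter Topology
open scoped ENNReal InnerProductSpace
open Pool.Agent.W695.KH (Eu)
open Pool.Agent.Y506.RG (ND OB EW VW)

/-- Lipschitz regularisation -/
noncomputable def zL (V : ℝ → ℝ≥0∞) (j : ℕ) (t : ℝ) : ℝ≥0∞ :=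
  ⨅ s : ℝ, V s + ENNReal.ofReal (j * |t - s|)

theorem zL_le (V : ℝ → ℝ≥0∞) (j : ℕ) (t s : ℝ) :
    zL V j t ≤ V s + ENNReal.ofReal (j * |t - s|) := iInf_le _ s

theorem zL_le_self (V : ℝ → ℝ≥0∞) (j : ℕ) (t : ℝ) : zL V j t ≤ V t := by
  refine (zL_le V j t t).trans ?_
  simp

theorem zL_fin {V : ℝ → ℝ≥0∞} {s : ℝ} (hs : V s ≠ ⊤) (j : ℕ) (t : ℝ) : zL V j t ≠ ⊤ :=
  ne_top_of_le_ne_top (ENNReal.add_ne_top.2 ⟨hs, ENNReal.ofReal_ne_top⟩) (zL_le V j t s)

theorem zL_mono (V : ℝ → ℝ≥0∞) {j k : ℕ} (h : j ≤ k) (t : ℝ) : zL V j t ≤ zL V k t := by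
  refine iInf_mono fun s => ?_
  have h1 : (j : ℝ) ≤ k := by exact_mod_cast h
  gcongr

theorem zL_conv {V : ℝ → ℝ≥0∞} (hV : XV V) (j : ℕ) (x y t : ℝ) (h0 : 0 < t) (h1 : t < 1) :
    zL V j ((1 - t) * x + t * y) ≤ ENNReal.ofReal (1 - t) * zL V j x + ENNReal.ofReal t * zL V j y := by
  have a0 : ENNReal.ofReal (1 - t) ≠ 0 := by
    rw [Ne, ENNReal.ofReal_eq_zero, not_le]
    linarith
  have b0 : ENNReal.ofReal t ≠ 0 := by
    rw [Ne, ENNReal.ofReal_eq_zero, not_le]
    exact h0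
  conv_rhs => unfold zL
  rw [ENNReal.mul_iInf_of_ne a0 ENNReal.ofReal_ne_top, ENNReal.mul_iInf_of_ne b0 ENNReal.ofReal_ne_top,
    ENNReal.iInf_add]
  refine le_iInf fun s => ?_
  rw [ENNReal.add_iInf]
  refine le_iInf fun s' => ?_
  refine (zL_le V j _ ((1 - t) * s + t * s')).trans ?_
  have h2 := hV.conv s s' t h0 h1
  have h3 : ENNReal.ofReal (j * |(1 - t) * x + t * y - ((1 - t) * s + t * s')|) ≤
      ENNReal.ofReal (1 - t) * ENNReal.ofReal (j * |x - s|) +
        ENNReal.ofReal t * ENNReal.ofReal (j * |y - s'|) := by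
    rw [← ENNReal.ofReal_mul (by linarith), ← ENNReal.ofReal_mul h0.le,
      ← ENNReal.ofReal_add (mul_nonneg (by linarith) (by positivity)) (by positivity)]
    apply ENNReal.ofReal_le_ofReal
    have h4 : (1 - t) * x + t * y - ((1 - t) * s + t * s') = (1 - t) * (x - s) + t * (y - s') := by
      ring
    rw [h4]
    have h5 : |(1 - t) * (x - s) + t * (y - s')| ≤ (1 - t) * |x - s| + t * |y - s'| := by
      refine (abs_add_le _ _).trans ?_
      rw [abs_mul, abs_mul, abs_of_pos h0, abs_of_pos (by linarith : 0 < 1 - t)]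
    have h6 := mul_le_mul_of_nonneg_left h5 (Nat.cast_nonneg (α := ℝ) j)
    linarith
  calc V ((1 - t) * s + t * s') + ENNReal.ofReal (j * |(1 - t) * x + t * y - ((1 - t) * s + t * s')|)
      ≤ (ENNReal.ofReal (1 - t) * V s + ENNReal.ofReal t * V s') +
        (ENNReal.ofReal (1 - t) * ENNReal.ofReal (j * |x - s|) +
        ENNReal.ofReal t * ENNReal.ofReal (j * |y - s'|)) := add_le_add h2 h3
    _ = _ := by ring

theorem zL_tendsto {V : ℝ → ℝ≥0∞} (hV : LowerSemicontinuous V) (t : ℝ) :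
    Tendsto (fun j => zL V j t) atTop (𝓝 (V t)) := by
  rw [tendsto_order]
  constructor
  · intro c hc
    obtain ⟨c', hc1, hc2⟩ := exists_between hc
    have hc'f : c' ≠ ⊤ := (lt_of_lt_of_le hc2 le_top).ne
    obtain ⟨δ, hδ, hball⟩ := Metric.mem_nhds_iff.1 (hV t c' hc2)
    obtain ⟨j0, hj0⟩ := exists_nat_gt (c'.toReal / δ)
    filter_upwards [eventually_ge_atTop j0] with j hj
    refine lt_of_lt_of_le hc1 (le_iInf fun s => ?_)
    by_cases hs : |t - s| < δ
    · have h1 : s ∈ Metric.ball t δ := by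
        rw [Metric.mem_ball, Real.dist_eq, abs_sub_comm]
        exact hs
      have h2 : c' < V s := hball h1
      exact h2.le.trans le_self_add
    · push Not at hs
      have h1 : (j0 : ℝ) ≤ j := by exact_mod_cast hj
      have h2 : c'.toReal ≤ j * |t - s| := by
        rw [div_lt_iff₀ hδ] at hj0
        have h3 : (j0 : ℝ) * δ ≤ j * |t - s| := mul_le_mul h1 hs hδ.le (Nat.cast_nonneg _)
        linarith
      calc c' = ENNReal.ofReal c'.toReal := (ENNReal.ofReal_toReal hc'f).symm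
        _ ≤ ENNReal.ofReal (j * |t - s|) := ENNReal.ofReal_le_ofReal h2
        _ ≤ _ := le_add_self
  · intro c hc
    exact Eventually.of_forall fun j => lt_of_le_of_lt (zL_le_self V j t) hc

/-- the regularised functions, real valued -/
noncomputable def zV {n : ℕ} (V : Fin n → ℝ → ℝ≥0∞) (j : ℕ) : Fin n → ℝ → ℝ :=
  fun i t => (zL (V i) j t).toReal

theorem zV_convex {n : ℕ} {V : Fin n → ℝ → ℝ≥0∞} (hV : ∀ i, XV (V i)) {x0 : Fin n → ℝ}
    (h0 : ∀ i, V i (x0 i) ≠ ⊤) (j : ℕ) (i : Fin n) : ConvexOn ℝ univ (zV V j i) := by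
  refine ⟨convex_univ, fun x _ y _ a b ha hb hab => ?_⟩
  rcases ha.eq_or_lt with rfl | ha'
  · have : b = 1 := by linarith
    subst this
    simp
  rcases hb.eq_or_lt with rfl | hb'
  · have : a = 1 := by linarith
    subst this
    simp
  have ha1 : a = 1 - b := by linarith
  subst ha1
  have h1 := zL_conv (hV i) j x y b hb' (by linarith)
  have hx := zL_fin (h0 i) j x
  have hy := zL_fin (h0 i) j y
  unfold zV
  simp only [smul_eq_mul]
  have h2 := ENNReal.toReal_mono (ENNReal.add_ne_top.2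
    ⟨ENNReal.mul_ne_top ENNReal.ofReal_ne_top hx, ENNReal.mul_ne_top ENNReal.ofReal_ne_top hy⟩) h1
  rw [ENNReal.toReal_add (ENNReal.mul_ne_top ENNReal.ofReal_ne_top hx)
    (ENNReal.mul_ne_top ENNReal.ofReal_ne_top hy), ENNReal.toReal_mul, ENNReal.toReal_mul,
    ENNReal.toReal_ofReal ha'.le, ENNReal.toReal_ofReal hb'.le] at h2
  exact h2

theorem zV_SV {n : ℕ} {V : Fin n → ℝ → ℝ≥0∞} {x0 : Fin n → ℝ} (h0 : ∀ i, V i (x0 i) ≠ ⊤)
    (j : ℕ) (x : Eu (Fin n)) : ENNReal.ofReal (SV (zV V j) x) = ∑ i, zL (V i) j (x i) := by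
  unfold SV zV
  rw [← ENNReal.toReal_sum fun i _ => zL_fin (h0 i) j (x i), ENNReal.ofReal_toReal]
  exact ENNReal.sum_ne_top.2 fun i _ => zL_fin (h0 i) j (x i)

theorem zV_nonneg {n : ℕ} (V : Fin n → ℝ → ℝ≥0∞) (j : ℕ) (x : Eu (Fin n)) :
    0 ≤ SV (zV V j) x := Finset.sum_nonneg fun _ _ => ENNReal.toReal_nonneg

theorem zV_le {n : ℕ} {V : Fin n → ℝ → ℝ≥0∞} {x0 : Fin n → ℝ} (h0 : ∀ i, V i (x0 i) ≠ ⊤)
    (j : ℕ) (x : Eu (Fin n)) {E : ℝ≥0∞} (hE : E ≠ ⊤) :
    SV (zV V j) x ≤ E.toReal ↔ ∑ i, zL (V i) j (x i) ≤ E := by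
  rw [← zV_SV h0, ENNReal.ofReal_le_iff_le_toReal hE]

theorem zV_lt {n : ℕ} {V : Fin n → ℝ → ℝ≥0∞} {x0 : Fin n → ℝ} (h0 : ∀ i, V i (x0 i) ≠ ⊤)
    (j : ℕ) (x : Eu (Fin n)) {E : ℝ≥0∞} (hE : E ≠ ⊤) :
    E.toReal < SV (zV V j) x ↔ E < ∑ i, zL (V i) j (x i) := by
  rw [← not_le, ← not_le, zV_le h0 j x hE]

theorem z_ev {n : ℕ} {V : Fin n → ℝ → ℝ≥0∞} (hV : ∀ i, XV (V i)) {x0 : Fin n → ℝ}
    (h0 : ∀ i, V i (x0 i) ≠ ⊤) {E : ℝ≥0∞} (hE : E ≠ ⊤) {x : Eu (Fin n)} (hx : x ∉ KX V E) :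
    ∀ᶠ j in atTop, E.toReal < SV (zV V j) x := by
  have h1 : E < ∑ i, V i (x i) := not_le.1 hx
  have h2 : Tendsto (fun j => ∑ i, zL (V i) j (x i)) atTop (𝓝 (∑ i, V i (x i))) :=
    tendsto_finsetSum _ fun i _ => zL_tendsto (hV i).lsc (x i)
  filter_upwards [h2.eventually_const_lt h1] with j hj
  exact (zV_lt h0 j x hE).2 hj

theorem z_sub {n : ℕ} {V : Fin n → ℝ → ℝ≥0∞} {x0 : Fin n → ℝ}
    (h0 : ∀ i, V i (x0 i) ≠ ⊤) {E : ℝ≥0∞} (hE : E ≠ ⊤) (j : ℕ) :
    KX V E ⊆ KV (zV V j) E.toReal := by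
  intro x hx
  exact (zV_le h0 j x hE).2 ((Finset.sum_le_sum fun i _ => zL_le_self (V i) j (x i)).trans hx)

theorem z_anti {n : ℕ} {V : Fin n → ℝ → ℝ≥0∞} {x0 : Fin n → ℝ}
    (h0 : ∀ i, V i (x0 i) ≠ ⊤) {E : ℝ≥0∞} (hE : E ≠ ⊤) {j k : ℕ} (hjk : j ≤ k) :
    KV (zV V k) E.toReal ⊆ KV (zV V j) E.toReal := by
  intro x hx
  have h1 := (zV_le h0 k x hE).1 hx
  exact (zV_le h0 j x hE).2 ((Finset.sum_le_sum fun i _ => zL_mono (V i) hjk (x i)).trans h1)

theorem z_bounded {n : ℕ} {V : Fin n → ℝ → ℝ≥0∞} (hV : ∀ i, XV (V i)) {x0 : Eu (Fin n)}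
    (h0 : ∀ i, V i (x0 i) ≠ ⊤) {E : ℝ≥0∞} (hE : E ≠ ⊤) (hb : Bornology.IsBounded (KX V E))
    (hx0 : ∑ i, V i (x0 i) < E) : ∃ j0 : ℕ, Bornology.IsBounded (KV (zV V j0) E.toReal) := by
  obtain ⟨ρ, hρ, hsub⟩ := hb.subset_ball_lt 0 x0
  have hcont : ∀ j, Continuous (SV (zV V j)) := fun j => h_SV_cont (zV_convex hV h0 j)
  have hcov : Metric.sphere x0 ρ ⊆ ⋃ j : ℕ, {x | E.toReal < SV (zV V j) x} := by
    intro x hx
    rw [mem_iUnion]
    have hxK : x ∉ KX V E := by
      intro hcon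
      have := hsub hcon
      rw [Metric.mem_ball] at this
      rw [Metric.mem_sphere] at hx
      linarith
    exact (z_ev hV h0 hE hxK).exists
  have hdir : Directed (· ⊆ ·) (fun j : ℕ => {x : Eu (Fin n) | E.toReal < SV (zV V j) x}) := by
    apply Monotone.directed_le
    intro j k hjk x hx
    have hx' : E.toReal < SV (zV V j) x := hx
    show E.toReal < SV (zV V k) x
    by_contra hcon
    rw [not_lt] at hcon
    exact absurd (z_anti h0 hE hjk hcon) (not_le.2 hx')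
  obtain ⟨j0, hj0⟩ := (isCompact_sphere x0 ρ).elim_directed_cover _
    (fun j => isOpen_lt continuous_const (hcont j)) hcov hdir
  refine ⟨j0, Metric.isBounded_ball.subset (?_ : _ ⊆ Metric.ball x0 ρ)⟩
  intro x hx
  rw [Metric.mem_ball]
  by_contra hcon
  rw [not_lt] at hcon
  set r := dist x x0 with hr
  have hr0 : 0 < r := by linarith
  set t := ρ / r with ht
  have ht0 : 0 < t := by positivity
  have ht1 : t ≤ 1 := by
    rw [ht, div_le_one hr0]
    exact hcon
  have hy : (1 - t) • x0 + t • x ∈ Metric.sphere x0 ρ := by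
    rw [Metric.mem_sphere, dist_eq_norm]
    have e : (1 - t) • x0 + t • x - x0 = t • (x - x0) := by
      rw [sub_smul, one_smul, smul_sub]
      abel
    rw [e, norm_smul, Real.norm_eq_abs, abs_of_pos ht0, ← dist_eq_norm, ← hr, ht]
    field_simp
  have h1 : E.toReal < SV (zV V j0) ((1 - t) • x0 + t • x) := hj0 hy
  have h2 := h_SV_segment (zV_convex hV h0 j0) x0 x ht0.le ht1
  have h3 : SV (zV V j0) x ≤ E.toReal := hx
  have h4 : SV (zV V j0) x0 ≤ E.toReal :=
    z_sub h0 hE j0 (show x0 ∈ KX V E from hx0.le)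
  have h5 : (1 - t) * SV (zV V j0) x0 ≤ (1 - t) * E.toReal :=
    mul_le_mul_of_nonneg_left h4 (by linarith)
  have h6 : t * SV (zV V j0) x ≤ t * E.toReal := mul_le_mul_of_nonneg_left h3 ht0.le
  linarith

/-- OR-Z1 -/
theorem apz (h : S_LIMC) : S_APZ := by
  intro κ δ hκ H n V E hn hV hE hb hsl
  obtain ⟨x0, hx0i, hx0⟩ := hsl
  have h0 : ∀ i, V i (x0 i) ≠ ⊤ := fun i =>
    ne_top_of_le_ne_top (lt_of_lt_of_le hx0 le_top).ne
      (Finset.single_le_sum (f := fun i => V i (x0 i)) (fun _ _ => zero_le) (Finset.mem_univ i))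
  obtain ⟨j0, hj0⟩ := z_bounded hV h0 hE hb hx0
  have hcv : ∀ j i, ConvexOn ℝ univ (zV V j i) := fun j => zV_convex hV h0 j
  set K : Set (Eu (Fin n)) := KX V E with hK
  set Kj : ℕ → Set (Eu (Fin n)) := fun j => KV (zV V (j0 + j)) E.toReal with hKj
  have hcont : ∀ j, Continuous (SV (zV V j)) := fun j => h_SV_cont (hcv j)
  have hKjm : ∀ j, MeasurableSet (Kj j) := fun j =>
    (isClosed_le (hcont _) continuous_const).measurableSet
  have hKsub : ∀ j, K ⊆ Kj j := fun j => z_sub h0 hE _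
  have hKm : MeasurableSet K := by
    have : K = ⋂ j, Kj j := by
      apply Subset.antisymm (subset_iInter hKsub)
      intro x hx
      by_contra hcon
      obtain ⟨j, hj⟩ := eventually_atTop.1 (z_ev hV h0 hE hcon)
      have h1 := hj (j0 + j) (Nat.le_add_left _ _)
      have h2 : SV (zV V (j0 + j)) x ≤ E.toReal := mem_iInter.1 hx j
      linarith
    rw [this]
    exact MeasurableSet.iInter hKjm
  have hmono : ∀ j, Kj j ⊆ KV (zV V j0) E.toReal := fun j => z_anti h0 hE (Nat.le_add_right _ _)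
  have hKjb : ∀ j, Bornology.IsBounded (Kj j) := fun j => hj0.subset (hmono j)
  have hcc : ∀ j, Cc κ δ (ind (Kj j)) := by
    intro j
    refine H n (zV V (j0 + j)) hn (hcv _) E.toReal (hKjb j) ⟨x0, ?_⟩
    have h1 : ∑ i, zL (V i) (j0 + j) (x0 i) < E :=
      lt_of_le_of_lt (Finset.sum_le_sum fun i _ => zL_le_self (V i) _ (x0 i)) hx0
    rw [← zV_SV h0] at h1
    exact (ENNReal.ofReal_lt_iff_lt_toReal (zV_nonneg V _ x0) hE).1 h1
  have hpos : 0 < ∫ x, ind K x := by
    have hvpos : 0 < volume K :=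
      lt_of_lt_of_le (isOpen_interior.measure_pos volume ⟨x0, hx0i⟩) (measure_mono interior_subset)
    have hvfin : volume K < ∞ := hb.measure_lt_top
    unfold ind
    rw [integral_indicator hKm, setIntegral_const, smul_eq_mul, mul_one]
    exact ENNReal.toReal_pos hvpos.ne' hvfin.ne
  refine h n κ δ (ind K) (fun j => ind (Kj j)) hκ (h_integrable hKm hb) hpos
    (fun j => h_integrable (hKjm j) (hKjb j)) ?_ (Eventually.of_forall hcc)
  -- convergence
  have hlim : Tendsto (fun j => ∫ x, (1 + ‖x‖ ^ 2) * |ind (Kj j) x - ind K x|) atTop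
      (𝓝 (∫ _x : Eu (Fin n), (0 : ℝ))) := by
    have hj0m : MeasurableSet (KV (zV V j0) E.toReal) :=
      (isClosed_le (hcont _) continuous_const).measurableSet
    have hdiff : ∀ j x, ind (Kj j) x - ind K x = ind (Kj j \ K) x := by
      intro j x
      unfold ind
      by_cases h1 : x ∈ K
      · have h2 := hKsub j h1
        rw [indicator_of_mem h2, indicator_of_mem h1, indicator_of_notMem (by simp [h1])]
        ring
      · by_cases h2 : x ∈ Kj j
        · rw [indicator_of_mem h2, indicator_of_notMem h1,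
            indicator_of_mem (show x ∈ Kj j \ K from ⟨h2, h1⟩)]
          ring
        · rw [indicator_of_notMem h2, indicator_of_notMem h1, indicator_of_notMem (by simp [h2])]
          ring
    have hind : ∀ (S : Set (Eu (Fin n))) x, 0 ≤ ind S x := fun S x =>
      indicator_nonneg (fun _ _ => zero_le_one) x
    refine tendsto_integral_of_dominated_convergence
      (fun x => (1 + ‖x‖ ^ 2) * ind (KV (zV V j0) E.toReal) x) (fun j => ?_)
      (h_integrable hj0m hj0) (fun j => Eventually.of_forall fun x => ?_)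
      (Eventually.of_forall fun x => ?_)
    · have e : (fun x => (1 + ‖x‖ ^ 2) * |ind (Kj j) x - ind K x|)
          = fun x => (1 + ‖x‖ ^ 2) * ind (Kj j \ K) x := by
        funext x
        rw [hdiff, abs_of_nonneg (hind _ _)]
      rw [e]
      exact (h_integrable ((hKjm j).diff hKm) ((hKjb j).subset sdiff_subset)).aestronglyMeasurable
    · rw [Real.norm_eq_abs, hdiff, abs_mul, abs_abs, abs_of_nonneg (hind _ _),
        abs_of_pos (by positivity)]
      apply mul_le_mul_of_nonneg_left _ (by positivity)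
      unfold ind
      exact indicator_le_indicator_of_subset (sdiff_subset.trans (hmono j))
        (fun _ => zero_le_one) x
    · apply tendsto_const_nhds.congr'
      have hev : ∀ᶠ j in atTop, x ∉ Kj j \ K := by
        by_cases h1 : x ∈ K
        · exact Eventually.of_forall fun j hj => hj.2 h1
        · obtain ⟨k, hk⟩ := eventually_atTop.1 (z_ev hV h0 hE h1)
          filter_upwards [eventually_ge_atTop k] with j hj hj2
          have h3 := hk (j0 + j) (hj.trans (Nat.le_add_left _ _))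
          have h4 : SV (zV V (j0 + j)) x ≤ E.toReal := hj2.1
          linarith
      filter_upwards [hev] with j hj
      rw [hdiff]
      unfold ind
      rw [indicator_of_notMem hj]
      simp
  simpa using hlim

end Pool.Agent.R476.OR
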