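import Pool.Agent.R476.OR.Stm3

/-!
# OR-Z2 (helper584): convex functions with values in `[0, ∞]`: basic properties and the degenerate case
-/

set_option autoImplicit false

namespace Pool.Agent.R476.OR

open MeasureTheory Set Filter Topology
open scoped ENNReal InnerProductSpace
open Pool.Agent.W695.KH (Eu)

namespace Z2

variable {n : ℕ} {V : Fin n → ℝ → ℝ≥0∞}

theorem S_conv (hV : ∀ i, XV (V i)) (x y : Eu (Fin n)) {a b : ℝ} (ha : 0 < a) (hb : 0 < b)
    (hab : a + b = 1) : ∑ i, V i ((a • x + b • y) i) ≤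
      ENNReal.ofReal a * ∑ i, V i (x i) + ENNReal.ofReal b * ∑ i, V i (y i) := by
  rw [Finset.mul_sum, Finset.mul_sum, ← Finset.sum_add_distrib]
  refine Finset.sum_le_sum fun i _ => ?_
  have h := (hV i).conv (x i) (y i) b hb (by linarith)
  have ha' : 1 - b = a := by linarith
  rw [ha'] at h
  simpa using h

theorem isClosed_KX (hV : ∀ i, XV (V i)) (E : ℝ≥0∞) : IsClosed (KX V E) := by
  have h : LowerSemicontinuous (fun x : Eu (Fin n) => ∑ i, V i (x i)) := by
    refine lowerSemicontinuous_sum fun i _ => ?_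
    have hc : Continuous (fun x : Eu (Fin n) => x i) := by fun_prop
    exact LowerSemicontinuous.comp (hV i).lsc hc
  exact h.isClosed_preimage E

theorem convex_KX (hV : ∀ i, XV (V i)) (E : ℝ≥0∞) : Convex ℝ (KX V E) := by
  rw [convex_iff_forall_pos]
  intro x hx y hy a b ha hb hab
  change ∑ i, V i ((a • x + b • y) i) ≤ E
  refine (S_conv hV x y ha hb hab).trans ?_
  have hx' : ∑ i, V i (x i) ≤ E := hx
  have hy' : ∑ i, V i (y i) ≤ E := hy
  calc ENNReal.ofReal a * ∑ i, V i (x i) + ENNReal.ofReal b * ∑ i, V i (y i)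
      ≤ ENNReal.ofReal a * E + ENNReal.ofReal b * E := by gcongr
    _ = E := by
      rw [← add_mul, ← ENNReal.ofReal_add ha.le hb.le, hab, ENNReal.ofReal_one, one_mul]

theorem quasi {W : ℝ → ℝ≥0∞} (hW : XV W) (c : ℝ≥0∞) : ({t | W t ≤ c} : Set ℝ).OrdConnected := by
  refine ⟨fun s hs t ht u hu => ?_⟩
  change W u ≤ c
  rcases eq_or_lt_of_le hu.1 with h1 | h1
  · rw [← h1]; exact hs
  rcases eq_or_lt_of_le hu.2 with h2 | h2
  · rw [h2]; exact ht
  have hst : 0 < t - s := by linarith
  have hb0 : 0 < (u - s) / (t - s) := div_pos (by linarith) hst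
  have hb1 : (u - s) / (t - s) < 1 := by rw [div_lt_one hst]; linarith
  have h := hW.conv s t ((u - s) / (t - s)) hb0 hb1
  have he : (1 - (u - s) / (t - s)) * s + (u - s) / (t - s) * t = u := by
    field_simp
    ring
  rw [he] at h
  refine h.trans ?_
  have hs' : W s ≤ c := hs
  have ht' : W t ≤ c := ht
  calc ENNReal.ofReal (1 - (u - s) / (t - s)) * W s + ENNReal.ofReal ((u - s) / (t - s)) * W t
      ≤ ENNReal.ofReal (1 - (u - s) / (t - s)) * c + ENNReal.ofReal ((u - s) / (t - s)) * c := by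
        gcongr
    _ = c := by
      rw [← add_mul, ← ENNReal.ofReal_add (by linarith) hb0.le, sub_add_cancel,
        ENNReal.ofReal_one, one_mul]

/-- a strict convex combination bound -/
theorem half_lt {A B : ℝ≥0∞} (hA : A ≠ ⊤) (hBA : B < A) {a b : ℝ} (ha : 0 < a) (hb : 0 < b)
    (hab : a + b = 1) : ENNReal.ofReal a * A + ENNReal.ofReal b * B < A := by
  have h1 : ENNReal.ofReal b * B < ENNReal.ofReal b * A :=
    ENNReal.mul_lt_mul_right (by simpa using hb) ENNReal.ofReal_ne_top hBA
  calc ENNReal.ofReal a * A + ENNReal.ofReal b * B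
      < ENNReal.ofReal a * A + ENNReal.ofReal b * A :=
        ENNReal.add_lt_add_left (ENNReal.mul_ne_top ENNReal.ofReal_ne_top hA) h1
    _ = A := by
      rw [← add_mul, ← ENNReal.ofReal_add ha.le hb.le, hab, ENNReal.ofReal_one, one_mul]

end Z2

open Z2 in
theorem box : S_BOX := by
  intro n V E hV
  refine ⟨isClosed_KX hV E, convex_KX hV E, ?_⟩
  intro hE hne hint
  obtain ⟨x0, hx0⟩ := hne
  have hK := convex_KX hV E
  have hx0K : ∑ i, V i (x0 i) ≤ E := (interior_subset hx0 : x0 ∈ KX V E)
  have hSx0 : ∑ i, V i (x0 i) = E := le_antisymm hx0K (hint x0 hx0)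
  have hfin : ∀ i, V i (x0 i) ≠ ⊤ := by
    intro i
    have h1 : V i (x0 i) ≤ ∑ i, V i (x0 i) :=
      Finset.single_le_sum (f := fun i => V i (x0 i)) (fun _ _ => zero_le) (Finset.mem_univ i)
    rw [hSx0] at h1
    exact ne_top_of_le_ne_top hE h1
  have hSy : ∀ y ∈ KX V E, ∑ i, V i (y i) = E := by
    intro y hy
    refine le_antisymm hy ?_
    by_contra hlt
    rw [not_le] at hlt
    have hz : (1 / 2 : ℝ) • x0 + (1 / 2 : ℝ) • y ∈ interior (KX V E) :=
      hK.combo_interior_self_mem_interior hx0 hy (by norm_num) (by norm_num) (by norm_num)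
    have h1 := hint _ hz
    have h2 := S_conv hV x0 y (a := 1 / 2) (b := 1 / 2) (by norm_num) (by norm_num) (by norm_num)
    rw [hSx0] at h2
    have h3 := half_lt hE hlt (a := 1 / 2) (b := 1 / 2) (by norm_num) (by norm_num) (by norm_num)
    exact absurd (h1.trans h2) (not_le.2 h3)
  refine ⟨fun i => {t | V i t ≤ V i (x0 i)}, fun i => (hV i).lsc.isClosed_preimage _,
    fun i => quasi (hV i) _, ?_⟩
  apply Set.Subset.antisymm
  · intro y hy i
    change V i (y i) ≤ V i (x0 i)
    by_contra hlt
    rw [not_le] at hlt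
    have hex : ∃ j, V j (y j) < V j (x0 j) := by
      by_contra hcon
      push Not at hcon
      have h1 : ∑ i, V i (x0 i) < ∑ i, V i (y i) := by
        rw [← Finset.add_sum_erase _ (fun i => V i (x0 i)) (Finset.mem_univ i),
          ← Finset.add_sum_erase _ (fun i => V i (y i)) (Finset.mem_univ i)]
        refine ENNReal.add_lt_add_of_lt_of_le ?_ hlt (Finset.sum_le_sum fun j _ => hcon j)
        exact (ENNReal.sum_ne_top.2 fun j _ => hfin j)
      rw [hSx0, hSy y hy] at h1
      exact lt_irrefl _ h1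
    obtain ⟨j, hj⟩ := hex
    -- the path
    let g : ℝ → Eu (Fin n) := fun t => x0 + (t * (y j - x0 j)) • EuclideanSpace.single j (1 : ℝ)
    have hg0 : g 0 = x0 := by simp [g]
    have hgc : Continuous g := by fun_prop
    have hev : ∀ᶠ t in 𝓝 (0 : ℝ), g t ∈ interior (KX V E) := by
      have : g 0 ∈ interior (KX V E) := by rw [hg0]; exact hx0
      exact hgc.continuousAt.eventually (isOpen_interior.mem_nhds this)
    obtain ⟨e, he, hball⟩ := Metric.eventually_nhds_iff.1 hev
    let t : ℝ := min (e / 2) (1 / 2)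
    have ht0 : 0 < t := lt_min (by linarith) (by norm_num)
    have ht1 : t < 1 := lt_of_le_of_lt (min_le_right _ _) (by norm_num)
    have hte : t < e := lt_of_le_of_lt (min_le_left _ _) (by linarith)
    have hgt := hball (y := t) (by rw [Real.dist_eq, sub_zero, abs_of_pos ht0]; exact hte)
    have h1 := hint _ hgt
    have hgi : ∀ i, g t i = if i = j then (1 - t) * x0 j + t * y j else x0 i := by
      intro i
      simp only [g, PiLp.add_apply, PiLp.smul_apply, PiLp.single_apply, smul_eq_mul]
      split_ifs with h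
      · rw [h]; ring
      · ring
    have h2 : ∑ i, V i (g t i) < ∑ i, V i (x0 i) := by
      rw [← Finset.add_sum_erase _ (fun i => V i (g t i)) (Finset.mem_univ j),
        ← Finset.add_sum_erase _ (fun i => V i (x0 i)) (Finset.mem_univ j)]
      have h3 : ∑ i ∈ Finset.univ.erase j, V i (g t i) =
          ∑ i ∈ Finset.univ.erase j, V i (x0 i) := by
        refine Finset.sum_congr rfl fun i hi => ?_
        rw [hgi, if_neg (Finset.ne_of_mem_erase hi)]
      rw [h3]
      refine ENNReal.add_lt_add_right (ENNReal.sum_ne_top.2 fun j _ => hfin j) ?_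
      rw [hgi, if_pos rfl]
      refine lt_of_le_of_lt ((hV j).conv (x0 j) (y j) t ht0 ht1) ?_
      exact half_lt (hfin j) hj (by linarith) ht0 (by ring)
    rw [hSx0] at h2
    exact absurd h1 (not_le.2 h2)
  · intro y hy
    change ∑ i, V i (y i) ≤ E
    rw [← hSx0]
    exact Finset.sum_le_sum fun i _ => hy i

end Pool.Agent.R476.OR
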