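import Pool.Agent.R476.OR.J2
import Pool.Agent.R476.OR.K
import Pool.Agent.R476.OR.Stm2
import Pool.Agent.R476.OR.Stm3
import Pool.Agent.R476.OR.A
import Pool.Agent.R476.OR.B
import Pool.Agent.R634.ORC
import Pool.Agent.R476.OR.D
import Pool.Agent.R834.OR.E2
import Pool.Agent.R476.OR.F
import Pool.Agent.R476.OR.G
import Pool.Agent.R476.OR.E1
import Pool.Agent.R476.OR.Z1
import Pool.Agent.R476.OR.Z2
import Pool.Agent.Y506.PV.Fin

/-!
# Project OR: final forms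
-/

set_option autoImplicit false

namespace Pool.Agent.R476.OR

open MeasureTheory Set Filter Topology
open scoped ENNReal InnerProductSpace
open Pool.Agent.W695.KH (Eu)
open Pool.Agent.Y506.RG (Adm Star)

theorem m4r : S_M4R := by
  obtain ⟨C, hC, H⟩ := Pool.Agent.Y252.PV.M4.m4 Pool.Agent.Y625.PV.lev
  exact ⟨C, hC, fun n w h0 hm hi hp hl => H n w ⟨h0, hi, hp, hm⟩ hl⟩

theorem limc : S_LIMC := Pool.Agent.Y824.PV.limc

theorem ccg1 (hg : S_GTW) : S_CCG :=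
  have hcov := Pool.Agent.R834.OR.cov hg (plw two)
  have hsti := sti fld two (Pool.Agent.R634.ORC.ibp two) (plw two)
  ccg nrm (ccn Pool.Agent.Y445.RG.varr Pool.Agent.Y849.RG.one1 fld hsti hcov)
    fun _ _ _ hV _ hE => adm_K hV hE

/-- generalised Orlicz bodies -/
def Orl {m : ℕ} (K : Set (Eu (Fin m))) : Prop :=
  Bornology.IsBounded K ∧ (interior K).Nonempty ∧ ∃ (V : Fin m → ℝ → ℝ≥0∞) (E : ℝ≥0∞),
    (∀ i, XV (V i)) ∧ K = KX V E

theorem Orl.prop (hb : S_BOX) {m : ℕ} {K : Set (Eu (Fin m))} (h : Orl K) :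
    IsCompact K ∧ Convex ℝ K ∧ (interior K).Nonempty := by
  obtain ⟨h1, h2, V, E, hV, rfl⟩ := h
  obtain ⟨h3, h4, -⟩ := hb m V E hV
  exact ⟨Metric.isCompact_of_isClosed_isBounded h3 h1, h4, h2⟩

/-- concentration -/
theorem cc_orl (hg : S_GTW) (hz : S_APZ) (hb : S_BOX) (δ : ℝ) (hδ : 0 < δ) :
    ∃ κ : ℝ, 0 < κ ∧ ∀ (m : ℕ) (K : Set (Eu (Fin m))), 1 ≤ m → Orl K →
    Pool.Agent.Y506.PV.CcW κ δ (Pool.Agent.Y506.PV.ind K) := by
  obtain ⟨κ1, hκ1, H1⟩ := ccg1 hg δ hδ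
  obtain ⟨κ2, hκ2, H2⟩ := Pool.Agent.Y506.PV.cc_base Pool.Agent.Y506.PV.ccl
    Pool.Agent.Y363.PV.phis Pool.Agent.Y506.PV.radR Pool.Agent.Y211.PV.iso 0 0 1 le_rfl δ hδ
  have H3 := apx limc κ1 δ hκ1 H1
  have H4 := hz (κ1 / 2) δ (by positivity) H3
  refine ⟨min (κ1 / 2 / 2) κ2, lt_min (by positivity) hκ2, fun m K hm hK => ?_⟩
  obtain ⟨h1, h2, V, E, hV, rfl⟩ := hK
  have hE : E ≠ ⊤ := by
    rintro rfl
    have h3 : (KX V ⊤ : Set (Eu (Fin m))) = univ := by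
      ext x
      simp [KX]
    rw [h3] at h1
    have hnt : Nontrivial (Eu (Fin m)) := by
      have : Nonempty (Fin m) := ⟨⟨0, hm⟩⟩
      infer_instance
    exact NormedSpace.unbounded_univ ℝ (Eu (Fin m)) h1
  by_cases hS : ∃ x ∈ interior (KX V E), ∑ i, V i (x i) < E
  · exact Pool.Agent.Y506.PV.CcW.mono (min_le_left _ _) (H4 m V E hm hV hE h1 hS)
  · push Not at hS
    obtain ⟨-, -, h4⟩ := hb m V E hV
    obtain ⟨I, hI1, hI2, hI⟩ := h4 hE h2 hS
    refine Pool.Agent.Y506.PV.CcW.mono (min_le_right _ _) (H2 m _ hm ⟨h1, h2, Or.inl ⟨m, le_rfl,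
      fun i => EuclideanSpace.single i 1, I, hI1, hI2, ?_⟩⟩)
    rw [hI]
    ext x
    simp [EuclideanSpace.inner_single_left]

/-- **the functional inequality for images of generalised Orlicz bodies** -/
theorem star_orl (hg : S_GTW) (hz : S_APZ) (hb : S_BOX) (r : ℕ) :
    ∃ c : ℝ, 0 < c ∧ ∀ (n m : ℕ) (K : Set (Eu (Fin m))) (A : Eu (Fin m) →ₗ[ℝ] Eu (Fin n)),
    1 ≤ n → m ≤ n + r → Orl K → Function.Surjective A → IsCompact (A '' K) ∧
    Convex ℝ (A '' K) ∧ (interior (A '' K)).Nonempty ∧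
    Star c (Pool.Agent.Y506.PV.ind (A '' K)) := by
  obtain ⟨c, hc, H⟩ := Pool.Agent.Y506.RG.max_const (fun d c => ∀ (n : ℕ)
      (K : Set (Eu (Fin (n + d)))) (A : Eu (Fin (n + d)) →ₗ[ℝ] Eu (Fin n)), 1 ≤ n → Orl K →
      Function.Surjective A → Star c (Pool.Agent.Y506.PV.ind (A '' K)))
    (fun d => by
      obtain ⟨δ0, c0, hδ0, hc0, H0⟩ := Pool.Agent.Y506.PV.cc_img Pool.Agent.Y941.PV.prj
        Pool.Agent.Y506.PV.denR Pool.Agent.Y388.PV.cmp Pool.Agent.Y388.PV.fac d (1 / 25)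
        (by norm_num)
      obtain ⟨κ, hκ, H1⟩ := cc_orl hg hz hb δ0 hδ0
      obtain ⟨c, hc, H2⟩ := Pool.Agent.Y506.PV.stb Pool.Agent.Y211.PV.iso (c0 * κ) (by positivity)
      refine ⟨c, hc, fun n K A hn hK hA => ?_⟩
      obtain ⟨hcp, hcv, hint⟩ := hK.prop hb
      have hAc : Continuous A := A.continuous_of_finiteDimensional
      exact H2 n (A '' K) (hcp.image hAc) (hcv.linear_image A)
        (Pool.Agent.Y506.PV.int_image hint A hA)
        (H0 n κ K A hκ hcp hcv hint hA (H1 (n + d) K (by omega) hK)))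
    (fun d c c' hcc h n K A hn hK hA => Pool.Agent.Y506.RG.Star.mono hcc
      (fun x => indicator_nonneg (fun _ _ => zero_le_one) x) (h n K A hn hK hA)) r
  refine ⟨c, hc, fun n m K A hn hm hK hA => ?_⟩
  have hnm : n ≤ m := by
    have := LinearMap.finrank_le_finrank_of_surjective (f := A) hA
    simpa using this
  obtain ⟨d, rfl⟩ : ∃ d, m = n + d := ⟨m - n, by omega⟩
  obtain ⟨hcp, hcv, hint⟩ := hK.prop hb
  have hAc : Continuous A := A.continuous_of_finiteDimensional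
  exact ⟨hcp.image hAc, hcv.linear_image A, Pool.Agent.Y506.PV.int_image hint A hA,
    H d (by omega) n K A hn hK hA⟩

/-- final form -/
theorem fin_orl (r : ℕ) : ∃ c : ℝ, 0 < c ∧
    ∀ (n m : ℕ) (K : Set (Eu (Fin m))) (A : Eu (Fin m) →ₗ[ℝ] Eu (Fin n)),
    1 ≤ n → m ≤ n + r → Orl K → Function.Surjective A → IsCompact (A '' K) ∧
    Convex ℝ (A '' K) ∧ (interior (A '' K)).Nonempty ∧
    Star c (Pool.Agent.Y506.PV.ind (A '' K)) :=
  star_orl (gtw two m4r) (apz limc) box r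

end Pool.Agent.R476.OR
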