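import Pool.Agent.R476.OR.Stm

/-!
# OR-H: interval constraints by penalisation
-/

set_option autoImplicit false

namespace Pool.Agent.R476.OR

open MeasureTheory Set Filter Topology
open scoped ENNReal InnerProductSpace
open Pool.Agent.W695.KH (Eu)
open Pool.Agent.Y506.RG (ND OB EW VW)

theorem h_infDist_convex {S : Set ℝ} (hS : IsClosed S) (hne : S.Nonempty) (hc : Convex ℝ S) :
    ConvexOn ℝ univ (fun t => Metric.infDist t S) := by
  refine ⟨convex_univ, fun x _ y _ a b ha hb hab => ?_⟩
  obtain ⟨p, hp, hp2⟩ := hS.exists_infDist_eq_dist hne x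
  obtain ⟨q, hq, hq2⟩ := hS.exists_infDist_eq_dist hne y
  have h1 : Metric.infDist (a • x + b • y) S ≤ dist (a • x + b • y) (a • p + b • q) :=
    Metric.infDist_le_dist_of_mem (hc hp hq ha hb hab)
  refine h1.trans ?_
  beta_reduce
  rw [hp2, hq2]
  simp only [smul_eq_mul, Real.dist_eq]
  have e : a * x + b * y - (a * p + b * q) = a * (x - p) + b * (y - q) := by ring
  rw [e]
  refine (abs_add_le _ _).trans ?_
  rw [abs_mul, abs_mul, abs_of_nonneg ha, abs_of_nonneg hb]

/-- penalised functions -/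
noncomputable def hV {n : ℕ} (V : Fin n → ℝ → ℝ) (I : Fin n → Set ℝ) (j : ℕ) :
    Fin n → ℝ → ℝ := fun i t => V i t + (j : ℝ) * Metric.infDist t (I i)

noncomputable def hD {n : ℕ} (I : Fin n → Set ℝ) (x : Eu (Fin n)) : ℝ :=
  ∑ i, Metric.infDist (x i) (I i)

theorem h_SV {n : ℕ} (V : Fin n → ℝ → ℝ) (I : Fin n → Set ℝ) (j : ℕ) (x : Eu (Fin n)) :
    SV (hV V I j) x = SV V x + (j : ℝ) * hD I x := by
  unfold SV hV hD
  rw [Finset.sum_add_distrib, Finset.mul_sum]

theorem h_D_nonneg {n : ℕ} (I : Fin n → Set ℝ) (x : Eu (Fin n)) : 0 ≤ hD I x :=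
  Finset.sum_nonneg fun _ _ => Metric.infDist_nonneg

theorem h_D_zero {n : ℕ} {I : Fin n → Set ℝ} {x : Eu (Fin n)} (h : ∀ i, x i ∈ I i) :
    hD I x = 0 :=
  Finset.sum_eq_zero fun i _ => Metric.infDist_zero_of_mem (h i)

theorem h_D_pos {n : ℕ} {I : Fin n → Set ℝ} (hI : ∀ i, IsClosed (I i))
    (hne : ∀ i, (I i).Nonempty) {x : Eu (Fin n)} (h : ¬ ∀ i, x i ∈ I i) : 0 < hD I x := by
  push Not at h
  obtain ⟨i, hi⟩ := h
  refine Finset.sum_pos' (fun _ _ => Metric.infDist_nonneg) ⟨i, Finset.mem_univ _, ?_⟩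
  exact ((hI i).notMem_iff_infDist_pos (hne i)).1 hi

theorem h_SV_cont {n : ℕ} {V : Fin n → ℝ → ℝ} (hV : ∀ i, ConvexOn ℝ univ (V i)) :
    Continuous (SV V) := by
  have h1 : ∀ i, Continuous (V i) := fun i => by
    rw [← continuousOn_univ]
    exact (hV i).continuousOn isOpen_univ
  unfold SV
  refine continuous_finsetSum _ fun i _ => (h1 i).comp ?_
  fun_prop

theorem h_D_cont {n : ℕ} (I : Fin n → Set ℝ) : Continuous (hD I) := by
  unfold hD
  refine continuous_finsetSum _ fun i _ => (Metric.continuous_infDist_pt (I i)).comp ?_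
  fun_prop

theorem h_convex {n : ℕ} {V : Fin n → ℝ → ℝ} {I : Fin n → Set ℝ}
    (hVc : ∀ i, ConvexOn ℝ univ (V i)) (hI : ∀ i, IsClosed (I i))
    (hne : ∀ i, (I i).Nonempty) (hc : ∀ i, (I i).OrdConnected) (j : ℕ) (i : Fin n) :
    ConvexOn ℝ univ (hV V I j i) := by
  have h1 := (h_infDist_convex (hI i) (hne i) (hc i).convex).smul (Nat.cast_nonneg (α := ℝ) j)
  exact (hVc i).add h1

theorem h_SV_segment {n : ℕ} {V : Fin n → ℝ → ℝ} (hV : ∀ i, ConvexOn ℝ univ (V i))
    (x y : Eu (Fin n)) {t : ℝ} (h0 : 0 ≤ t) (h1 : t ≤ 1) :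
    SV V ((1 - t) • x + t • y) ≤ (1 - t) * SV V x + t * SV V y := by
  unfold SV
  rw [Finset.mul_sum, Finset.mul_sum, ← Finset.sum_add_distrib]
  refine Finset.sum_le_sum fun i _ => ?_
  have := (hV i).2 (mem_univ (x i)) (mem_univ (y i)) (show 0 ≤ 1 - t by linarith) h0 (by ring)
  simpa [smul_eq_mul] using this

theorem h_bounded {n : ℕ} {V : Fin n → ℝ → ℝ} {I : Fin n → Set ℝ}
    (hVc : ∀ i, ConvexOn ℝ univ (V i)) (hI : ∀ i, IsClosed (I i))
    (hc : ∀ i, (I i).OrdConnected) {E : ℝ}
    (hb : Bornology.IsBounded (KV V E ∩ {x | ∀ i, x i ∈ I i})) {x0 : Eu (Fin n)}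
    (hx0 : SV V x0 < E) (hx0I : ∀ i, x0 i ∈ I i) :
    ∃ j0 : ℕ, Bornology.IsBounded (KV (hV V I j0) E) := by
  have hne : ∀ i, (I i).Nonempty := fun i => ⟨_, hx0I i⟩
  obtain ⟨ρ, hρ, hsub⟩ := hb.subset_ball_lt 0 x0
  have hcont : ∀ j, Continuous (SV (hV V I j)) := fun j =>
    h_SV_cont (h_convex hVc hI hne hc j)
  have hcov : Metric.sphere x0 ρ ⊆ ⋃ j : ℕ, {x | E < SV (hV V I j) x} := by
    intro x hx
    rw [mem_iUnion]
    by_cases hxI : ∀ i, x i ∈ I i
    · refine ⟨0, ?_⟩
      show E < SV (hV V I 0) x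
      rw [h_SV, h_D_zero hxI, mul_zero, add_zero]
      by_contra hcon
      rw [not_lt] at hcon
      have := hsub ⟨hcon, hxI⟩
      rw [Metric.mem_ball] at this
      rw [Metric.mem_sphere] at hx
      linarith
    · have hpos := h_D_pos hI hne hxI
      obtain ⟨j, hj⟩ := exists_nat_gt ((E - SV V x) / hD I x)
      refine ⟨j, ?_⟩
      show E < SV (hV V I j) x
      rw [h_SV]
      rw [div_lt_iff₀ hpos] at hj
      linarith
  have hdir : Directed (· ⊆ ·) (fun j : ℕ => {x : Eu (Fin n) | E < SV (hV V I j) x}) := by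
    apply Monotone.directed_le
    intro j k hjk x hx
    have hx' : E < SV (hV V I j) x := hx
    show E < SV (hV V I k) x
    rw [h_SV] at hx' ⊢
    have h1 : (j : ℝ) ≤ k := by exact_mod_cast hjk
    have := mul_le_mul_of_nonneg_right h1 (h_D_nonneg I x)
    linarith
  obtain ⟨j0, hj0⟩ := (isCompact_sphere x0 ρ).elim_directed_cover _
    (fun j => isOpen_lt continuous_const (hcont j)) hcov hdir
  refine ⟨j0, Metric.isBounded_ball.subset (?_ : _ ⊆ Metric.ball x0 ρ)⟩
  intro x hx
  rw [Metric.mem_ball]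
  by_contra hcon
  rw [not_lt] at hcon
  set r := dist x x0 with hr
  have hr0 : 0 < r := by linarith
  set t := ρ / r with ht
  have ht0 : 0 < t := by positivity
  have ht1 : t ≤ 1 := by
    rw [ht, div_le_one hr0]
    exact hcon
  have hy : (1 - t) • x0 + t • x ∈ Metric.sphere x0 ρ := by
    rw [Metric.mem_sphere, dist_eq_norm]
    have e : (1 - t) • x0 + t • x - x0 = t • (x - x0) := by
      rw [sub_smul, one_smul, smul_sub]
      abel
    rw [e, norm_smul, Real.norm_eq_abs, abs_of_pos ht0, ← dist_eq_norm, ← hr, ht]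
    field_simp
  have h1 : E < SV (hV V I j0) ((1 - t) • x0 + t • x) := hj0 hy
  have h2 := h_SV_segment (h_convex hVc hI hne hc j0) x0 x ht0.le ht1
  have h3 : SV (hV V I j0) x ≤ E := hx
  have h4 : SV (hV V I j0) x0 < E := by
    rw [h_SV, h_D_zero hx0I, mul_zero, add_zero]
    exact hx0
  have h5 : (1 - t) * SV (hV V I j0) x0 ≤ (1 - t) * E :=
    mul_le_mul_of_nonneg_left h4.le (by linarith)
  have h6 : t * SV (hV V I j0) x ≤ t * E := mul_le_mul_of_nonneg_left h3 ht0.le
  linarith

theorem h_integrable {n : ℕ} {K : Set (Eu (Fin n))} (hK : MeasurableSet K)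
    (hb : Bornology.IsBounded K) : Integrable (fun x => (1 + ‖x‖ ^ 2) * ind K x) := by
  have e : (fun x => (1 + ‖x‖ ^ 2) * ind K x) = K.indicator (fun x => 1 + ‖x‖ ^ 2) := by
    funext x
    unfold ind
    by_cases hx : x ∈ K
    · rw [indicator_of_mem hx, indicator_of_mem hx, mul_one]
    · rw [indicator_of_notMem hx, indicator_of_notMem hx, mul_zero]
  rw [e, integrable_indicator_iff hK]
  obtain ⟨ρ, hρ⟩ := hb.subset_closedBall 0
  have hc : Continuous (fun x : Eu (Fin n) => 1 + ‖x‖ ^ 2) := by fun_prop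
  exact (hc.continuousOn.integrableOn_compact (isCompact_closedBall 0 ρ)).mono_set hρ

theorem apy (h : S_LIMC) : S_APY := by
  intro κ δ hκ H n V I hn hVc hI hc E hb hsl
  obtain ⟨x0, hx0, hx0i⟩ := hsl
  have hx0I : ∀ i, x0 i ∈ I i := fun i => interior_subset (hx0i i)
  have hne : ∀ i, (I i).Nonempty := fun i => ⟨_, hx0I i⟩
  obtain ⟨j0, hj0⟩ := h_bounded hVc hI hc hb hx0 hx0I
  set K : Set (Eu (Fin n)) := KV V E ∩ {x | ∀ i, x i ∈ I i} with hK
  set Kj : ℕ → Set (Eu (Fin n)) := fun j => KV (hV V I (j0 + j)) E with hKj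
  have hcont : ∀ j, Continuous (SV (hV V I j)) := fun j =>
    h_SV_cont (h_convex hVc hI hne hc j)
  have hKjm : ∀ j, MeasurableSet (Kj j) := fun j =>
    (isClosed_le (hcont _) continuous_const).measurableSet
  have hKm : MeasurableSet K := by
    apply IsClosed.measurableSet
    refine (isClosed_le (h_SV_cont hVc) continuous_const).inter ?_
    have : {x : Eu (Fin n) | ∀ i, x i ∈ I i} = ⋂ i, {x | x i ∈ I i} := by
      ext x
      simp
    rw [this]
    refine isClosed_iInter fun i => (hI i).preimage ?_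
    fun_prop
  have hmono : ∀ j, Kj j ⊆ KV (hV V I j0) E := by
    intro j x hx
    have hx' : SV (hV V I (j0 + j)) x ≤ E := hx
    show SV (hV V I j0) x ≤ E
    rw [h_SV] at hx' ⊢
    have h1 : (j0 : ℝ) ≤ ((j0 + j : ℕ) : ℝ) := by exact_mod_cast Nat.le_add_right j0 j
    have := mul_le_mul_of_nonneg_right h1 (h_D_nonneg I x)
    linarith
  have hKsub : ∀ j, K ⊆ Kj j := by
    intro j x hx
    show SV (hV V I (j0 + j)) x ≤ E
    rw [h_SV, h_D_zero hx.2, mul_zero, add_zero]
    exact hx.1
  have hKjb : ∀ j, Bornology.IsBounded (Kj j) := fun j => hj0.subset (hmono j)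
  have hcc : ∀ j, Cc κ δ (ind (Kj j)) := by
    intro j
    refine H n (hV V I (j0 + j)) hn (h_convex hVc hI hne hc _) E (hKjb j) ⟨x0, ?_⟩
    rw [h_SV, h_D_zero hx0I, mul_zero, add_zero]
    exact hx0
  have hpos : 0 < ∫ x, ind K x := by
    have hopen : IsOpen ({x : Eu (Fin n) | SV V x < E} ∩ ⋂ i, {x | x i ∈ interior (I i)}) := by
      refine (isOpen_lt (h_SV_cont hVc) continuous_const).inter ?_
      refine isOpen_iInter_of_finite fun i => isOpen_interior.preimage ?_
      fun_prop
    have hsubK : ({x : Eu (Fin n) | SV V x < E} ∩ ⋂ i, {x | x i ∈ interior (I i)}) ⊆ K := by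
      intro x hx
      have hx1 : SV V x < E := hx.1
      refine ⟨hx1.le, fun i => ?_⟩
      have := mem_iInter.1 hx.2 i
      exact interior_subset this
    have hvpos : 0 < volume K := by
      refine lt_of_lt_of_le (hopen.measure_pos volume ⟨x0, hx0, ?_⟩) (measure_mono hsubK)
      exact mem_iInter.2 hx0i
    have hvfin : volume K < ∞ := hb.measure_lt_top
    unfold ind
    rw [integral_indicator hKm, setIntegral_const, smul_eq_mul, mul_one]
    exact ENNReal.toReal_pos hvpos.ne' hvfin.ne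
  refine h n κ δ (ind K) (fun j => ind (Kj j)) hκ (h_integrable hKm hb) hpos
    (fun j => h_integrable (hKjm j) (hKjb j)) ?_ (Eventually.of_forall hcc)
  -- convergence
  have hlim : Tendsto (fun j => ∫ x, (1 + ‖x‖ ^ 2) * |ind (Kj j) x - ind K x|) atTop
      (𝓝 (∫ _x : Eu (Fin n), (0 : ℝ))) := by
    have hj0m : MeasurableSet (KV (hV V I j0) E) :=
      (isClosed_le (hcont _) continuous_const).measurableSet
    have hdiff : ∀ j x, ind (Kj j) x - ind K x = ind (Kj j \ K) x := by
      intro j x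
      unfold ind
      by_cases h1 : x ∈ K
      · have h2 := hKsub j h1
        rw [indicator_of_mem h2, indicator_of_mem h1, indicator_of_notMem (by simp [h1])]
        ring
      · by_cases h2 : x ∈ Kj j
        · rw [indicator_of_mem h2, indicator_of_notMem h1,
            indicator_of_mem (show x ∈ Kj j \ K from ⟨h2, h1⟩)]
          ring
        · rw [indicator_of_notMem h2, indicator_of_notMem h1, indicator_of_notMem (by simp [h2])]
          ring
    have hind : ∀ (S : Set (Eu (Fin n))) x, 0 ≤ ind S x := fun S x =>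
      indicator_nonneg (fun _ _ => zero_le_one) x
    refine tendsto_integral_of_dominated_convergence
      (fun x => (1 + ‖x‖ ^ 2) * ind (KV (hV V I j0) E) x) (fun j => ?_)
      (h_integrable hj0m hj0) (fun j => Eventually.of_forall fun x => ?_)
      (Eventually.of_forall fun x => ?_)
    · have e : (fun x => (1 + ‖x‖ ^ 2) * |ind (Kj j) x - ind K x|)
          = fun x => (1 + ‖x‖ ^ 2) * ind (Kj j \ K) x := by
        funext x
        rw [hdiff, abs_of_nonneg (hind _ _)]
      rw [e]
      exact (h_integrable ((hKjm j).diff hKm) ((hKjb j).subset sdiff_subset)).aestronglyMeasurable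
    · rw [Real.norm_eq_abs, hdiff, abs_mul, abs_abs, abs_of_nonneg (hind _ _),
        abs_of_pos (by positivity)]
      apply mul_le_mul_of_nonneg_left _ (by positivity)
      unfold ind
      exact indicator_le_indicator_of_subset (sdiff_subset.trans (hmono j))
        (fun _ => zero_le_one) x
    · apply tendsto_const_nhds.congr'
      have hev : ∀ᶠ j in atTop, x ∉ Kj j \ K := by
        by_cases h1 : x ∈ K
        · exact Eventually.of_forall fun j hj => hj.2 h1
        · by_cases h2 : ∀ i, x i ∈ I i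
          · have h3 : E < SV V x := by
              by_contra hcon
              rw [not_lt] at hcon
              exact h1 ⟨hcon, h2⟩
            refine Eventually.of_forall fun j hj => ?_
            have h4 : SV (hV V I (j0 + j)) x ≤ E := hj.1
            rw [h_SV, h_D_zero h2, mul_zero, add_zero] at h4
            linarith
          · have hpos2 := h_D_pos hI hne h2
            obtain ⟨k, hk⟩ := exists_nat_gt ((E - SV V x) / hD I x)
            filter_upwards [eventually_ge_atTop k] with j hj hj2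
            have h4 : SV (hV V I (j0 + j)) x ≤ E := hj2.1
            rw [h_SV] at h4
            rw [div_lt_iff₀ hpos2] at hk
            have h5 : (k : ℝ) ≤ ((j0 + j : ℕ) : ℝ) := by exact_mod_cast hj.trans (Nat.le_add_left _ _)
            have := mul_le_mul_of_nonneg_right h5 (h_D_nonneg I x)
            linarith
      filter_upwards [hev] with j hj
      rw [hdiff]
      unfold ind
      rw [indicator_of_notMem hj]
      simp
  simpa using hlim

end Pool.Agent.R476.OR
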