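import Pool.Agent.R476.OR.Stm

/-!
# Project OR: the main inequality
-/

set_option autoImplicit false

namespace Pool.Agent.R476.OR

open MeasureTheory Set Filter Topology
open scoped ENNReal InnerProductSpace
open Pool.Agent.W695.KH (Eu)
open Pool.Agent.Y506.RG (ND OB EW VW)

/-- Cauchy-Schwarz with a weight -/
theorem cs_w {α : Type*} [MeasurableSpace α] {μ : Measure α} (a b w : α → ℝ) (hw : ∀ x, 0 ≤ w x)
    (ha : Integrable (fun x => a x ^ 2 * w x) μ) (hb : Integrable (fun x => b x ^ 2 * w x) μ)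
    (hab : Integrable (fun x => a x * b x * w x) μ) :
    |∫ x, a x * b x * w x ∂μ| ≤ Real.sqrt (∫ x, a x ^ 2 * w x ∂μ) *
      Real.sqrt (∫ x, b x ^ 2 * w x ∂μ) := by
  have h1 : ∀ t : ℝ, 0 ≤ (∫ x, a x ^ 2 * w x ∂μ) * (t * t) + (2 * ∫ x, a x * b x * w x ∂μ) * t +
      ∫ x, b x ^ 2 * w x ∂μ := by
    intro t
    have h2 : 0 ≤ ∫ x, (t * a x + b x) ^ 2 * w x ∂μ :=
      integral_nonneg fun x => mul_nonneg (sq_nonneg _) (hw x)
    have h3 : ∫ x, (t * a x + b x) ^ 2 * w x ∂μ = ∫ x, ((t * t) * (a x ^ 2 * w x) +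
        (2 * t) * (a x * b x * w x) + b x ^ 2 * w x) ∂μ := by
      refine integral_congr_ae (Eventually.of_forall fun x => ?_)
      simp only
      ring
    have i1 : Integrable (fun x => (t * t) * (a x ^ 2 * w x)) μ := ha.const_mul _
    have i2 : Integrable (fun x => (2 * t) * (a x * b x * w x)) μ := hab.const_mul _
    have i3 : Integrable (fun x => (t * t) * (a x ^ 2 * w x) + (2 * t) * (a x * b x * w x)) μ :=
      i1.add i2
    rw [h3, integral_add i3 hb, integral_add i1 i2, integral_const_mul, integral_const_mul] at h2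
    linarith
  have h4 := discrim_le_zero h1
  unfold discrim at h4
  have hA : 0 ≤ ∫ x, a x ^ 2 * w x ∂μ := integral_nonneg fun x => mul_nonneg (sq_nonneg _) (hw x)
  have hB : 0 ≤ ∫ x, b x ^ 2 * w x ∂μ := integral_nonneg fun x => mul_nonneg (sq_nonneg _) (hw x)
  rw [← Real.sqrt_mul hA]
  refine Real.abs_le_sqrt ?_
  nlinarith

/-- the density is a product -/
theorem exp_SV {n : ℕ} (V : Fin n → ℝ → ℝ) (x : Eu (Fin n)) :
    Real.exp (-SV V x) = ∏ i, Real.exp (-V i (x i)) := by
  unfold SV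
  rw [← Real.exp_sum, Finset.sum_neg_distrib]

theorem sgm_nonneg (r : ℝ) : 0 ≤ sgm r := by unfold sgm; positivity

theorem sgm_le (r : ℝ) : sgm r ≤ 1 := by
  unfold sgm
  rw [div_le_one (by positivity)]
  have := Real.exp_pos (-r)
  linarith

theorem sgd_nonneg (r : ℝ) : 0 ≤ sgd r := by unfold sgd; positivity

theorem sgd_le (r : ℝ) : sgd r ≤ 1 := by
  unfold sgd
  rw [div_le_one (by positivity)]
  have := Real.exp_pos (-r)
  nlinarith

/-- lower bound on the negative half line -/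
theorem sgd_low (r : ℝ) (hr : r ≤ 0) : 1 / 4 * Real.exp r ≤ sgd r := by
  unfold sgd
  have h1 : 1 ≤ Real.exp (-r) := Real.one_le_exp (by linarith)
  have h2 : Real.exp r * Real.exp (-r) = 1 := by rw [← Real.exp_add]; simp
  have h0 := Real.exp_pos r
  rw [le_div_iff₀ (by positivity)]
  set y := Real.exp (-r)
  set z := Real.exp r
  have h3 : (1 + y) ^ 2 ≤ 4 * y ^ 2 := by nlinarith
  calc 1 / 4 * z * (1 + y) ^ 2 ≤ 1 / 4 * z * (4 * y ^ 2) :=
        mul_le_mul_of_nonneg_left h3 (by positivity)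
    _ = (z * y) * y := by ring
    _ = y := by rw [h2, one_mul]

theorem SV_cont {n : ℕ} (V : Fin n → ℝ → ℝ) (hV : ∀ i, Continuous (V i)) :
    Continuous (SV V) := by
  unfold SV
  refine continuous_finsetSum _ fun i _ => (hV i).comp ?_
  fun_prop

theorem CV.contV {V V' : ℝ → ℝ} (h : CV V V') : Continuous V :=
  continuous_iff_continuousAt.2 fun t => (h.der t).continuousAt

theorem KV_meas {n : ℕ} (V : Fin n → ℝ → ℝ) (hV : ∀ i, Continuous (V i)) (E : ℝ) :
    MeasurableSet (KV V E) := (isClosed_le (SV_cont V hV) continuous_const).measurableSet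

/-- integral of a product density -/
theorem mass_prod {n : ℕ} (f : Fin n → ℝ → ℝ) (hi : ∀ i, Integrable (f i))
    (hm : ∀ i, ∫ s, f i s = 1) : Integrable (fun x : Eu (Fin n) => ∏ i, f i (x i)) ∧
    ∫ x : Eu (Fin n), ∏ i, f i (x i) = 1 := by
  have e := (EuclideanSpace.volume_preserving_symm_measurableEquiv_toLp (Fin n))
  have h1 : Integrable (fun x : Fin n → ℝ => ∏ i, f i (x i)) := Integrable.fintype_prod hi
  have h2 := integral_fintype_prod_volume_eq_prod (𝕜 := ℝ) (E := fun _ : Fin n => ℝ) f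
  constructor
  · exact (e.integrable_comp_emb (MeasurableEquiv.measurableEmbedding _)).2 h1
  · have h3 := e.integral_comp (MeasurableEquiv.measurableEmbedding _)
      (fun x : Fin n → ℝ => ∏ i, f i (x i))
    refine Eq.trans ?_ (h3.trans ?_)
    · rfl
    · rw [h2]
      simp [hm]


/-- product of two square integrable functions -/
theorem int_mul_w {α : Type*} [MeasurableSpace α] {μ : Measure α} (a b w : α → ℝ)
    (hw : ∀ x, 0 ≤ w x) (ha : Integrable (fun x => a x ^ 2 * w x) μ)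
    (hb : Integrable (fun x => b x ^ 2 * w x) μ)
    (hm : AEStronglyMeasurable (fun x => a x * b x * w x) μ) :
    Integrable (fun x => a x * b x * w x) μ := by
  have i1 : Integrable (fun x => a x ^ 2 * w x + b x ^ 2 * w x) μ := ha.add hb
  refine Integrable.mono' i1 hm (Eventually.of_forall fun x => ?_)
  rw [Real.norm_eq_abs, abs_mul, abs_of_nonneg (hw x), abs_mul]
  have h1 : |a x| * |b x| ≤ a x ^ 2 + b x ^ 2 := by
    nlinarith [sq_nonneg (|a x| - |b x|), sq_abs (a x), sq_abs (b x), abs_nonneg (a x),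
      abs_nonneg (b x)]
  nlinarith [mul_le_mul_of_nonneg_right h1 (hw x)]

section main

variable {n : ℕ} {V V' v : Fin n → ℝ → ℝ} {C : ℝ}

/-- the facts which are used -/
structure Pk (C : ℝ) (V V' v : Fin n → ℝ → ℝ) (k0 : ℝ) : Prop where
  k0n : 0 ≤ k0
  one : Integrable fun x : Eu (Fin n) => Real.exp (-SV V x)
  a0 : Integrable fun x : Eu (Fin n) =>
    (∑ i, V' i (x i) * v i (x i) - k0) ^ 2 * Real.exp (-SV V x)
  a1 : ∫ x : Eu (Fin n), (∑ i, V' i (x i) * v i (x i) - k0) ^ 2 * Real.exp (-SV V x) ≤ C * k0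
  b0 : Integrable fun x : Eu (Fin n) => (SV V x - ∑ i, mV (V i)) ^ 2 * Real.exp (-SV V x)
  b1 : ∫ x : Eu (Fin n), (SV V x - ∑ i, mV (V i)) ^ 2 * Real.exp (-SV V x) = k0
  c0 : Integrable fun x : Eu (Fin n) => (∑ i, v i (x i) ^ 2) * Real.exp (-SV V x)
  c1 : ∫ x : Eu (Fin n), (∑ i, v i (x i) ^ 2) * Real.exp (-SV V x) ≤ C * k0

theorem pk (hb : S_TWO) (hC : 1 ≤ C) (hV : ∀ i, NV (V i) (V' i))
    (h4 : ∀ i, Integrable fun t => V i t ^ 4 * Real.exp (-V i t))
    (hv : ∀ i, FD C (V i) (V' i) (v i)) : Pk C V V' v (∑ i, rV (V i)) := by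
  have hVc : ∀ i, Continuous (V i) := fun i => (hV i).cv.contV
  have hfc : ∀ i, Continuous fun t => Real.exp (-V i t) := fun i =>
    Real.continuous_exp.comp (hVc i).neg
  have hf0 : ∀ i t, 0 ≤ Real.exp (-V i t) := fun i t => (Real.exp_pos _).le
  have hfi : ∀ i, Integrable fun t => Real.exp (-V i t) := fun i => (hV i).nd.int0
  have hfm : ∀ i, ∫ t, Real.exp (-V i t) = 1 := fun i => (hV i).nd.mass
  have hr0 : ∀ i, 0 ≤ rV (V i) := fun i =>
    integral_nonneg fun t => mul_nonneg (sq_nonneg _) (Real.exp_pos _).le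
  -- square integrability of `V`
  have hV2 : ∀ i, Integrable fun t => V i t ^ 2 * Real.exp (-V i t) := by
    intro i
    have i1 : Integrable fun t => Real.exp (-V i t) + V i t ^ 4 * Real.exp (-V i t) :=
      (hfi i).add (h4 i)
    refine Integrable.mono' i1 (((hVc i).pow 2).mul (hfc i)).aestronglyMeasurable
      (Eventually.of_forall fun t => ?_)
    rw [Real.norm_eq_abs, abs_of_nonneg (mul_nonneg (sq_nonneg _) (Real.exp_pos _).le)]
    nlinarith [Real.exp_pos (-V i t), mul_nonneg (sq_nonneg (V i t ^ 2 - 1))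
      (Real.exp_pos (-V i t)).le, mul_nonneg (sq_nonneg (V i t ^ 2 + 1)) (Real.exp_pos (-V i t)).le]
  have hV1 : ∀ i, Integrable fun t => V i t * Real.exp (-V i t) := by
    intro i
    have i1 : Integrable fun t => Real.exp (-V i t) + V i t ^ 2 * Real.exp (-V i t) :=
      (hfi i).add (hV2 i)
    refine Integrable.mono' i1 ((hVc i).mul (hfc i)).aestronglyMeasurable
      (Eventually.of_forall fun t => ?_)
    rw [Real.norm_eq_abs, abs_mul, abs_of_nonneg (Real.exp_pos (-V i t)).le]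
    have h1 : |V i t| ≤ 1 + V i t ^ 2 := by
      nlinarith [sq_abs (V i t), sq_nonneg (|V i t| - 1), abs_nonneg (V i t)]
    nlinarith [mul_le_mul_of_nonneg_right h1 (Real.exp_pos (-V i t)).le]
  have hg2 : ∀ i, Integrable fun t => (V i t - mV (V i)) ^ 2 * Real.exp (-V i t) := by
    intro i
    have i1 : Integrable fun t => V i t ^ 2 * Real.exp (-V i t) -
        (2 * mV (V i)) * (V i t * Real.exp (-V i t)) + mV (V i) ^ 2 * Real.exp (-V i t) :=
      ((hV2 i).sub ((hV1 i).const_mul _)).add ((hfi i).const_mul _)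
    refine i1.congr (Eventually.of_forall fun t => ?_)
    simp only
    ring
  have hg0 : ∀ i, ∫ t, (V i t - mV (V i)) * Real.exp (-V i t) = 0 := by
    intro i
    have h1 : ∫ t, (V i t - mV (V i)) * Real.exp (-V i t) =
        ∫ t, (V i t * Real.exp (-V i t) - mV (V i) * Real.exp (-V i t)) := by
      refine integral_congr_ae (Eventually.of_forall fun t => ?_)
      simp only
      ring
    have i2 : Integrable fun t => mV (V i) * Real.exp (-V i t) := (hfi i).const_mul _
    rw [h1, integral_sub (hV1 i) i2, integral_const_mul, hfm i]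
    unfold mV
    ring
  -- the field `V' v`
  have hw1 : ∀ i, Integrable fun t => V' i t * v i t * Real.exp (-V i t) := by
    intro i
    have i1 : Integrable fun t => Real.exp (-V i t) + (V' i t * v i t) ^ 2 * Real.exp (-V i t) :=
      (hfi i).add (hv i).i2
    refine Integrable.mono' i1
      ((((hV i).cv.cont).mul (hv i).cont).mul (hfc i)).aestronglyMeasurable
      (Eventually.of_forall fun t => ?_)
    rw [Real.norm_eq_abs, abs_mul, abs_of_nonneg (Real.exp_pos (-V i t)).le]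
    have h1 : |V' i t * v i t| ≤ 1 + (V' i t * v i t) ^ 2 := by
      nlinarith [sq_abs (V' i t * v i t), sq_nonneg (|V' i t * v i t| - 1),
        abs_nonneg (V' i t * v i t)]
    nlinarith [mul_le_mul_of_nonneg_right h1 (Real.exp_pos (-V i t)).le]
  have hw0 : ∀ i, ∫ t, (V' i t * v i t - rV (V i)) * Real.exp (-V i t) = 0 := by
    intro i
    have h1 : ∫ t, (V' i t * v i t - rV (V i)) * Real.exp (-V i t) =
        ∫ t, (V' i t * v i t * Real.exp (-V i t) - rV (V i) * Real.exp (-V i t)) := by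
      refine integral_congr_ae (Eventually.of_forall fun t => ?_)
      simp only
      ring
    have i2 : Integrable fun t => rV (V i) * Real.exp (-V i t) := (hfi i).const_mul _
    rw [h1, integral_sub (hw1 i) i2, integral_const_mul, hfm i, (hv i).mean]
    ring
  have hw2 : ∀ i, Integrable fun t => (V' i t * v i t - rV (V i)) ^ 2 * Real.exp (-V i t) := by
    intro i
    have i1 : Integrable fun t => (V' i t * v i t) ^ 2 * Real.exp (-V i t) -
        (2 * rV (V i)) * (V' i t * v i t * Real.exp (-V i t)) + rV (V i) ^ 2 * Real.exp (-V i t) :=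
      ((hv i).i2.sub ((hw1 i).const_mul _)).add ((hfi i).const_mul _)
    refine i1.congr (Eventually.of_forall fun t => ?_)
    simp only
    ring
  have hw3 : ∀ i, ∫ t, (V' i t * v i t - rV (V i)) ^ 2 * Real.exp (-V i t) ≤ C * rV (V i) := by
    intro i
    have i2 : Integrable fun t => (2 * rV (V i)) * (V' i t * v i t * Real.exp (-V i t)) :=
      (hw1 i).const_mul _
    have i3 : Integrable fun t => rV (V i) ^ 2 * Real.exp (-V i t) := (hfi i).const_mul _
    have i4 : Integrable fun t => (V' i t * v i t) ^ 2 * Real.exp (-V i t) -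
        (2 * rV (V i)) * (V' i t * v i t * Real.exp (-V i t)) := (hv i).i2.sub i2
    have h1 : ∫ t, (V' i t * v i t - rV (V i)) ^ 2 * Real.exp (-V i t) =
        ∫ t, ((V' i t * v i t) ^ 2 * Real.exp (-V i t) -
        (2 * rV (V i)) * (V' i t * v i t * Real.exp (-V i t)) + rV (V i) ^ 2 * Real.exp (-V i t)) := by
      refine integral_congr_ae (Eventually.of_forall fun t => ?_)
      simp only
      ring
    rw [h1, integral_add i4 i3, integral_sub (hv i).i2 i2, integral_const_mul, integral_const_mul,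
      hfm i, (hv i).mean]
    have := (hv i).b2
    nlinarith [sq_nonneg (rV (V i))]
  obtain ⟨m1, -⟩ := mass_prod (fun i t => Real.exp (-V i t)) hfi hfm
  obtain ⟨p1, -, -, p4⟩ := hb n (fun i t => Real.exp (-V i t)) (fun i t => V i t - mV (V i)) hfc
    hf0 hfi hfm (fun i => (hVc i).sub continuous_const) hg2
  obtain ⟨q1, -, -, q4⟩ := hb n (fun i t => Real.exp (-V i t))
    (fun i t => V' i t * v i t - rV (V i)) hfc hf0 hfi hfm
    (fun i => ((hV i).cv.cont.mul (hv i).cont).sub continuous_const) hw2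
  obtain ⟨-, s2, s3, -⟩ := hb n (fun i t => Real.exp (-V i t)) v hfc hf0 hfi hfm
    (fun i => (hv i).cont) (fun i => (hv i).i1)
  have e1 : ∀ x : Eu (Fin n), ∑ i, (V i (x i) - mV (V i)) = SV V x - ∑ i, mV (V i) := by
    intro x
    unfold SV
    rw [Finset.sum_sub_distrib]
  have e2 : ∀ x : Eu (Fin n), ∑ i, (V' i (x i) * v i (x i) - rV (V i)) =
      ∑ i, V' i (x i) * v i (x i) - ∑ i, rV (V i) := by
    intro x
    rw [Finset.sum_sub_distrib]
  simp only [e1, ← exp_SV] at p1 p4
  simp only [e2, ← exp_SV] at q1 q4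
  simp only [← exp_SV] at s2 s3 m1
  refine ⟨Finset.sum_nonneg fun i _ => hr0 i, m1, q1, ?_, p1, ?_, s2, ?_⟩
  · rw [q4 hw0, Finset.mul_sum]
    exact Finset.sum_le_sum fun i _ => hw3 i
  · rw [p4 hg0]
    rfl
  · rw [s3, Finset.mul_sum]
    exact Finset.sum_le_sum fun i _ => (hv i).b1

end main

theorem sgm_cont : Continuous sgm := by
  unfold sgm
  refine continuous_const.div (by fun_prop) fun r => ?_
  have := Real.exp_pos (-r)
  positivity

theorem sgd_cont : Continuous sgd := by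
  unfold sgd
  refine Continuous.div (by fun_prop) (by fun_prop) fun r => ?_
  have := Real.exp_pos (-r)
  positivity

/-- **the main inequality** -/
theorem sti (ha : S_FLD) (hb : S_TWO) (hc : S_IBP) (hd : S_PLW) : S_STI := by
  obtain ⟨C, hC, ha⟩ := ha
  obtain ⟨c, hc0, hd⟩ := hd
  have hsC : 1 ≤ Real.sqrt C := Real.one_le_sqrt.2 hC
  refine ⟨17 * Real.sqrt C / c + 1, ?_, ?_⟩
  · have : 0 ≤ 17 * Real.sqrt C / c := by positivity
    linarith
  intro n V V' hV E hE U l η hU hU0 hU4 hl hUl hη hη1 hI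
  have h4 : ∀ i, Integrable fun t => V i t ^ 4 * Real.exp (-V i t) := fun i =>
    (ha (V i) (V' i) (hV i)).1
  choose v hv using fun i => (ha (V i) (V' i) (hV i)).2
  have P := pk hb hC hV h4 hv
  have hVc : ∀ i, Continuous (V i) := fun i => (hV i).cv.contV
  have hSc := SV_cont V hVc
  have hUc := hU.continuous
  obtain ⟨k0, hk0⟩ : ∃ k0 : ℝ, k0 = ∑ i, rV (V i) := ⟨_, rfl⟩
  obtain ⟨M, hM⟩ : ∃ M : ℝ, M = ∑ i, mV (V i) := ⟨_, rfl⟩
  rw [← hk0] at P
  have hk0n := P.k0n
  have hρ0 : ∀ x : Eu (Fin n), 0 ≤ Real.exp (-SV V x) := fun x => (Real.exp_pos _).le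
  have hρc : Continuous fun x : Eu (Fin n) => Real.exp (-SV V x) := Real.continuous_exp.comp hSc.neg
  have hmass : ∫ x : Eu (Fin n), Real.exp (-SV V x) = 1 := by
    have h1 := (mass_prod (fun i t => Real.exp (-V i t)) (fun i => (hV i).nd.int0)
      fun i => (hV i).nd.mass).2
    simp only [← exp_SV] at h1
    exact h1
  -- bounded functions
  have hbd : ∀ a : Eu (Fin n) → ℝ, Continuous a → ∀ B : ℝ, (∀ x, |a x| ≤ B) →
      Integrable fun x => a x * Real.exp (-SV V x) := by
    intro a hac B hB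
    refine Integrable.mono' (P.one.const_mul B) (hac.mul hρc).aestronglyMeasurable
      (Eventually.of_forall fun x => ?_)
    rw [Real.norm_eq_abs, abs_mul, abs_of_nonneg (hρ0 x)]
    exact mul_le_mul_of_nonneg_right (hB x) (hρ0 x)
  have hUabs : ∀ x, |U x| ≤ 4 := fun x => by rw [abs_of_nonneg (hU0 x)]; exact hU4 x
  have hUint := hbd U hUc 4 hUabs
  -- `∫ (U θ)² ρ ≤ 4 η²`
  have hsm : ∀ a : Eu (Fin n) → ℝ, Continuous a → (∀ x, 0 ≤ a x) → (∀ x, a x ≤ 1) →
      Integrable (fun x => (U x * a x) ^ 2 * Real.exp (-SV V x)) ∧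
      Real.sqrt (∫ x, (U x * a x) ^ 2 * Real.exp (-SV V x)) ≤ 2 * η := by
    intro a hac ha0 ha1
    have h0 : ∀ x, 0 ≤ U x * a x ∧ U x * a x ≤ U x := fun x =>
      ⟨mul_nonneg (hU0 x) (ha0 x), by nlinarith [hU0 x, ha1 x]⟩
    have i1 : Integrable fun x => (U x * a x) ^ 2 * Real.exp (-SV V x) :=
      hbd (fun x => (U x * a x) ^ 2) ((hUc.mul hac).pow 2) 16 fun x => by
        rw [abs_of_nonneg (sq_nonneg _)]
        have := h0 x
        have := hU4 x
        nlinarith
    refine ⟨i1, ?_⟩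
    have h1 : ∫ x, (U x * a x) ^ 2 * Real.exp (-SV V x) ≤ ∫ x, 4 * (U x * Real.exp (-SV V x)) := by
      refine integral_mono i1 (hUint.const_mul 4) fun x => ?_
      simp only
      have h2 : (U x * a x) ^ 2 ≤ 4 * U x := by
        have := h0 x
        have := hU4 x
        nlinarith [hU0 x]
      nlinarith [mul_le_mul_of_nonneg_right h2 (hρ0 x)]
    rw [integral_const_mul] at h1
    have h2 : ∫ x, (U x * a x) ^ 2 * Real.exp (-SV V x) ≤ (2 * η) ^ 2 := by nlinarith
    calc Real.sqrt (∫ x, (U x * a x) ^ 2 * Real.exp (-SV V x)) ≤ Real.sqrt ((2 * η) ^ 2) :=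
          Real.sqrt_le_sqrt h2
      _ = 2 * η := Real.sqrt_sq (by positivity)
  have hd1c : Continuous fun x : Eu (Fin n) => sgd (SV V x - E) :=
    sgd_cont.comp (hSc.sub continuous_const)
  have hm1c : Continuous fun x : Eu (Fin n) => sgm (SV V x - E) :=
    sgm_cont.comp (hSc.sub continuous_const)
  obtain ⟨u1, u2⟩ := hsm (fun x => sgd (SV V x - E)) hd1c (fun x => sgd_nonneg _)
    fun x => sgd_le _
  obtain ⟨w1, w2⟩ := hsm (fun x => sgm (SV V x - E)) hm1c (fun x => sgm_nonneg _)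
    fun x => sgm_le _
  have hWc : Continuous fun x : Eu (Fin n) => ∑ i, V' i (x i) * v i (x i) := by
    refine continuous_finsetSum _ fun i _ => ?_
    have hx : Continuous fun x : Eu (Fin n) => x i := by fun_prop
    exact ((hV i).cv.cont.comp hx).mul ((hv i).cont.comp hx)
  -- first term
  have j1 := int_mul_w (fun x => U x * sgd (SV V x - E))
    (fun x : Eu (Fin n) => ∑ i, V' i (x i) * v i (x i) - k0) (fun x => Real.exp (-SV V x)) hρ0 u1
    P.a0 (((hUc.mul hd1c).mul (hWc.sub continuous_const)).mul hρc).aestronglyMeasurable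
  have k1 := cs_w (fun x => U x * sgd (SV V x - E))
    (fun x : Eu (Fin n) => ∑ i, V' i (x i) * v i (x i) - k0) (fun x => Real.exp (-SV V x)) hρ0 u1
    P.a0 j1
  -- second term
  have hb0 := P.b0
  have hb1 := P.b1
  rw [← hM] at hb0 hb1
  have j2 := int_mul_w (fun x => U x * sgm (SV V x - E))
    (fun x : Eu (Fin n) => SV V x - M) (fun x => Real.exp (-SV V x)) hρ0 w1
    hb0 (((hUc.mul hm1c).mul (hSc.sub continuous_const)).mul hρc).aestronglyMeasurable
  have k2 := cs_w (fun x => U x * sgm (SV V x - E))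
    (fun x : Eu (Fin n) => SV V x - M) (fun x => Real.exp (-SV V x)) hρ0 w1
    hb0 j2
  -- third term
  have hvn : ∀ x : Eu (Fin n), ‖(WithLp.toLp 2 fun i => v i (x i) : Eu (Fin n))‖ ^ 2 =
      ∑ i, v i (x i) ^ 2 := by
    intro x
    rw [EuclideanSpace.norm_sq_eq]
    simp [sq_abs]
  have hvc : Continuous fun x : Eu (Fin n) => (WithLp.toLp 2 fun i => v i (x i) : Eu (Fin n)) := by
    refine (PiLp.continuous_toLp 2 _).comp (continuous_pi fun i => ?_)
    have hx : Continuous fun x : Eu (Fin n) => x i := by fun_prop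
    exact (hv i).cont.comp hx
  have c0' : Integrable fun x : Eu (Fin n) =>
      ‖(WithLp.toLp 2 fun i => v i (x i) : Eu (Fin n))‖ ^ 2 * Real.exp (-SV V x) := by
    refine P.c0.congr (Eventually.of_forall fun x => ?_)
    simp only
    rw [hvn]
  have c1' : ∫ x : Eu (Fin n), ‖(WithLp.toLp 2 fun i => v i (x i) : Eu (Fin n))‖ ^ 2 *
      Real.exp (-SV V x) ≤ C * k0 := by
    refine le_trans (le_of_eq ?_) P.c1
    refine integral_congr_ae (Eventually.of_forall fun x => ?_)
    simp only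
    rw [hvn]
  have one2 : Integrable fun x : Eu (Fin n) => (1 : ℝ) ^ 2 * Real.exp (-SV V x) := by
    simpa using P.one
  have j3 := int_mul_w (fun _ => (1 : ℝ))
    (fun x : Eu (Fin n) => ‖(WithLp.toLp 2 fun i => v i (x i) : Eu (Fin n))‖)
    (fun x => Real.exp (-SV V x)) hρ0 one2 c0' ((continuous_const.mul hvc.norm).mul
      hρc).aestronglyMeasurable
  have k3 := cs_w (fun _ => (1 : ℝ))
    (fun x : Eu (Fin n) => ‖(WithLp.toLp 2 fun i => v i (x i) : Eu (Fin n))‖)
    (fun x => Real.exp (-SV V x)) hρ0 one2 c0' j3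
  have hfd : Continuous fun x => fderiv ℝ U x := hU.continuous_fderiv one_ne_zero
  have hb3 : ∀ x : Eu (Fin n), |sgm (SV V x - E) *
      fderiv ℝ U x (WithLp.toLp 2 fun i => v i (x i)) * Real.exp (-SV V x)| ≤
      l * ((1 : ℝ) * ‖(WithLp.toLp 2 fun i => v i (x i) : Eu (Fin n))‖ * Real.exp (-SV V x)) := by
    intro x
    rw [abs_mul, abs_mul, abs_of_nonneg (hρ0 x), abs_of_nonneg (sgm_nonneg _), one_mul, ← mul_assoc]
    refine mul_le_mul_of_nonneg_right ?_ (hρ0 x)
    have h1 : |fderiv ℝ U x (WithLp.toLp 2 fun i => v i (x i))| ≤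
        l * ‖(WithLp.toLp 2 fun i => v i (x i) : Eu (Fin n))‖ := by
      have h2 := (fderiv ℝ U x).le_opNorm (WithLp.toLp 2 fun i => v i (x i))
      rw [Real.norm_eq_abs] at h2
      exact h2.trans (mul_le_mul_of_nonneg_right (hUl x) (norm_nonneg _))
    calc sgm (SV V x - E) * |fderiv ℝ U x (WithLp.toLp 2 fun i => v i (x i))| ≤
          1 * |fderiv ℝ U x (WithLp.toLp 2 fun i => v i (x i))| :=
          mul_le_mul_of_nonneg_right (sgm_le _) (abs_nonneg _)
      _ ≤ _ := by rw [one_mul]; exact h1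
  have j4 : Integrable fun x : Eu (Fin n) => sgm (SV V x - E) *
      fderiv ℝ U x (WithLp.toLp 2 fun i => v i (x i)) * Real.exp (-SV V x) := by
    refine Integrable.mono' (j3.const_mul l) ((hm1c.mul (hfd.clm_apply hvc)).mul
      hρc).aestronglyMeasurable (Eventually.of_forall fun x => ?_)
    rw [Real.norm_eq_abs]
    exact hb3 x
  have k4 : |∫ x : Eu (Fin n), sgm (SV V x - E) *
      fderiv ℝ U x (WithLp.toLp 2 fun i => v i (x i)) * Real.exp (-SV V x)| ≤
      l * Real.sqrt (C * k0) := by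
    have h1 := norm_integral_le_of_norm_le (j3.const_mul l) (Eventually.of_forall fun x => by
      rw [Real.norm_eq_abs]
      exact hb3 x)
    rw [Real.norm_eq_abs, integral_const_mul] at h1
    refine h1.trans (mul_le_mul_of_nonneg_left ?_ hl)
    refine (le_abs_self _).trans (k3.trans ?_)
    have h2 : Real.sqrt (∫ x : Eu (Fin n), (1 : ℝ) ^ 2 * Real.exp (-SV V x)) = 1 := by
      simp only [one_pow, one_mul]
      rw [hmass, Real.sqrt_one]
    rw [h2, one_mul]
    exact Real.sqrt_le_sqrt c1'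
  -- the identity
  have key := hc n C V V' v hV h4 hv U 4 l E hU hUabs hUl
  rw [← hM] at key
  obtain ⟨Q1, hQ1⟩ : ∃ Q1 : ℝ, Q1 = ∫ x : Eu (Fin n), U x * sgd (SV V x - E) *
    Real.exp (-SV V x) := ⟨_, rfl⟩
  have iQ1 : Integrable fun x : Eu (Fin n) => U x * sgd (SV V x - E) * Real.exp (-SV V x) :=
    hbd (fun x => U x * sgd (SV V x - E)) (hUc.mul hd1c) 4 fun x => by
      rw [abs_of_nonneg (mul_nonneg (hU0 x) (sgd_nonneg _))]
      nlinarith [hU0 x, hU4 x, sgd_nonneg (SV V x - E), sgd_le (SV V x - E)]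
  have h5 : ∫ x, U x * sgd (SV V x - E) * (∑ i, V' i (x i) * v i (x i)) * Real.exp (-SV V x) =
      (∫ x, U x * sgd (SV V x - E) * (∑ i, V' i (x i) * v i (x i) - k0) * Real.exp (-SV V x)) +
      k0 * Q1 := by
    rw [hQ1, ← integral_const_mul, ← integral_add j1 (iQ1.const_mul k0)]
    refine integral_congr_ae (Eventually.of_forall fun x => ?_)
    simp only
    ring
  rw [h5] at key
  have hsCk : 0 ≤ Real.sqrt (C * k0) := Real.sqrt_nonneg _
  have t1 : |∫ x, U x * sgd (SV V x - E) * (∑ i, V' i (x i) * v i (x i) - k0) *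
      Real.exp (-SV V x)| ≤ 2 * η * Real.sqrt (C * k0) :=
    k1.trans (mul_le_mul u2 (Real.sqrt_le_sqrt P.a1) (Real.sqrt_nonneg _) (by positivity))
  have t2 : |∫ x, U x * sgm (SV V x - E) * (SV V x - M) * Real.exp (-SV V x)| ≤
      2 * η * Real.sqrt (C * k0) := by
    refine k2.trans (mul_le_mul w2 ?_ (Real.sqrt_nonneg _) (by positivity))
    rw [hb1]
    exact Real.sqrt_le_sqrt (by nlinarith)
  have t3 : k0 * Q1 ≤ (4 * η + l) * Real.sqrt (C * k0) := by
    have a1 := abs_le.1 t1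
    have a2 := abs_le.1 t2
    have a3 := abs_le.1 k4
    linarith [a1.1, a2.2, a3.1]
  -- the integral over the body
  have hKm := KV_meas V hVc E
  have hvf : volume (KV V E) ≠ ⊤ := hE.bdd.measure_lt_top.ne
  obtain ⟨I0, hI0⟩ : ∃ I0 : ℝ, I0 = ∫ x in KV V E, U x := ⟨_, rfl⟩
  have iU : IntegrableOn U (KV V E) := by
    refine Measure.integrableOn_of_bounded (M := 4) hvf hUc.aestronglyMeasurable ?_
    exact Eventually.of_forall fun x => by rw [Real.norm_eq_abs]; exact hUabs x
  have hI0n : 0 ≤ I0 := by rw [hI0]; exact integral_nonneg fun x => hU0 x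
  have q1 : 1 / 4 * Real.exp (-E) * I0 ≤ Q1 := by
    rw [hI0, hQ1, ← integral_const_mul]
    refine le_trans ?_ (setIntegral_le_integral (s := KV V E) iQ1 (Eventually.of_forall fun x =>
      mul_nonneg (mul_nonneg (hU0 x) (sgd_nonneg _)) (hρ0 x)))
    refine setIntegral_mono_on (iU.const_mul _) iQ1.integrableOn hKm fun x hx => ?_
    have h6 : SV V x ≤ E := hx
    have h7 := sgd_low (SV V x - E) (by linarith)
    have h8 : Real.exp (SV V x - E) * Real.exp (-SV V x) = Real.exp (-E) := by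
      rw [← Real.exp_add]
      congr 1
      ring
    calc 1 / 4 * Real.exp (-E) * U x = U x * (1 / 4 * Real.exp (SV V x - E)) *
          Real.exp (-SV V x) := by rw [← h8]; ring
      _ ≤ _ := mul_le_mul_of_nonneg_right (mul_le_mul_of_nonneg_left h7 (hU0 x)) (hρ0 x)
  have q2 : Real.exp (-E) * I0 ≤ η := by
    have h9 : Real.exp (-E) * I0 ≤ ∫ x, U x * Real.exp (-SV V x) := by
      rw [hI0, ← integral_const_mul]
      refine le_trans ?_ (setIntegral_le_integral (s := KV V E) hUint (Eventually.of_forall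
        fun x => mul_nonneg (hU0 x) (hρ0 x)))
      refine setIntegral_mono_on (iU.const_mul _) hUint.integrableOn hKm fun x hx => ?_
      have h6 : SV V x ≤ E := hx
      have h7 : Real.exp (-E) ≤ Real.exp (-SV V x) := Real.exp_le_exp.2 (by linarith)
      rw [mul_comm]
      exact mul_le_mul_of_nonneg_left h7 (hU0 x)
    nlinarith
  -- conclusion
  have hsg : sg V = 1 + k0 := by rw [hk0]; rfl
  obtain ⟨s0, hs0⟩ : ∃ s0 : ℝ, s0 = Real.sqrt (sg V) := ⟨_, rfl⟩
  have hs01 : 1 ≤ s0 := by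
    rw [hs0, hsg]
    exact Real.one_le_sqrt.2 (by linarith)
  have hs02 : s0 ^ 2 = 1 + k0 := by
    rw [hs0, Real.sq_sqrt (by rw [hsg]; linarith), hsg]
  have hsk : Real.sqrt (C * k0) ≤ Real.sqrt C * s0 := by
    rw [Real.sqrt_mul (by linarith)]
    refine mul_le_mul_of_nonneg_left ?_ (Real.sqrt_nonneg _)
    rw [hs0, hsg]
    exact Real.sqrt_le_sqrt (by linarith)
  obtain ⟨Q, hQ⟩ : ∃ Q : ℝ, Q = Real.exp (-E) * I0 := ⟨_, rfl⟩
  have r1 : s0 ^ 2 * Q ≤ s0 * (17 * Real.sqrt C * (η + l)) := by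
    have h10 : k0 * Q ≤ 4 * (k0 * Q1) := by
      have h11 : Q ≤ 4 * Q1 := by rw [hQ]; linarith
      nlinarith
    have h12 : k0 * Q ≤ 4 * ((4 * η + l) * (Real.sqrt C * s0)) := by
      have h13 : (4 * η + l) * Real.sqrt (C * k0) ≤ (4 * η + l) * (Real.sqrt C * s0) :=
        mul_le_mul_of_nonneg_left hsk (by positivity)
      linarith
    have h14 : Q ≤ η * (Real.sqrt C * s0) := by
      have h15 : 1 ≤ Real.sqrt C * s0 := by nlinarith
      have h16 : Q ≤ η := by rw [hQ]; exact q2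
      nlinarith
    rw [hs02]
    have h17 : 0 ≤ l * (Real.sqrt C * s0) := by positivity
    nlinarith
  have r2 : s0 * Q ≤ 17 * Real.sqrt C * (η + l) := by
    have h18 : s0 * (s0 * Q) ≤ s0 * (17 * Real.sqrt C * (η + l)) := by nlinarith
    exact le_of_mul_le_mul_left h18 (by linarith)
  have hp := hd n V V' hV h4 E hE
  rw [← hs0] at hp
  obtain ⟨vol, hvol⟩ : ∃ vol : ℝ, vol = (volume (KV V E)).toReal := ⟨_, rfl⟩
  have hvol0 : 0 ≤ vol := by rw [hvol]; exact ENNReal.toReal_nonneg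
  rw [← hvol] at hp ⊢
  rw [← hI0]
  have r3 : c * I0 ≤ vol * (17 * Real.sqrt C * (η + l)) := by
    calc c * I0 ≤ (s0 * (vol * Real.exp (-E))) * I0 := mul_le_mul_of_nonneg_right hp hI0n
      _ = vol * (s0 * Q) := by rw [hQ]; ring
      _ ≤ _ := mul_le_mul_of_nonneg_left r2 hvol0
  have r4 : I0 ≤ 17 * Real.sqrt C / c * (η + l) * vol := by
    rw [div_mul_eq_mul_div, div_mul_eq_mul_div, le_div_iff₀ hc0]
    linarith
  have r5 : 0 ≤ (η + l) * vol := by positivity
  nlinarith

end Pool.Agent.R476.OR
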