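import Pool.Agent.R476.OR.I
import Pool.Agent.Y506.PV.Stb

/-!
# Project OR: concentration for normalised sums at optimal levels
-/

set_option autoImplicit false

namespace Pool.Agent.R476.OR

open MeasureTheory Set Filter Topology
open scoped ENNReal InnerProductSpace
open Pool.Agent.W695.KH (Eu)
open Pool.Agent.Y506.RG (ND OB EW VW Adm VW_shift EW_mono EW_add EW_const_mul lin_int rr S_VARR
  S_ONE)

variable {n : ℕ}

theorem rV_nonneg (V : ℝ → ℝ) : 0 ≤ rV V :=
  integral_nonneg fun t => mul_nonneg (sq_nonneg _) (Real.exp_pos _).le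

/-- `b_i² ≤ r_i` -/
theorem bV_sq {V V' : ℝ → ℝ} (hV : NV V V') (h4 : Integrable fun t => V t ^ 4 * Real.exp (-V t)) :
    bV V ^ 2 ≤ rV V := by
  have hVc : Continuous V := hV.cv.contV
  have hfc : Continuous fun t => Real.exp (-V t) := Real.continuous_exp.comp hVc.neg
  have hfi : Integrable fun t => Real.exp (-V t) := hV.nd.int0
  have hfm : ∫ t, Real.exp (-V t) = 1 := hV.nd.mass
  have hV2 : Integrable fun t => V t ^ 2 * Real.exp (-V t) := by
    have i1 : Integrable fun t => Real.exp (-V t) + V t ^ 4 * Real.exp (-V t) := hfi.add h4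
    refine Integrable.mono' i1 ((hVc.pow 2).mul hfc).aestronglyMeasurable
      (Eventually.of_forall fun t => ?_)
    rw [Real.norm_eq_abs, abs_of_nonneg (mul_nonneg (sq_nonneg _) (Real.exp_pos _).le)]
    nlinarith [Real.exp_pos (-V t), mul_nonneg (sq_nonneg (V t ^ 2 - 1)) (Real.exp_pos (-V t)).le,
      mul_nonneg (sq_nonneg (V t ^ 2 + 1)) (Real.exp_pos (-V t)).le]
  have hV1 : Integrable fun t => V t * Real.exp (-V t) := by
    have i1 : Integrable fun t => Real.exp (-V t) + V t ^ 2 * Real.exp (-V t) := hfi.add hV2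
    refine Integrable.mono' i1 (hVc.mul hfc).aestronglyMeasurable
      (Eventually.of_forall fun t => ?_)
    rw [Real.norm_eq_abs, abs_mul, abs_of_nonneg (Real.exp_pos (-V t)).le]
    have h1 : |V t| ≤ 1 + V t ^ 2 := by
      nlinarith [sq_abs (V t), sq_nonneg (|V t| - 1), abs_nonneg (V t)]
    nlinarith [mul_le_mul_of_nonneg_right h1 (Real.exp_pos (-V t)).le]
  have hg2 : Integrable fun t => (V t - mV V) ^ 2 * Real.exp (-V t) := by
    have i1 : Integrable fun t => V t ^ 2 * Real.exp (-V t) -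
        (2 * mV V) * (V t * Real.exp (-V t)) + mV V ^ 2 * Real.exp (-V t) :=
      (hV2.sub (hV1.const_mul _)).add (hfi.const_mul _)
    refine i1.congr (Eventually.of_forall fun t => ?_)
    simp only
    ring
  have ht2 : Integrable fun t : ℝ => t ^ 2 * Real.exp (-V t) := hV.nd.int2
  have i0 : Integrable fun t : ℝ => t * (V t - mV V) * Real.exp (-V t) :=
    int_mul_w (fun t : ℝ => t) (fun t => V t - mV V) (fun t => Real.exp (-V t))
      (fun t => (Real.exp_pos _).le) ht2 hg2
      ((continuous_id.mul (hVc.sub continuous_const)).mul hfc).aestronglyMeasurable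
  have h1 := cs_w (fun t : ℝ => t) (fun t => V t - mV V) (fun t => Real.exp (-V t))
    (fun t => (Real.exp_pos _).le) ht2 hg2 i0
  have ht1 : Integrable fun t : ℝ => t * Real.exp (-V t) := by
    have i1 : Integrable fun t : ℝ => Real.exp (-V t) + t ^ 2 * Real.exp (-V t) := hfi.add ht2
    refine Integrable.mono' i1 (continuous_id.mul hfc).aestronglyMeasurable
      (Eventually.of_forall fun t => ?_)
    rw [Real.norm_eq_abs, abs_mul, abs_of_nonneg (Real.exp_pos (-V t)).le]
    have h1 : |t| ≤ 1 + t ^ 2 := by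
      nlinarith [sq_abs t, sq_nonneg (|t| - 1), abs_nonneg t]
    nlinarith [mul_le_mul_of_nonneg_right h1 (Real.exp_pos (-V t)).le]
  have h2 : ∫ t : ℝ, t * (V t - mV V) * Real.exp (-V t) = bV V := by
    have i3 : Integrable fun t : ℝ => mV V * (t * Real.exp (-V t)) := ht1.const_mul _
    have h3 : bV V = ∫ t : ℝ, (t * (V t - mV V) * Real.exp (-V t) +
        mV V * (t * Real.exp (-V t))) := by
      unfold bV
      refine integral_congr_ae (Eventually.of_forall fun t => ?_)
      simp only
      ring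
    rw [h3, integral_add i0 i3, integral_const_mul]
    have h5 : ∫ t : ℝ, t * Real.exp (-V t) = 0 := hV.nd.mean
    rw [h5]
    ring
  rw [h2] at h1
  have h3 : ∫ t : ℝ, t ^ 2 * Real.exp (-V t) = 1 := hV.nd.var
  rw [h3, Real.sqrt_one, one_mul] at h1
  calc bV V ^ 2 = |bV V| ^ 2 := (sq_abs _).symm
    _ ≤ Real.sqrt (rV V) ^ 2 := pow_le_pow_left₀ (abs_nonneg _) h1 2
    _ = rV V := Real.sq_sqrt (rV_nonneg V)

/-- projection orthogonal to `b` -/
noncomputable def prb (b : Eu (Fin n)) : Eu (Fin n) →L[ℝ] Eu (Fin n) :=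
  ContinuousLinearMap.id ℝ _ - (‖b‖ ^ 2)⁻¹ • ((innerSL ℝ b).smulRight b)

theorem prb_apply (b x : Eu (Fin n)) : prb b x = x - (⟪b, x⟫_ℝ / ‖b‖ ^ 2) • b := by
  unfold prb
  simp only [ContinuousLinearMap.sub_apply, ContinuousLinearMap.id_apply,
    ContinuousLinearMap.smul_apply, ContinuousLinearMap.smulRight_apply, innerSL_apply_apply,
    smul_smul]
  congr 2
  rw [div_eq_inv_mul]

theorem prb_orth (b x : Eu (Fin n)) : ⟪b, prb b x⟫_ℝ = 0 := by
  rw [prb_apply, inner_sub_right, real_inner_smul_right, real_inner_self_eq_norm_sq]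
  by_cases h : b = 0
  · simp [h]
  · have : ‖b‖ ^ 2 ≠ 0 := by positivity
    field_simp
    ring

theorem prb_norm (b x : Eu (Fin n)) : ‖prb b x‖ ^ 2 = ‖x‖ ^ 2 - ⟪b, x⟫_ℝ ^ 2 / ‖b‖ ^ 2 := by
  have h0 : ‖prb b x‖ ^ 2 = ⟪prb b x, prb b x⟫_ℝ := (real_inner_self_eq_norm_sq _).symm
  rw [h0]
  nth_rw 1 [prb_apply]
  rw [inner_sub_left, real_inner_smul_left, prb_orth, mul_zero, sub_zero, prb_apply,
    inner_sub_right, real_inner_smul_right, real_inner_self_eq_norm_sq, real_inner_comm b x]
  ring

theorem prb_adj (b x y : Eu (Fin n)) : ⟪prb b x, y⟫_ℝ = ⟪x, prb b y⟫_ℝ := by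
  rw [prb_apply, prb_apply, inner_sub_left, inner_sub_right, real_inner_smul_left,
    real_inner_smul_right, real_inner_comm b x]
  ring

/-- variance of a difference -/
theorem VW_sub {w : Eu (Fin n) → ℝ} (h : Adm w) (f g : Eu (Fin n) → ℝ)
    (hf1 : Integrable fun x => f x * w x) (hf2 : Integrable fun x => f x ^ 2 * w x)
    (hg1 : Integrable fun x => g x * w x) (hg2 : Integrable fun x => g x ^ 2 * w x)
    (hfm : Measurable f) (hgm : Measurable g) :
    VW w (fun x => f x - g x) ≤ 2 * VW w f + 2 * VW w g := by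
  have hone := h.one
  have hsh : ∀ (u : Eu (Fin n) → ℝ) (a : ℝ), (Integrable fun x => u x * w x) →
      (Integrable fun x => u x ^ 2 * w x) → Integrable fun x => (u x - a) ^ 2 * w x := by
    intro u a h1 h2
    refine ((h2.sub (h1.const_mul (2 * a))).add (hone.const_mul (a ^ 2))).congr
      (Eventually.of_forall fun x => ?_)
    simp only [Pi.add_apply, Pi.sub_apply]
    ring
  have hd1 : Integrable fun x => (f x - g x) * w x := by
    refine (hf1.sub hg1).congr (Eventually.of_forall fun x => ?_)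
    simp only [Pi.sub_apply]
    ring
  have hd2 : Integrable fun x => (f x - g x) ^ 2 * w x := by
    refine Integrable.mono' ((hf2.const_mul 2).add (hg2.const_mul 2))
      (((hfm.sub hgm).pow_const 2).mul h.meas).aestronglyMeasurable
      (Eventually.of_forall fun x => ?_)
    rw [Real.norm_eq_abs, abs_of_nonneg (mul_nonneg (sq_nonneg _) (h.nonneg x))]
    simp only [Pi.add_apply]
    nlinarith [mul_nonneg (sq_nonneg (f x + g x)) (h.nonneg x)]
  have e1 := VW_shift h _ hd1 hd2 (EW w f - EW w g)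
  have e2 : EW w (fun x => f x - g x) = EW w f - EW w g := by
    unfold EW
    rw [← sub_div, ← integral_sub hf1 hg1]
    congr 1
    refine integral_congr_ae (Eventually.of_forall fun x => ?_)
    simp only
    ring
  rw [e2, sub_self] at e1
  have e3 := VW_shift h f hf1 hf2 (EW w f)
  have e4 := VW_shift h g hg1 hg2 (EW w g)
  rw [sub_self] at e3 e4
  have i1 := hsh f (EW w f) hf1 hf2
  have i2 := hsh g (EW w g) hg1 hg2
  have i3 : Integrable fun x => (2 * (f x - EW w f) ^ 2) * w x := by
    refine (i1.const_mul 2).congr (Eventually.of_forall fun x => ?_)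
    simp only
    ring
  have i4 : Integrable fun x => (2 * (g x - EW w g) ^ 2) * w x := by
    refine (i2.const_mul 2).congr (Eventually.of_forall fun x => ?_)
    simp only
    ring
  have e5 : EW w (fun x => (f x - g x - (EW w f - EW w g)) ^ 2) ≤
      EW w (fun x => 2 * (f x - EW w f) ^ 2 + 2 * (g x - EW w g) ^ 2) := by
    refine EW_mono h _ _ (hsh _ _ hd1 hd2) ?_ fun x => ?_
    · refine (i3.add i4).congr (Eventually.of_forall fun x => ?_)
      simp only [Pi.add_apply]
      ring
    · nlinarith [sq_nonneg ((f x - EW w f) + (g x - EW w g))]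
  rw [EW_add _ _ i3 i4, EW_const_mul, EW_const_mul] at e5
  linarith

end Pool.Agent.R476.OR
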