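import Pool.Agent.R476.OR.J

/-!
# Project OR: concentration for normalised sums at optimal levels, main theorem
-/

set_option autoImplicit false

namespace Pool.Agent.R476.OR

open MeasureTheory Set Filter Topology
open scoped ENNReal InnerProductSpace
open Pool.Agent.W695.KH (Eu)
open Pool.Agent.Y506.RG (ND OB EW VW Adm VW_shift EW_mono EW_add EW_const_mul EW_nonneg lin_int rr
  S_VARR S_ONE VW_const_mul)

variable {n : ℕ}

theorem adm_K {V V' : Fin n → ℝ → ℝ} (hV : ∀ i, NV (V i) (V' i)) {E : ℝ} (hE : LVL V E) :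
    Adm (ind (KV V E)) :=
  Pool.Agent.Y506.PV.adm_ind (KV V E) (KV_meas V (fun i => (hV i).cv.contV) E) hE.bdd hE.pos

/-- the Poincare inequality in the form which is used -/
theorem poin {V V' : Fin n → ℝ → ℝ} (hV : ∀ i, NV (V i) (V' i)) {C0 K : ℝ}
    (hOB : ∀ i, OB C0 fun t => Real.exp (-V i t))
    (hvar : ∀ (ι : Type) [Fintype ι] (f : ι → ℝ → ℝ),
      (∀ i, ND (f i)) → (∀ i, OB C0 (f i)) → ∀ (h : Eu ι → ℝ) (l : ℝ), ContDiff ℝ 1 h →
      (∀ s, |h s| ≤ 1) → 0 ≤ l → (∀ s, ‖fderiv ℝ h s‖ ≤ l) →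
      ∃ m : ℝ, |m| ≤ 1 ∧ ∫⁻ s, ENNReal.ofReal ((h s - m) ^ 2) * rr f s ≤ ENNReal.ofReal (K * l ^ 2))
    (hK : 1 ≤ K) (h : Eu (Fin n) → ℝ) (l : ℝ) (h1 : ContDiff ℝ 1 h) (h2 : ∀ s, |h s| ≤ 1)
    (h3 : 0 ≤ l) (h4 : ∀ s, ‖fderiv ℝ h s‖ ≤ l) :
    ∃ m : ℝ, |m| ≤ 1 ∧ ∫ x, (h x - m) ^ 2 * Real.exp (-SV V x) ≤ K * l ^ 2 := by
  obtain ⟨m, hm, hI⟩ := hvar (Fin n) (fun i t => Real.exp (-V i t)) (fun i => (hV i).nd) hOB h l
    h1 h2 h3 h4
  refine ⟨m, hm, ?_⟩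
  have e : ∀ x : Eu (Fin n), ENNReal.ofReal ((h x - m) ^ 2) * rr (fun i t => Real.exp (-V i t)) x =
      ENNReal.ofReal ((h x - m) ^ 2 * Real.exp (-SV V x)) := by
    intro x
    unfold rr
    rw [exp_SV, ENNReal.ofReal_mul (sq_nonneg _), ENNReal.ofReal_prod_of_nonneg fun i _ =>
      (Real.exp_pos _).le]
  simp only [e] at hI
  have hnn : ∀ x : Eu (Fin n), 0 ≤ (h x - m) ^ 2 * Real.exp (-SV V x) := fun x =>
    mul_nonneg (sq_nonneg _) (Real.exp_pos _).le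
  have hSc := SV_cont V fun i => (hV i).cv.contV
  rw [integral_eq_lintegral_of_nonneg_ae (Eventually.of_forall hnn)
    ((((h1.continuous.sub continuous_const).pow 2).mul
      (Real.continuous_exp.comp hSc.neg)).aestronglyMeasurable)]
  have hKl : 0 ≤ K * l ^ 2 := by positivity
  calc (∫⁻ x, ENNReal.ofReal ((h x - m) ^ 2 * Real.exp (-SV V x))).toReal ≤
        (ENNReal.ofReal (K * l ^ 2)).toReal := ENNReal.toReal_mono ENNReal.ofReal_ne_top hI
    _ = K * l ^ 2 := ENNReal.toReal_ofReal hKl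

theorem ccn (hvr : S_VARR) (h1 : S_ONE) (hfl : S_FLD) (hst : S_STI) (hcv : S_COV) : S_CCN := by
  intro δ hδ
  obtain ⟨C1, hC1, hst⟩ := hst
  obtain ⟨c, C2, hc, hC2, hcv⟩ := hcv
  obtain ⟨C0, hC0, hone⟩ := h1
  obtain ⟨K, hK, hvr⟩ := hvr C0
  obtain ⟨CF, hCF, hfl⟩ := hfl
  have hsc : 0 < Real.sqrt c := Real.sqrt_pos.2 hc
  have hsK : 0 < Real.sqrt K := Real.sqrt_pos.2 (by linarith)
  obtain ⟨κ, hκ, k1, k2, k3, k4⟩ : ∃ κ : ℝ, 0 < κ ∧ κ ≤ 1 ∧ Real.sqrt K * (κ / Real.sqrt c) ≤ 1 ∧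
      2 * (C1 * (Real.sqrt K + 4) * (κ / Real.sqrt c)) ≤ δ / 2 ∧
      2 * (κ ^ 2 * (2 + 2 * C2 / c)) ≤ δ / 2 := by
    obtain ⟨κ, hκe⟩ : ∃ κ : ℝ, κ = min 1 (min (Real.sqrt c / Real.sqrt K)
      (min (δ * Real.sqrt c / (4 * (C1 * (Real.sqrt K + 4)))) (δ / (4 * (2 + 2 * C2 / c))))) :=
      ⟨_, rfl⟩
    have hpos1 : 0 < C1 * (Real.sqrt K + 4) := by positivity
    have hpos2 : 0 < 2 + 2 * C2 / c := by positivity
    have hκ0 : 0 < κ := by
      rw [hκe]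
      refine lt_min one_pos (lt_min (by positivity) (lt_min (by positivity) (by positivity)))
    have a1 : κ ≤ 1 := by rw [hκe]; exact min_le_left _ _
    have a2 : κ ≤ Real.sqrt c / Real.sqrt K := by
      rw [hκe]; exact (min_le_right _ _).trans (min_le_left _ _)
    have a3 : κ ≤ δ * Real.sqrt c / (4 * (C1 * (Real.sqrt K + 4))) := by
      rw [hκe]; exact (min_le_right _ _).trans ((min_le_right _ _).trans (min_le_left _ _))
    have a4 : κ ≤ δ / (4 * (2 + 2 * C2 / c)) := by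
      rw [hκe]; exact (min_le_right _ _).trans ((min_le_right _ _).trans (min_le_right _ _))
    refine ⟨κ, hκ0, a1, ?_, ?_, ?_⟩
    · rw [le_div_iff₀ hsK] at a2
      rw [mul_div_assoc', div_le_one hsc]
      linarith
    · rw [le_div_iff₀ (by positivity)] at a3
      have e : 2 * (C1 * (Real.sqrt K + 4) * (κ / Real.sqrt c)) =
          2 * (κ * (C1 * (Real.sqrt K + 4))) / Real.sqrt c := by
        field_simp
      rw [e, div_le_iff₀ hsc]
      linarith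
    · rw [le_div_iff₀ (by positivity)] at a4
      have h5 : κ ^ 2 ≤ κ := by nlinarith
      have h6 : κ ^ 2 * (2 + 2 * C2 / c) ≤ κ * (2 + 2 * C2 / c) :=
        mul_le_mul_of_nonneg_right h5 hpos2.le
      linarith
  refine ⟨κ, hκ, fun n V V' hV E hE k hk T s hs hvar v hv hv1 hvl => ?_⟩
  have h4 : ∀ i, Integrable fun t => V i t ^ 4 * Real.exp (-V i t) := fun i =>
    (hfl (V i) (V' i) (hV i)).1
  have hA := adm_K hV hE
  have hss : 0 < Real.sqrt s := Real.sqrt_pos.2 hs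
  obtain ⟨w, hw⟩ : ∃ w : Eu (Fin n) → ℝ, w = ind (KV V E) := ⟨_, rfl⟩
  rw [← hw] at hA hvar ⊢
  obtain ⟨b, hb⟩ : ∃ b : Eu (Fin n), b = bb V := ⟨_, rfl⟩
  have hsg0 : 0 < sg V := by
    unfold sg
    have : 0 ≤ ∑ i, rV (V i) := Finset.sum_nonneg fun i _ => rV_nonneg _
    linarith
  have hb2 : ‖b‖ ^ 2 ≤ sg V := by
    rw [hb, EuclideanSpace.norm_sq_eq]
    unfold bb sg
    have : ∑ i, ‖(WithLp.toLp 2 fun i => bV (V i) : Eu (Fin n)) i‖ ^ 2 ≤ ∑ i, rV (V i) := by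
      refine Finset.sum_le_sum fun i _ => ?_
      rw [Real.norm_eq_abs, sq_abs]
      exact bV_sq (hV i) (h4 i)
    linarith
  have hcov := hcv n V V' hV h4 E hE
  rw [← hw, ← hb] at hcov
  -- the adjoint
  obtain ⟨T', hT'⟩ : ∃ T' : Eu (Fin n) →L[ℝ] Eu (Fin k), ∀ x, T' x = T x :=
    ⟨LinearMap.toContinuousLinearMap T, fun x => rfl⟩
  have hadj : ∀ (x : Eu (Fin n)) (e : Eu (Fin k)), ⟪T x, e⟫_ℝ = ⟪x, LinearMap.adjoint T e⟫_ℝ :=
    fun x e => (LinearMap.adjoint_inner_right T x e).symm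
  have hP : ∀ e : Eu (Fin k), ‖e‖ = 1 → ‖prb b (LinearMap.adjoint T e)‖ ^ 2 ≤ s / c := by
    intro e he
    obtain ⟨θ, hθ⟩ : ∃ θ : Eu (Fin n), θ = LinearMap.adjoint T e := ⟨_, rfl⟩
    rw [← hθ, prb_norm]
    have g1 := (hcov θ).1
    have g2 : VW w (fun x => ⟪x, θ⟫_ℝ) ≤ s := by
      have g3 := hvar e he
      simp only [hadj] at g3
      rw [← hθ] at g3
      exact g3
    have g4 : ‖θ‖ ^ 2 - ⟪b, θ⟫_ℝ ^ 2 / ‖b‖ ^ 2 ≤ ‖θ‖ ^ 2 - ⟪b, θ⟫_ℝ ^ 2 / sg V := by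
      by_cases h0 : b = 0
      · simp [h0]
      · have hbp : 0 < ‖b‖ ^ 2 := by positivity
        have := div_le_div_of_nonneg_left (sq_nonneg ⟪b, θ⟫_ℝ) hbp hb2
        linarith
    rw [le_div_iff₀ hc]
    nlinarith
  have hTP : ∀ x, ‖T (prb b x)‖ ≤ Real.sqrt (s / c) * ‖x‖ := by
    intro x
    by_cases h0 : T (prb b x) = 0
    · rw [h0, norm_zero]
      positivity
    have hn : 0 < ‖T (prb b x)‖ := norm_pos_iff.2 h0
    obtain ⟨e, he⟩ : ∃ e : Eu (Fin k), e = ‖T (prb b x)‖⁻¹ • T (prb b x) := ⟨_, rfl⟩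
    have he1 : ‖e‖ = 1 := by
      rw [he, norm_smul, norm_inv, norm_norm, inv_mul_cancel₀ hn.ne']
    have h5 : ‖T (prb b x)‖ = ⟪x, prb b (LinearMap.adjoint T e)⟫_ℝ := by
      rw [← prb_adj, ← hadj, he, real_inner_smul_right, real_inner_self_eq_norm_sq, sq, ← mul_assoc,
        inv_mul_cancel₀ hn.ne', one_mul]
    have h6 : ‖prb b (LinearMap.adjoint T e)‖ ≤ Real.sqrt (s / c) := Real.le_sqrt_of_sq_le (hP e he1)
    calc ‖T (prb b x)‖ = ⟪x, prb b (LinearMap.adjoint T e)⟫_ℝ := h5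
      _ ≤ ‖x‖ * ‖prb b (LinearMap.adjoint T e)‖ := real_inner_le_norm _ _
      _ ≤ ‖x‖ * Real.sqrt (s / c) := mul_le_mul_of_nonneg_left h6 (norm_nonneg _)
      _ = _ := mul_comm _ _
  -- the comparison function
  obtain ⟨α, hα⟩ : ∃ α : ℝ, α = EW w fun x => ⟪b, x⟫_ℝ := ⟨_, rfl⟩
  obtain ⟨w0, hw0⟩ : ∃ w0 : Eu (Fin k), w0 = (α / ‖b‖ ^ 2) • T b := ⟨_, rfl⟩
  obtain ⟨Q, hQ⟩ : ∃ Q : Eu (Fin n) →L[ℝ] Eu (Fin k), Q = T'.comp (prb b) := ⟨_, rfl⟩
  have hQa : ∀ x, Q x = T (prb b x) := fun x => by rw [hQ]; exact hT' _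
  have hQn : ‖Q‖ ≤ Real.sqrt (s / c) := ContinuousLinearMap.opNorm_le_bound _ (Real.sqrt_nonneg _)
    fun x => by rw [hQa]; exact hTP x
  obtain ⟨u, hu⟩ : ∃ u : Eu (Fin n) → ℝ, u = fun x => v (Q x + w0) := ⟨_, rfl⟩
  have huC : ContDiff ℝ 1 u := by
    rw [hu]
    exact hv.comp (Q.contDiff.add contDiff_const)
  have hu1 : ∀ x, |u x| ≤ 1 := fun x => by rw [hu]; exact hv1 _
  have hl1 : 0 ≤ κ / Real.sqrt c := by positivity
  have hud : ∀ x, HasFDerivAt u ((fderiv ℝ v (Q x + w0)).comp Q) x := by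
    intro x
    rw [hu]
    have h7 : HasFDerivAt (fun x => Q x + w0) Q x := Q.hasFDerivAt.add_const w0
    have h8 : HasFDerivAt v (fderiv ℝ v (Q x + w0)) (Q x + w0) :=
      (hv.differentiable one_ne_zero _).hasFDerivAt
    exact HasFDerivAt.comp x h8 h7
  have hul : ∀ x, ‖fderiv ℝ u x‖ ≤ κ / Real.sqrt c := by
    intro x
    rw [(hud x).fderiv]
    calc ‖(fderiv ℝ v (Q x + w0)).comp Q‖ ≤ ‖fderiv ℝ v (Q x + w0)‖ * ‖Q‖ :=
          ContinuousLinearMap.opNorm_comp_le _ _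
      _ ≤ κ / Real.sqrt s * Real.sqrt (s / c) :=
          mul_le_mul (hvl _) hQn (norm_nonneg _) (by positivity)
      _ = κ / Real.sqrt c := by
          rw [Real.sqrt_div hs.le]
          field_simp
  obtain ⟨m, hm, hI⟩ := poin hV (fun i => hone _ (hV i).nd) hvr hK u _ huC hu1 hl1 hul
  obtain ⟨l1, hl1e⟩ : ∃ l1 : ℝ, l1 = κ / Real.sqrt c := ⟨_, rfl⟩
  rw [← hl1e] at k2 k3 hl1 hul hI
  -- the function `U`
  obtain ⟨U, hU⟩ : ∃ U : Eu (Fin n) → ℝ, U = fun x => (u x - m) ^ 2 := ⟨_, rfl⟩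
  have hum : ∀ x, |u x - m| ≤ 2 := fun x => by
    have g5 := abs_sub (u x) m
    have g6 := hu1 x
    linarith
  have hUC : ContDiff ℝ 1 U := by
    rw [hU]
    exact (huC.sub contDiff_const).pow 2
  have hUd : ∀ x, ‖fderiv ℝ U x‖ ≤ 4 * l1 := by
    intro x
    have h9 : HasFDerivAt U ((2 * (u x - m)) • fderiv ℝ u x) x := by
      rw [hU]
      have h10 : HasFDerivAt (fun x => u x - m) (fderiv ℝ u x) x :=
        ((huC.differentiable one_ne_zero x).hasFDerivAt).sub_const m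
      have h11 := h10.pow 2
      refine h11.congr_fderiv ?_
      ext y
      simp
    rw [h9.fderiv, norm_smul, Real.norm_eq_abs, abs_mul, abs_two]
    have g7 := hum x
    have g8 := hul x
    calc 2 * |u x - m| * ‖fderiv ℝ u x‖ ≤ 2 * 2 * l1 := by
          refine mul_le_mul (by linarith) g8 (norm_nonneg _) (by norm_num)
      _ = 4 * l1 := by ring
  have hst1 := hst n V V' hV E hE U (4 * l1) (Real.sqrt K * l1) hUC
    (fun x => by rw [hU]; exact sq_nonneg _)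
    (fun x => by
      rw [hU]
      have g9 := hum x
      simp only
      rw [← sq_abs]
      nlinarith [abs_nonneg (u x - m)])
    (by positivity) hUd (by positivity) k2
    (by
      rw [mul_pow, Real.sq_sqrt (by linarith)]
      rw [hU]
      exact hI)
  -- the expectation of `U`
  have hKm := KV_meas V (fun i => (hV i).cv.contV) E
  have hvf : volume (KV V E) ≠ ⊤ := hE.bdd.measure_lt_top.ne
  have hvp : 0 < (volume (KV V E)).toReal := ENNReal.toReal_pos hE.pos.ne' hvf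
  have hEW : EW w U ≤ C1 * (Real.sqrt K + 4) * l1 := by
    have e1 : EW w U = (∫ x in KV V E, U x) / (volume (KV V E)).toReal := by
      have e2 := Pool.Agent.Y506.PV.EV_EW (KV V E) hKm U
      rw [hw]
      unfold EW
      rw [show (ind (KV V E) : Eu (Fin n) → ℝ) = Pool.Agent.Y506.PV.ind (KV V E) from rfl,
        Pool.Agent.Y506.PV.int_ind (KV V E) hKm, Pool.Agent.Y506.PV.int_ind1 (KV V E) hKm]
    rw [e1, div_le_iff₀ hvp]
    refine hst1.trans (le_of_eq ?_)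
    ring
  -- integrability
  have hlin : ∀ θ : Eu (Fin n), (Integrable fun x => ⟪x, θ⟫_ℝ * w x) ∧
      Integrable fun x => ⟪x, θ⟫_ℝ ^ 2 * w x := fun θ =>
    lin_int hA (fun x => ⟪x, θ⟫_ℝ) (by fun_prop) ‖θ‖ fun x => by
      refine (abs_real_inner_le_norm x θ).trans ?_
      nlinarith [norm_nonneg θ, norm_nonneg x]
  have hvTc : Continuous fun x => v (T x) := by
    have : (fun x => v (T x)) = fun x => v (T' x) := funext fun x => by rw [hT']
    rw [this]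
    exact hv.continuous.comp T'.continuous
  have hv2 : ∀ x, |v (T x) - m| ≤ 2 := fun x => by
    have g5 := abs_sub (v (T x)) m
    have g6 := hv1 (T x)
    linarith
  have i1 := hA.bdd (fun x => v (T x)) hvTc.measurable 1 fun x => hv1 _
  have i2 := hA.bdd (fun x => v (T x) ^ 2) (hvTc.measurable.pow_const 2) 1 fun x => by
    rw [abs_of_nonneg (sq_nonneg _), ← sq_abs]
    have := hv1 (T x)
    nlinarith [abs_nonneg (v (T x))]
  have i3 := hA.bdd (fun x => (v (T x) - m) ^ 2) ((hvTc.measurable.sub_const m).pow_const 2) 4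
    fun x => by
    rw [abs_of_nonneg (sq_nonneg _), ← sq_abs]
    have := hv2 x
    nlinarith [abs_nonneg (v (T x) - m)]
  have iU : Integrable fun x => U x * w x := hA.bdd U hUC.continuous.measurable 4 fun x => by
    rw [hU]
    simp only
    rw [abs_of_nonneg (sq_nonneg _), ← sq_abs]
    have := hum x
    nlinarith [abs_nonneg (u x - m)]
  have hbx : ∀ x : Eu (Fin n), ⟪b, x⟫_ℝ = ⟪x, b⟫_ℝ := fun x => real_inner_comm _ _
  obtain ⟨j1, j2⟩ := hlin b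
  simp only [hbx] at hα
  have hsh := VW_shift hA (fun x => ⟪x, b⟫_ℝ) j1 j2 α
  rw [← hα, sub_self] at hsh
  have j3 : Integrable fun x => (⟪x, b⟫_ℝ - α) ^ 2 * w x := by
    refine ((j2.sub (j1.const_mul (2 * α))).add (hA.one.const_mul (α ^ 2))).congr
      (Eventually.of_forall fun x => ?_)
    simp only [Pi.add_apply, Pi.sub_apply]
    ring
  -- difference of the two functions
  have hvL : ∀ y z : Eu (Fin k), |v y - v z| ≤ κ / Real.sqrt s * ‖y - z‖ := by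
    intro y z
    have g10 := Convex.norm_image_sub_le_of_norm_fderiv_le (𝕜 := ℝ) (f := v) (s := univ) (x := z)
      (y := y) (C := κ / Real.sqrt s) (fun x _ => hv.differentiable one_ne_zero x)
      (fun x _ => hvl x) convex_univ (mem_univ _) (mem_univ _)
    rwa [Real.norm_eq_abs] at g10
  obtain ⟨q, hq⟩ : ∃ q : ℝ, q = κ / Real.sqrt s * (‖T b‖ / ‖b‖ ^ 2) := ⟨_, rfl⟩
  have hq0 : 0 ≤ q := by rw [hq]; positivity
  have hdiff : ∀ x, |v (T x) - u x| ≤ q * |⟪x, b⟫_ℝ - α| := by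
    intro x
    rw [hu]
    simp only
    refine (hvL _ _).trans ?_
    have g11 : T x - (Q x + w0) = ((⟪x, b⟫_ℝ - α) / ‖b‖ ^ 2) • T b := by
      rw [hQa, prb_apply, map_sub, map_smul, hw0, hbx]
      rw [sub_div, sub_smul]
      abel
    rw [g11, norm_smul, Real.norm_eq_abs, abs_div, abs_of_nonneg (sq_nonneg ‖b‖), hq]
    apply le_of_eq
    ring
  have hmain1 : VW w (fun x => v (T x)) ≤ 2 * EW w U + 2 * (q ^ 2 * VW w fun x => ⟪x, b⟫_ℝ) := by
    have g12 := VW_shift hA (fun x => v (T x)) i1 i2 m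
    have g13 : VW w (fun x => v (T x)) ≤ EW w fun x => (v (T x) - m) ^ 2 := by
      rw [g12]
      nlinarith [sq_nonneg (EW w (fun x => v (T x)) - m)]
    refine g13.trans ?_
    have iA : Integrable fun x => (2 * U x) * w x := by
      refine (iU.const_mul 2).congr (Eventually.of_forall fun x => ?_)
      simp only
      ring
    have iB : Integrable fun x => ((2 * q ^ 2) * (⟪x, b⟫_ℝ - α) ^ 2) * w x := by
      refine (j3.const_mul (2 * q ^ 2)).congr (Eventually.of_forall fun x => ?_)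
      simp only
      ring
    have g14 : EW w (fun x => (v (T x) - m) ^ 2) ≤
        EW w (fun x => 2 * U x + (2 * q ^ 2) * (⟪x, b⟫_ℝ - α) ^ 2) := by
      refine EW_mono hA _ _ i3 ?_ fun x => ?_
      · refine (iA.add iB).congr (Eventually.of_forall fun x => ?_)
        simp only [Pi.add_apply]
        ring
      · rw [hU]
        simp only
        have g15 := hdiff x
        have g16 : (v (T x) - u x) ^ 2 ≤ q ^ 2 * (⟪x, b⟫_ℝ - α) ^ 2 := by
          calc (v (T x) - u x) ^ 2 = |v (T x) - u x| ^ 2 := (sq_abs _).symm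
            _ ≤ (q * |⟪x, b⟫_ℝ - α|) ^ 2 := pow_le_pow_left₀ (abs_nonneg _) g15 2
            _ = q ^ 2 * (⟪x, b⟫_ℝ - α) ^ 2 := by rw [mul_pow, sq_abs]
        nlinarith [sq_nonneg ((v (T x) - u x) - (u x - m))]
    refine g14.trans (le_of_eq ?_)
    rw [EW_add _ _ iA iB, EW_const_mul, EW_const_mul, hsh]
    ring
  -- the last term
  have hlast : q ^ 2 * VW w (fun x => ⟪x, b⟫_ℝ) ≤ κ ^ 2 * (2 + 2 * C2 / c) := by
    have hR0 : 0 ≤ κ ^ 2 * (2 + 2 * C2 / c) := by positivity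
    by_cases h0 : T b = 0
    · have : q = 0 := by rw [hq, h0]; simp
      rw [this]
      simpa using hR0
    have hb0 : b ≠ 0 := by
      intro h
      rw [h, map_zero] at h0
      exact h0 rfl
    have hn : 0 < ‖T b‖ := norm_pos_iff.2 h0
    have hbp : 0 < ‖b‖ ^ 2 := by positivity
    obtain ⟨e, he⟩ : ∃ e : Eu (Fin k), e = ‖T b‖⁻¹ • T b := ⟨_, rfl⟩
    have he1 : ‖e‖ = 1 := by
      rw [he, norm_smul, norm_inv, norm_norm, inv_mul_cancel₀ hn.ne']
    obtain ⟨θ, hθ⟩ : ∃ θ : Eu (Fin n), θ = LinearMap.adjoint T e := ⟨_, rfl⟩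
    have hbθ : ⟪b, θ⟫_ℝ = ‖T b‖ := by
      rw [hθ, ← hadj, he, real_inner_smul_right, real_inner_self_eq_norm_sq, sq, ← mul_assoc,
        inv_mul_cancel₀ hn.ne', one_mul]
    have g17 : (fun x => (‖T b‖ / ‖b‖ ^ 2) * ⟪x, b⟫_ℝ) = fun x => ⟪x, θ⟫_ℝ - ⟪x, prb b θ⟫_ℝ := by
      funext x
      rw [prb_apply, inner_sub_right, real_inner_smul_right, hbθ]
      ring
    obtain ⟨t1, t2⟩ := hlin θ
    obtain ⟨t3, t4⟩ := hlin (prb b θ)
    have g18 := VW_sub hA (fun x => ⟪x, θ⟫_ℝ) (fun x => ⟪x, prb b θ⟫_ℝ) t1 t2 t3 t4 (by fun_prop)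
      (by fun_prop)
    rw [← g17, VW_const_mul] at g18
    have g19 : VW w (fun x => ⟪x, θ⟫_ℝ) ≤ s := by
      have g3 := hvar e he1
      simp only [hadj] at g3
      rw [← hθ] at g3
      exact g3
    have g20 : VW w (fun x => ⟪x, prb b θ⟫_ℝ) ≤ C2 * (s / c) := by
      refine ((hcov (prb b θ)).2 (prb_orth b θ)).trans ?_
      refine mul_le_mul_of_nonneg_left ?_ hC2.le
      rw [hθ]
      exact hP e he1
    have g21 : q ^ 2 * VW w (fun x => ⟪x, b⟫_ℝ) = (κ ^ 2 / s) * ((‖T b‖ / ‖b‖ ^ 2) ^ 2 *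
        VW w (fun x => ⟪x, b⟫_ℝ)) := by
      rw [hq, mul_pow, div_pow, Real.sq_sqrt hs.le]
      ring
    rw [g21]
    calc κ ^ 2 / s * ((‖T b‖ / ‖b‖ ^ 2) ^ 2 * VW w (fun x => ⟪x, b⟫_ℝ)) ≤
          κ ^ 2 / s * (2 * s + 2 * (C2 * (s / c))) := by
          refine mul_le_mul_of_nonneg_left ?_ (by positivity)
          linarith
      _ = κ ^ 2 * (2 + 2 * C2 / c) := by
          field_simp
  calc VW w (fun x => v (T x)) ≤ 2 * EW w U + 2 * (q ^ 2 * VW w fun x => ⟪x, b⟫_ℝ) := hmain1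
    _ ≤ 2 * (C1 * (Real.sqrt K + 4) * l1) + 2 * (κ ^ 2 * (2 + 2 * C2 / c)) := by linarith
    _ ≤ δ := by linarith

end Pool.Agent.R476.OR
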