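import Pool.Agent.R476.OR.Fin

/-!
# Project OR: real valued convex functions
-/

set_option autoImplicit false

namespace Pool.Agent.R476.OR

open MeasureTheory Set Filter Topology
open scoped ENNReal InnerProductSpace
open Pool.Agent.W695.KH (Eu)

theorem cont_conv {V : ℝ → ℝ} (h : ConvexOn ℝ univ V) : Continuous V := by
  have := h.continuousOn isOpen_univ
  exact continuousOn_univ.1 this

/-- a convex sum with a bounded nonempty sublevel set has summands which are bounded below -/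
theorem bdd_below {n : ℕ} (V : Fin n → ℝ → ℝ) (E : ℝ) (hV : ∀ i, ConvexOn ℝ univ (V i))
    (hb : Bornology.IsBounded {x : Eu (Fin n) | ∑ i, V i (x i) ≤ E}) (x0 : Eu (Fin n))
    (hx0 : ∑ i, V i (x0 i) ≤ E) (i : Fin n) : ∃ m : ℝ, ∀ t, m ≤ V i t := by
  classical
  obtain ⟨R, hR⟩ := hb.exists_norm_le
  have h1 : ∀ t, V i t ≤ V i (x0 i) → |t| ≤ R := by
    intro t ht
    have h2 : (WithLp.toLp 2 (Function.update (fun j => x0 j) i t) : Eu (Fin n)) ∈
        {x : Eu (Fin n) | ∑ i, V i (x i) ≤ E} := by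
      refine le_trans (Finset.sum_le_sum fun j _ => ?_) hx0
      by_cases hj : j = i
      · subst hj
        simpa using ht
      · simp [hj]
    have h3 := hR _ h2
    have h4 := PiLp.norm_apply_le (WithLp.toLp 2 (Function.update (fun j => x0 j) i t) :
      Eu (Fin n)) i
    simp only [Function.update_self, Real.norm_eq_abs] at h4
    exact h4.trans h3
  have hc := cont_conv (hV i)
  by_cases hne : (Icc (-R) R).Nonempty
  · obtain ⟨z, -, hz⟩ := (isCompact_Icc (a := -R) (b := R)).exists_isMinOn hne hc.continuousOn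
    refine ⟨min (V i (x0 i)) (V i z), fun t => ?_⟩
    by_cases ht : V i t ≤ V i (x0 i)
    · have h5 := abs_le.1 (h1 t ht)
      exact (min_le_right _ _).trans (hz ⟨h5.1, h5.2⟩)
    · exact (min_le_left _ _).trans (not_le.1 ht).le
  · refine ⟨V i (x0 i), fun t => ?_⟩
    by_contra ht
    rw [not_le] at ht
    have h5 := abs_le.1 (h1 t ht.le)
    exact hne ⟨t, h5.1, h5.2⟩

theorem orl_real {n : ℕ} (V : Fin n → ℝ → ℝ) (E : ℝ) (hV : ∀ i, ConvexOn ℝ univ (V i))
    (hb : Bornology.IsBounded {x : Eu (Fin n) | ∑ i, V i (x i) ≤ E})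
    (hi : (interior {x : Eu (Fin n) | ∑ i, V i (x i) ≤ E}).Nonempty) :
    ∃ (W : Fin n → ℝ → ℝ≥0∞) (F : ℝ≥0∞), (∀ i, XV (W i)) ∧
      {x : Eu (Fin n) | ∑ i, V i (x i) ≤ E} = {x : Eu (Fin n) | ∑ i, W i (x i) ≤ F} := by
  obtain ⟨x0, hx0⟩ := hi
  have hx2 : x0 ∈ {x : Eu (Fin n) | ∑ i, V i (x i) ≤ E} := interior_subset hx0
  have hx1 : ∑ i, V i (x0 i) ≤ E := hx2
  choose m hm using bdd_below V E hV hb x0 hx1
  refine ⟨fun i t => ENNReal.ofReal (V i t - m i), ENNReal.ofReal (E - ∑ i, m i), fun i => ⟨?_, ?_⟩,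
    ?_⟩
  · exact (ENNReal.continuous_ofReal.comp ((cont_conv (hV i)).sub continuous_const)).lowerSemicontinuous
  · intro x y t h0 h1
    have h2 : V i ((1 - t) * x + t * y) ≤ (1 - t) * V i x + t * V i y := by
      have := (hV i).2 (mem_univ x) (mem_univ y) (by linarith : 0 ≤ 1 - t) h0.le (by ring)
      simpa [smul_eq_mul] using this
    rw [← ENNReal.ofReal_mul (by linarith), ← ENNReal.ofReal_mul h0.le,
      ← ENNReal.ofReal_add (mul_nonneg (by linarith) (sub_nonneg.2 (hm i x)))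
        (mul_nonneg h0.le (sub_nonneg.2 (hm i y)))]
    refine ENNReal.ofReal_le_ofReal ?_
    nlinarith
  · have h3 : 0 ≤ E - ∑ i, m i := by
      have : ∑ i, m i ≤ ∑ i, V i (x0 i) := Finset.sum_le_sum fun i _ => hm i _
      linarith
    ext x
    rw [mem_ofPred_eq, mem_ofPred_eq, ← ENNReal.ofReal_sum_of_nonneg fun i _ =>
      sub_nonneg.2 (hm i (x i)), ENNReal.ofReal_le_ofReal_iff h3, Finset.sum_sub_distrib]
    constructor
    · intro h; linarith
    · intro h; linarith

end Pool.Agent.R476.OR
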